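import Pool.Agent.MP_e6b751_nt.IDefs

namespace Pool.Agent.MP_e6b751_nt

open Polynomial

section General

variable {F R : Type} [Field F] [CommRing R] [Algebra F R]

theorem codim_top : codim F (⊤ : Ideal R) = 0 := by
  have : Subsingleton (R ⧸ (⊤ : Ideal R)) := Ideal.Quotient.subsingleton_iff.2 rfl
  exact Module.finrank_zero_of_subsingleton

theorem codim_eq_zero {I : Ideal R} [Module.Finite F (R ⧸ I)] (h : codim F I = 0) : I = ⊤ :=
  Ideal.Quotient.subsingleton_iff.1 (Module.finrank_zero_iff.1 h)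

/-- The projection between two quotients, as a linear map. -/
noncomputable def codimFac (F : Type) [Field F] [Algebra F R] {I J : Ideal R} (h : I ≤ J) :
    (R ⧸ I) →ₗ[F] (R ⧸ J) := (Ideal.Quotient.factorₐ F h).toLinearMap

theorem codimFac_mk {I J : Ideal R} (h : I ≤ J) (x : R) :
    codimFac F h (Ideal.Quotient.mk I x) = Ideal.Quotient.mk J x := rfl

theorem codimFac_surj {I J : Ideal R} (h : I ≤ J) : Function.Surjective (codimFac F h) := by
  intro y
  obtain ⟨x, rfl⟩ := Ideal.Quotient.mk_surjective y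
  exact ⟨_, codimFac_mk h x⟩

theorem codimFac_add {I J : Ideal R} [Module.Finite F (R ⧸ I)] (h : I ≤ J) :
    codim F J + Module.finrank F (LinearMap.ker (codimFac F h)) = codim F I := by
  have := LinearMap.finrank_range_add_finrank_ker (codimFac F h)
  rwa [LinearMap.range_eq_top.2 (codimFac_surj h), finrank_top] at this

theorem codim_anti {I J : Ideal R} [Module.Finite F (R ⧸ I)] (h : I ≤ J) :
    codim F J ≤ codim F I := by
  have := codimFac_add (F := F) h
  omega

theorem eq_of_codim_le {I J : Ideal R} [Module.Finite F (R ⧸ I)] (h : I ≤ J)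
    (h' : codim F I ≤ codim F J) : I = J := by
  have h1 := codimFac_add (F := F) h
  have h2 : Module.finrank F (LinearMap.ker (codimFac F h)) = 0 := by omega
  have h3 : LinearMap.ker (codimFac F h) = ⊥ := Submodule.finrank_eq_zero.1 h2
  refine le_antisymm h fun x hx => ?_
  have h4 : Ideal.Quotient.mk I x ∈ LinearMap.ker (codimFac F h) := by
    rw [LinearMap.mem_ker, codimFac_mk]
    exact Ideal.Quotient.eq_zero_iff_mem.2 hx
  rw [h3, Submodule.mem_bot] at h4
  exact Ideal.Quotient.eq_zero_iff_mem.1 h4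

theorem codim_mul [IsDedekindDomain R] (fin : ∀ I : Ideal R, I ≠ ⊥ → Module.Finite F (R ⧸ I))
    {I J : Ideal R} (hI : I ≠ ⊥) (hJ : J ≠ ⊥) : codim F (I * J) = codim F I + codim F J := by
  have hIJ : I * J ≠ ⊥ := mul_ne_zero hI hJ
  have := fin _ hIJ
  have hle : I * J ≤ I := Ideal.mul_le_left
  obtain ⟨a, ha⟩ := IsDedekindDomain.exists_sup_span_eq hle hIJ
  have haI : Ideal.span {a} ≤ I := le_sup_right.trans ha.le
  obtain ⟨I', hI'⟩ := Ideal.dvd_iff_le.2 haI
  have hco : J ⊔ I' = ⊤ := by
    apply mul_left_cancel₀ hI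
    rw [Ideal.mul_sup, ← hI', ha, Ideal.mul_top]
  have haI' : a ∈ I := haI (Ideal.mem_span_singleton_self a)
  have key : ∀ r : R, r * a ∈ I * J ↔ r ∈ J := by
    intro r
    constructor
    · intro hr
      have h1 : I * (Ideal.span {r} * I') ≤ I * J := by
        rw [mul_left_comm, ← hI', Ideal.span_singleton_mul_span_singleton,
          Ideal.span_singleton_le_iff_mem]
        exact hr
      have h2 : Ideal.span {r} * I' ≤ J :=
        Ideal.dvd_iff_le.1 ((mul_dvd_mul_iff_left hI).1 (Ideal.dvd_iff_le.2 h1))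
      have h3 : Ideal.span {r} ≤ J := by
        calc Ideal.span {r} = Ideal.span {r} * (J ⊔ I') := by rw [hco, Ideal.mul_top]
          _ ≤ J := by rw [Ideal.mul_sup]; exact sup_le Ideal.mul_le_right h2
      exact h3 (Ideal.mem_span_singleton_self r)
    · intro hr
      rw [mul_comm r a]
      exact Ideal.mul_mem_mul haI' hr
  let ψ : R →ₗ[R] R ⧸ (I * J) := (Submodule.mkQ (I * J)).comp (LinearMap.toSpanSingleton R R a)
  have hψ : ∀ r, ψ r = Ideal.Quotient.mk (I * J) (r * a) := fun r => rfl
  let φ : (R ⧸ J) →ₗ[R] R ⧸ (I * J) := Submodule.liftQ J ψ fun r hr => by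
    rw [LinearMap.mem_ker, hψ]
    exact Ideal.Quotient.eq_zero_iff_mem.2 ((key r).2 hr)
  have hφ : ∀ r, φ (Ideal.Quotient.mk J r) = Ideal.Quotient.mk (I * J) (r * a) := fun r => rfl
  have hinj : Function.Injective (φ.restrictScalars F) := by
    rw [← LinearMap.ker_eq_bot, eq_bot_iff]
    intro y hy
    obtain ⟨r, rfl⟩ := Ideal.Quotient.mk_surjective y
    have : Ideal.Quotient.mk (I * J) (r * a) = 0 := hy
    exact Ideal.Quotient.eq_zero_iff_mem.2 ((key r).1 (Ideal.Quotient.eq_zero_iff_mem.1 this))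
  have hr : LinearMap.range (φ.restrictScalars F) = LinearMap.ker (codimFac F hle) := by
    ext y
    obtain ⟨x, rfl⟩ := Ideal.Quotient.mk_surjective y
    rw [LinearMap.mem_ker, codimFac_mk, Ideal.Quotient.eq_zero_iff_mem, LinearMap.mem_range]
    constructor
    · rintro ⟨z, hz⟩
      obtain ⟨r, rfl⟩ := Ideal.Quotient.mk_surjective z
      have h1 : Ideal.Quotient.mk (I * J) (r * a) = Ideal.Quotient.mk (I * J) x := hz
      have h2 := hle (Ideal.Quotient.eq.1 h1)
      have h3 := I.sub_mem (I.mul_mem_left r haI') h2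
      simpa using h3
    · intro hx
      rw [← ha] at hx
      obtain ⟨b, hb, c, hc, rfl⟩ := Submodule.mem_sup.1 hx
      obtain ⟨r, rfl⟩ := Ideal.mem_span_singleton'.1 hc
      refine ⟨Ideal.Quotient.mk J r, ?_⟩
      change Ideal.Quotient.mk (I * J) (r * a) = _
      rw [map_add, Ideal.Quotient.eq_zero_iff_mem.2 hb, zero_add]
  have h1 := codimFac_add (F := F) hle
  rw [← hr, LinearMap.finrank_range_of_inj hinj] at h1
  exact h1.symm

theorem codim_prod [IsDedekindDomain R] (fin : ∀ I : Ideal R, I ≠ ⊥ → Module.Finite F (R ⧸ I))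
    {α : Type} (t : Finset α) {I : α → Ideal R} (hI : ∀ a ∈ t, I a ≠ ⊥) :
    codim F (∏ a ∈ t, I a) = ∑ a ∈ t, codim F (I a) := by
  classical
  induction t using Finset.induction_on with
  | empty => simpa using codim_top
  | insert a t ha ih =>
    have h1 : ∀ b ∈ t, I b ≠ ⊥ := fun b hb => hI b (Finset.mem_insert_of_mem hb)
    rw [Finset.prod_insert ha, Finset.sum_insert ha,
      codim_mul fin (hI a (Finset.mem_insert_self a t)) (Finset.prod_ne_zero_iff.2 h1), ih h1]

theorem codim_map {F' R' : Type} [Field F'] [CommRing R'] [Algebra F' R'] (g : F ≃+* F')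
    (e : R ≃+* R') (h : ∀ a, e (algebraMap F R a) = algebraMap F' R' (g a)) (I : Ideal R) :
    codim F' (I.map e) = codim F I := by
  refine (Algebra.finrank_eq_of_equiv_equiv g (Ideal.quotientEquiv I (I.map e) e rfl) ?_).symm
  ext a
  change Ideal.Quotient.mk (I.map e) (algebraMap F' R' (g a)) =
    Ideal.Quotient.mk (I.map e) (e (algebraMap F R a))
  rw [h]

/-- A subspace of dimension larger than the codimension meets the ideal. -/
theorem exists_mem_of_codim_lt {I : Ideal R} [Module.Finite F (R ⧸ I)] {U : Submodule F R}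
    (h : codim F I < Module.finrank F U) : ∃ x ∈ U, x ∈ I ∧ x ≠ 0 := by
  by_contra hne
  let φ : U →ₗ[F] R ⧸ I := (Ideal.Quotient.mkₐ F I).toLinearMap.comp U.subtype
  have hinj : Function.Injective φ := by
    rw [← LinearMap.ker_eq_bot, eq_bot_iff]
    intro y hy
    have h1 : Ideal.Quotient.mk I (y : R) = 0 := hy
    rw [Submodule.mem_bot]
    by_contra h0
    exact hne ⟨y, y.2, Ideal.Quotient.eq_zero_iff_mem.1 h1, fun h2 => h0 (Subtype.ext h2)⟩
  exact absurd (LinearMap.finrank_le_finrank_of_injective hinj) (not_le.2 h)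

end General

end Pool.Agent.MP_e6b751_nt
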