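import Pool.Agent.MP_e6b751_nt.DatA

namespace Pool.Agent.MP_e6b751_nt.Dat

open Polynomial

theorem datB_dvd {A K : Type} [CommRing A] [IsDomain A] [IsIntegrallyClosed A] [Field K]
    [Algebra A K] (hi : Function.Injective (algebraMap A K)) {a b : A} (ha : a ≠ 0)
    (h : IsIntegral A (algebraMap A K b / algebraMap A K a)) : a ∣ b := by
  let φ : FractionRing A →ₐ[A] K := IsFractionRing.liftAlgHom (g := Algebra.ofId A K) hi
  have e : φ (algebraMap A (FractionRing A) b / algebraMap A (FractionRing A) a) =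
      algebraMap A K b / algebraMap A K a := by
    rw [map_div₀, φ.commutes, φ.commutes]
  rw [← e, isIntegral_algHom_iff φ φ.injective, IsIntegrallyClosed.isIntegral_iff] at h
  obtain ⟨c, hc⟩ := h
  have h0 : algebraMap A (FractionRing A) a ≠ 0 :=
    (map_ne_zero_iff _ (IsFractionRing.injective A _)).2 ha
  rw [eq_div_iff h0, ← map_mul] at hc
  exact ⟨c, by rw [← IsFractionRing.injective A _ hc, mul_comm]⟩

theorem datB_sq {F : Type} [Field F] {g c q : F[X]} (hg : g ≠ 0) (hq : Squarefree q)
    (h : g ^ 2 ∣ c ^ 2 * q) : g ∣ c := by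
  obtain ⟨g', c', d, hr, rfl, rfl⟩ := UniqueFactorizationMonoid.exists_reduced_factors g hg c
  have hd : d ≠ 0 := left_ne_zero_of_mul hg
  rw [mul_pow, mul_pow, mul_assoc, mul_dvd_mul_iff_left (pow_ne_zero 2 hd)] at h
  have h2 : g' ^ 2 ∣ q := (hr.pow (m := 2) (n := 2)).dvd_of_dvd_mul_left h
  have hu : IsUnit g' := hq g' (by rwa [← pow_two])
  exact mul_dvd_mul_left d hu.dvd

theorem datB_comp {R ι : Type} [CommRing R] [Fintype ι] [DecidableEq ι] (h2 : IsUnit (2 : R))
    (T : Ideal R) (t : Finset ι → R) (σ : ι → R →+* R) (hT : ∀ i, ∀ x ∈ T, σ i x ∈ T)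
    (ht : ∀ i S, σ i (t S) = (if i ∈ S then -1 else 1) * t S) (h : ∑ S, t S ∈ T)
    (S₀ : Finset ι) : t S₀ ∈ T := by
  have key : ∀ J : Finset ι, ∑ S, (if ∀ i ∈ J, (i ∈ S ↔ i ∈ S₀) then t S else 0) ∈ T := by
    intro J
    induction J using Finset.induction_on with
    | empty => simpa using h
    | insert i J _ ih =>
      have h1 := T.add_mem ih (T.mul_mem_left (if i ∈ S₀ then -1 else 1) (hT i _ ih))
      rw [← T.unit_mul_mem_iff_mem h2]
      convert h1 using 1
      rw [map_sum, Finset.mul_sum, Finset.mul_sum, ← Finset.sum_add_distrib]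
      refine Finset.sum_congr rfl fun S _ => ?_
      simp only [Finset.forall_mem_insert]
      by_cases hJ : ∀ j ∈ J, (j ∈ S ↔ j ∈ S₀)
      · rw [if_pos hJ, ht]
        by_cases a : i ∈ S <;> by_cases b : i ∈ S₀ <;> simp [a, b, two_mul]
        all_goals exact fun x hx h => absurd (hJ x hx) h
      · rw [if_neg hJ, if_neg fun h => hJ h.2]
        simp
  have h3 := key Finset.univ
  rw [Finset.sum_eq_single S₀] at h3
  · simpa using h3
  · intro S _ hS
    exact if_neg fun h => hS (Finset.ext fun i => h i (Finset.mem_univ i))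
  · exact fun h => absurd (Finset.mem_univ _) h

variable {F E ι : Type} [Field F] [CharZero F] [Field E] [Algebra F E] [Fintype ι] (D : Dat F E ι)

omit [CharZero F] in
theorem datB_repr (α : D.R) :
    ∃ c : Finset ι → F[X], α = ∑ S, aeval D.sR (c S) * ∏ i ∈ S, D.yR i := by
  obtain ⟨c, hc⟩ := D.mem_iff.1 α.2
  refine ⟨c, Subtype.ext ?_⟩
  rw [hc]
  change _ = D.R.val _
  rw [map_sum]
  refine Finset.sum_congr rfl fun S _ => ?_
  rw [map_mul, map_prod, ← aeval_algHom_apply]
  rfl

theorem datB_flip [DecidableEq ι] (i : ι) : ∃ σ : D.R →+* D.R, Function.Injective σ ∧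
    (∀ p : F[X], σ (aeval D.sR p) = aeval D.sR p) ∧
    ∀ S : Finset ι, σ (∏ j ∈ S, D.yR j) = (if i ∈ S then -1 else 1) * ∏ j ∈ S, D.yR j := by
  obtain ⟨σ, h0, h1, h2⟩ := D.lift (algebraMap F D.R) D.sR
    (fun j => (if j = i then -1 else 1) * D.yR j) fun j => by
      rw [← aeval_def, ← D.sqR, mul_pow]
      split_ifs <;> simp
  refine ⟨σ, ?_, fun p => ?_, fun S => ?_⟩
  · have e : σ.comp σ = RingHom.id _ := D.hom_ext (fun a => by simp only [RingHom.comp_apply, h0]; rfl)
      (by simp only [RingHom.comp_apply, h1]; rfl) fun j => by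
        simp only [RingHom.comp_apply, h2, map_mul, RingHom.id_apply]
        split_ifs <;> simp
    exact Function.LeftInverse.injective (g := σ) fun x => congrArg (fun f : D.R →+* D.R => f x) e
  · rw [aeval_def, hom_eval₂, h1]
    congr 1
    exact RingHom.ext h0
  · rw [map_prod, Finset.prod_congr rfl fun j _ => h2 j, Finset.prod_mul_distrib,
      Finset.prod_ite_eq']

theorem datB_closed {x : FractionRing D.R} (hx : IsIntegral D.R x) :
    ∃ y, algebraMap D.R (FractionRing D.R) y = x := by
  classical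
  obtain ⟨a, b, hb, rfl⟩ := IsFractionRing.div_surjective (A := D.R) x
  obtain ⟨g, hg, b', hb'⟩ := D.exists_dvd (nonZeroDivisors.ne_zero hb)
  have inj := IsFractionRing.injective D.R (FractionRing D.R)
  have γ0 : aeval D.sR g ≠ 0 := D.aeval_ne_zero hg
  have γ1 : algebraMap D.R (FractionRing D.R) (aeval D.sR g) ≠ 0 := (map_ne_zero_iff _ inj).2 γ0
  have b0 : algebraMap D.R (FractionRing D.R) b' ≠ 0 :=
    (map_ne_zero_iff _ inj).2 (right_ne_zero_of_mul (hb' ▸ γ0))
  have e : algebraMap D.R (FractionRing D.R) a / algebraMap D.R (FractionRing D.R) b =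
      algebraMap D.R (FractionRing D.R) (a * b') /
        algebraMap D.R (FractionRing D.R) (aeval D.sR g) := by
    rw [hb', map_mul, map_mul, mul_div_mul_right _ _ b0]
  rw [e] at hx ⊢
  generalize a * b' = α at hx
  let T : Ideal D.R :=
    { carrier := {z | IsIntegral D.R (algebraMap D.R (FractionRing D.R) z /
        algebraMap D.R (FractionRing D.R) (aeval D.sR g))}
      add_mem' := fun {u v} hu hv => by
        change IsIntegral _ _
        rw [map_add, add_div]
        exact IsIntegral.add hu hv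
      zero_mem' := by
        change IsIntegral _ _
        rw [map_zero, zero_div]
        exact isIntegral_zero
      smul_mem' := fun u v hv => by
        change IsIntegral _ _
        rw [smul_eq_mul, map_mul, mul_div_assoc]
        exact IsIntegral.mul isIntegral_algebraMap hv }
  choose σ σi σp σy using D.datB_flip
  have hT : ∀ i, ∀ z ∈ T, σ i z ∈ T := by
    intro i z hz
    let τ : FractionRing D.R →+* FractionRing D.R :=
      IsFractionRing.lift (g := (algebraMap D.R (FractionRing D.R)).comp (σ i)) (inj.comp (σi i))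
    have hτ : ∀ u, τ (algebraMap D.R (FractionRing D.R) u) =
        algebraMap D.R (FractionRing D.R) (σ i u) := fun u => IsFractionRing.lift_algebraMap _ u
    have := IsIntegral.map_of_comp_eq (σ i) τ (RingHom.ext fun u => (hτ u).symm) hz
    rw [map_div₀, hτ, hτ, σp] at this
    exact this
  obtain ⟨c, rfl⟩ := D.datB_repr α
  have h2 : IsUnit (2 : D.R) := by
    have := (IsUnit.mk0 (2 : F) two_ne_zero).map (algebraMap F D.R)
    rwa [map_ofNat] at this
  have hc := datB_comp h2 T (fun S => aeval D.sR (c S) * ∏ i ∈ S, D.yR i) σ hT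
    (fun i S => by rw [map_mul, σp, σy]; ring) hx
  letI : Algebra F[X] D.R := (aeval D.sR : F[X] →ₐ[F] D.R).toRingHom.toAlgebra
  have am : ∀ p : F[X], algebraMap F[X] D.R p = aeval D.sR p := fun _ => rfl
  haveI : Algebra.IsIntegral F[X] D.R := ⟨fun z => by
    obtain ⟨d, rfl⟩ := D.datB_repr z
    refine IsIntegral.sum _ fun S _ => IsIntegral.mul ?_ (IsIntegral.prod _ fun i _ => ?_)
    · rw [← am]; exact isIntegral_algebraMap
    · refine IsIntegral.of_pow (n := 2) two_pos ?_
      rw [D.sqR, ← am]; exact isIntegral_algebraMap⟩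
  have am2 : ∀ p : F[X], algebraMap F[X] (FractionRing D.R) p =
      algebraMap D.R (FractionRing D.R) (aeval D.sR p) := fun p =>
    IsScalarTower.algebraMap_apply F[X] D.R _ p
  have inj2 : Function.Injective (algebraMap F[X] (FractionRing D.R)) := by
    rw [injective_iff_map_eq_zero]
    intro p hp
    by_contra h0
    exact (map_ne_zero_iff _ inj).2 (D.aeval_ne_zero h0) (am2 p ▸ hp)
  have hd : ∀ S, g ∣ c S := by
    intro S
    have h1 : IsIntegral F[X] _ := isIntegral_trans (R := F[X]) (A := D.R) _ (hc S)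
    have h3 := h1.pow 2
    have h4 : (aeval D.sR (c S) * ∏ i ∈ S, D.yR i) ^ 2 =
        aeval D.sR (c S ^ 2 * ∏ i ∈ S, D.q i) := by
      rw [mul_pow, map_mul, map_pow, map_prod, ← Finset.prod_pow,
        Finset.prod_congr rfl fun i _ => D.sqR i]
    rw [div_pow, ← map_pow, ← map_pow, h4, ← map_pow, ← am2, ← am2] at h3
    refine datB_sq hg (D.sep.of_dvd ?_).squarefree (datB_dvd inj2 (pow_ne_zero 2 hg) h3)
    exact Finset.prod_dvd_prod_of_subset _ _ _ (Finset.subset_univ _)
  obtain ⟨w, hw⟩ : aeval D.sR g ∣ ∑ S, aeval D.sR (c S) * ∏ i ∈ S, D.yR i :=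
    Finset.dvd_sum fun S _ => (_root_.map_dvd _ (hd S)).mul_right _
  exact ⟨w, by rw [hw, map_mul, mul_div_cancel_left₀ _ γ1]⟩

theorem dedekind : IsDedekindDomain D.R := by
  haveI := D.finiteType
  refine (isDedekindDomain_iff D.R (FractionRing D.R)).2
    ⟨inferInstance, Algebra.FiniteType.isNoetherianRing F D.R, ⟨fun {p} h0 hp => ?_⟩,
      fun h => D.datB_closed h⟩
  haveI := D.finite_quot h0
  exact Ideal.Quotient.maximal_of_isField p
    (isField_of_isIntegral_of_isField' (R := F) (Field.toIsField F))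

end Pool.Agent.MP_e6b751_nt.Dat
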