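import Pool.Agent.MP_e6b751_nt.Codim
import Pool.Agent.MP_e6b751_nt.DatB

namespace Pool.Agent.MP_e6b751_nt

open Polynomial

section General

variable {F A B α : Type} [Field F] [CommRing A] [CommRing B] [Algebra F A] [Algebra F B]
  [Fintype α]

theorem codimD_mem (f : A →ₐ[F] B) (v : α → B) (hs : ∀ x, ∃ c : α → A, x = ∑ a, f (c a) * v a)
    (I : Ideal A) {x : B} (hx : x ∈ I.map f) :
    ∃ c : α → A, (∀ a, c a ∈ I) ∧ x = ∑ a, f (c a) * v a := by
  refine Submodule.span_induction (p := fun x _ =>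
    ∃ c : α → A, (∀ a, c a ∈ I) ∧ x = ∑ a, f (c a) * v a) ?_ ?_ ?_ ?_ hx
  · rintro _ ⟨z, hz, rfl⟩
    obtain ⟨c, hc⟩ := hs 1
    refine ⟨fun a => z * c a, fun a => I.mul_mem_right _ hz, ?_⟩
    rw [← mul_one (f z), hc, Finset.mul_sum]
    simp [mul_assoc]
  · exact ⟨0, fun _ => I.zero_mem, by simp⟩
  · rintro _ _ _ _ ⟨c, hc, rfl⟩ ⟨c', hc', rfl⟩
    exact ⟨c + c', fun a => I.add_mem (hc a) (hc' a), by simp [add_mul, Finset.sum_add_distrib]⟩
  · rintro r _ _ ⟨c, hc, rfl⟩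
    choose m hm using fun a => hs (r * v a)
    refine ⟨fun b => ∑ a, c a * m a b, fun b => I.sum_mem fun a _ => I.mul_mem_right _ (hc a), ?_⟩
    rw [smul_eq_mul, Finset.mul_sum]
    simp only [map_sum, map_mul, Finset.sum_mul]
    rw [Finset.sum_comm]
    refine Finset.sum_congr rfl fun a _ => ?_
    rw [mul_left_comm, hm a, Finset.mul_sum]
    simp [mul_assoc]

theorem codimD_free (f : A →ₐ[F] B) (v : α → B) (hs : ∀ x, ∃ c : α → A, x = ∑ a, f (c a) * v a)
    (hi : ∀ c : α → A, ∑ a, f (c a) * v a = 0 → ∀ a, c a = 0) (I : Ideal A) :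
    codim F (I.map f) = Fintype.card α * codim F I := by
  let Φ₀ : (α → A) →ₗ[F] B :=
    { toFun := fun c => ∑ a, f (c a) * v a
      map_add' := fun c c' => by simp [add_mul, Finset.sum_add_distrib]
      map_smul' := fun r c => by simp [Finset.smul_sum] }
  let Φ : (α → A) →ₗ[F] B ⧸ I.map f := (Ideal.Quotient.mkₐ F (I.map f)).toLinearMap ∘ₗ Φ₀
  let Ψ : (α → A) →ₗ[F] (α → A ⧸ I) :=
    LinearMap.pi fun a => (Ideal.Quotient.mkₐ F I).toLinearMap ∘ₗ LinearMap.proj a
  have hΦ : Function.Surjective Φ := by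
    intro y
    obtain ⟨x, rfl⟩ := Ideal.Quotient.mk_surjective y
    obtain ⟨c, rfl⟩ := hs x
    exact ⟨c, rfl⟩
  have hΨ : Function.Surjective Ψ := by
    intro y
    choose c hc using fun a => Ideal.Quotient.mk_surjective (y a)
    exact ⟨c, funext hc⟩
  have hk : LinearMap.ker Φ = LinearMap.ker Ψ := by
    ext c
    have h1 : c ∈ LinearMap.ker Φ ↔ ∑ a, f (c a) * v a ∈ I.map f :=
      Ideal.Quotient.eq_zero_iff_mem
    have h2 : c ∈ LinearMap.ker Ψ ↔ ∀ a, c a ∈ I := by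
      rw [LinearMap.mem_ker, funext_iff]
      exact forall_congr' fun a => Ideal.Quotient.eq_zero_iff_mem
    rw [h1, h2]
    constructor
    · intro h a
      obtain ⟨c', hc', e⟩ := codimD_mem f v hs I h
      have h3 := hi (c - c') (by
        simp only [Pi.sub_apply, map_sub, sub_mul, Finset.sum_sub_distrib]
        exact sub_eq_zero.2 e) a
      rw [sub_eq_zero.1 h3]
      exact hc' a
    · intro h
      exact Ideal.sum_mem _ fun a _ => Ideal.mul_mem_right _ _ (Ideal.mem_map_of_mem f (h a))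
  have e : (B ⧸ I.map f) ≃ₗ[F] (α → A ⧸ I) :=
    (Φ.quotKerEquivOfSurjective hΦ).symm ≪≫ₗ Submodule.quotEquivOfEq _ _ hk ≪≫ₗ
      Ψ.quotKerEquivOfSurjective hΨ
  unfold codim
  rw [e.finrank_eq]
  unfold Module.finrank
  rw [rank_fun]
  simp

end General

theorem codimD_val {F E : Type} [Field F] [Field E] [Algebra F E] {S T : Subalgebra F E}
    (h : S ≤ T) (z : S) : T.val (Subalgebra.inclusion h z) = z := rfl

namespace Dat

variable {F E ι : Type} [Field F] [CharZero F] [Field E] [Algebra F E] [Fintype ι] (D : Dat F E ι)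

omit [CharZero F] in
theorem codimD_const (c : F) (a : ι → F) (x : D.R) :
    ∃ r : F, x - algebraMap F D.R r ∈ D.pt c a := by
  obtain ⟨x, hx⟩ := x
  refine Algebra.adjoin_induction (p := fun x hx =>
    ∃ r : F, (⟨x, hx⟩ : D.R) - algebraMap F D.R r ∈ D.pt c a) ?_ ?_ ?_ ?_ hx
  · rintro _ (rfl | ⟨i, rfl⟩)
    · exact ⟨c, Ideal.subset_span (Set.mem_insert _ _)⟩
    · exact ⟨a i, Ideal.subset_span (Set.mem_insert_of_mem _ ⟨i, rfl⟩)⟩
  · intro r
    refine ⟨r, ?_⟩
    have : (⟨algebraMap F E r, algebraMap_mem _ r⟩ : D.R) = algebraMap F D.R r := rfl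
    rw [this, sub_self]
    exact Ideal.zero_mem _
  · rintro x y hx hy ⟨r, hr⟩ ⟨t, ht⟩
    refine ⟨r + t, ?_⟩
    have := Ideal.add_mem _ hr ht
    convert this using 1
    rw [map_add]
    have e : (⟨x + y, add_mem hx hy⟩ : D.R) = ⟨x, hx⟩ + ⟨y, hy⟩ := rfl
    rw [e]
    ring
  · rintro x y hx hy ⟨r, hr⟩ ⟨t, ht⟩
    refine ⟨r * t, ?_⟩
    have := Ideal.add_mem _ (Ideal.mul_mem_right (⟨y, hy⟩ : D.R) _ hr)
      (Ideal.mul_mem_left _ (algebraMap F D.R r) ht)
    convert this using 1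
    rw [map_mul]
    have e : (⟨x * y, mul_mem hx hy⟩ : D.R) = ⟨x, hx⟩ * ⟨y, hy⟩ := rfl
    rw [e]
    ring

theorem codim_pt {c : F} {a : ι → F} (h : D.IsPt c a) : codim F (D.pt c a) = 1 := by
  obtain ⟨ψ, h0, h1, h2⟩ := D.lift (RingHom.id F) c a fun i => by rw [h i, eval₂_id]
  have hle : D.pt c a ≤ RingHom.ker ψ := by
    refine Ideal.span_le.2 ?_
    rintro _ (rfl | ⟨i, rfl⟩)
    · simp [RingHom.mem_ker, h0, h1]
    · simp [RingHom.mem_ker, h0, h2]
  have hne : D.pt c a ≠ ⊤ := fun e => by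
    have : (1 : D.R) ∈ RingHom.ker ψ := hle (e ▸ Submodule.mem_top)
    simp [RingHom.mem_ker] at this
  have : Nontrivial (D.R ⧸ D.pt c a) := Ideal.Quotient.nontrivial_iff.2 hne
  have hb : Function.Bijective (algebraMap F (D.R ⧸ D.pt c a)) := by
    refine ⟨(algebraMap F _).injective, fun y => ?_⟩
    obtain ⟨x, rfl⟩ := Ideal.Quotient.mk_surjective y
    obtain ⟨r, hr⟩ := D.codimD_const c a x
    exact ⟨r, (Ideal.Quotient.eq.2 hr).symm⟩
  unfold codim
  rw [← (LinearEquiv.ofBijective (Algebra.linearMap F (D.R ⧸ D.pt c a)) hb).finrank_eq,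
    Module.finrank_self]

omit [CharZero F] in
theorem pt_ne_bot (c : F) (a : ι → F) : D.pt c a ≠ ⊥ := by
  intro e
  have h1 : D.sR - algebraMap F D.R c ∈ D.pt c a := Ideal.subset_span (Set.mem_insert _ _)
  rw [e, Ideal.mem_bot] at h1
  refine D.aeval_ne_zero (X_sub_C_ne_zero c) ?_
  simpa using h1

theorem eq_pt {I : Ideal D.R} (h : codim F I = 1) : ∃ c a, D.IsPt c a ∧ I = D.pt c a := by
  unfold codim at h
  have : Nontrivial (D.R ⧸ I) := Module.nontrivial_of_finrank_eq_succ h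
  have hs : ∀ y : D.R ⧸ I, ∃ r : F, algebraMap F (D.R ⧸ I) r = y := fun y => by
    obtain ⟨r, hr⟩ := (finrank_eq_one_iff_of_nonzero' (1 : D.R ⧸ I) one_ne_zero).1 h y
    exact ⟨r, by rw [Algebra.algebraMap_eq_smul_one, hr]⟩
  obtain ⟨c, hc⟩ := hs (Ideal.Quotient.mk I D.sR)
  choose a ha using fun i => hs (Ideal.Quotient.mk I (D.yR i))
  have hp : D.IsPt c a := fun i => by
    apply (algebraMap F (D.R ⧸ I)).injective
    rw [map_pow, ha, ← map_pow, D.sqR, ← coe_aeval_eq_eval,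
      ← Ideal.Quotient.mkₐ_eq_mk F I, ← aeval_algHom_apply, Ideal.Quotient.mkₐ_eq_mk, ← hc,
      aeval_algebraMap_apply]
  refine ⟨c, a, hp, ?_⟩
  have := D.finite_quot (D.pt_ne_bot c a)
  refine (eq_of_codim_le (F := F) ?_ ?_).symm
  · refine Ideal.span_le.2 ?_
    rintro _ (rfl | ⟨i, rfl⟩)
    · exact Ideal.Quotient.eq.1 hc.symm
    · exact Ideal.Quotient.eq.1 (ha i).symm
  · rw [D.codim_pt hp]
    exact h.ge

theorem codimD_zero {β : Type} [Fintype β] {g : β → Finset ι} (hg : Function.Injective g)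
    {p : β → F[X]} (h : ∑ b, aeval D.s (p b) * ∏ i ∈ g b, D.y i = 0) (b : β) : p b = 0 := by
  classical
  have h1 := D.coeff_zero (c := fun U => ∑ b with g b = U, p b) (by
    rw [← h, ← Finset.sum_fiberwise Finset.univ g]
    refine Finset.sum_congr rfl fun U _ => ?_
    rw [map_sum, Finset.sum_mul]
    refine Finset.sum_congr rfl fun b hb => ?_
    rw [(Finset.mem_filter.1 hb).2]) (g b)
  rw [Finset.sum_eq_single_of_mem b (by simp) fun b' hb' hne =>
    absurd (hg (Finset.mem_filter.1 hb').2) hne] at h1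
  exact h1

omit [CharZero F] in
theorem codimD_inc {κ : Type} [Fintype κ] (e : κ ↪ ι) (z : (D.res e).R) :
    D.R.val (D.inc e z) = z := by
  rw [Dat.inc, codimD_val]

omit [CharZero F] in
theorem codimD_yR (i : ι) : D.R.val (D.yR i) = D.y i := rfl

omit [CharZero F] in
theorem codimD_coe {κ μ : Type} [Fintype κ] [Fintype μ] (e : κ ↪ ι) (u : μ → ι)
    (c : Finset μ → (D.res e).R) :
    D.R.val (∑ S, D.inc e (c S) * ∏ i ∈ S, D.yR (u i)) =
      ∑ S, (c S : E) * ∏ i ∈ S, D.y (u i) := by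
  simp only [map_sum, map_mul, map_prod, codimD_inc, codimD_yR]

omit [CharZero F] in
theorem codimD_span {κ μ : Type} [Fintype κ] [Fintype μ] (e : κ ↪ ι) (u : μ → ι)
    (hu : ∀ i, i ∈ Set.range e ∨ i ∈ Set.range u) (x : D.R) :
    ∃ c : Finset μ → (D.res e).R, x = ∑ S, D.inc e (c S) * ∏ i ∈ S, D.yR (u i) := by
  have h1 : D.R ≤ (Algebra.adjoin (D.res e).R
      (Set.range fun i : μ => D.y (u i))).restrictScalars F := by
    refine Algebra.adjoin_le ?_
    rintro _ (rfl | ⟨i, rfl⟩)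
    · exact algebraMap_mem (Algebra.adjoin (D.res e).R _) (D.res e).sR
    · rcases hu i with ⟨j, rfl⟩ | ⟨j, rfl⟩
      · exact algebraMap_mem (Algebra.adjoin (D.res e).R _) ((D.res e).yR j)
      · exact Algebra.subset_adjoin (R := (D.res e).R) ⟨j, rfl⟩
  obtain ⟨c, hc⟩ := mq_mem (q := fun i : μ => aeval (D.res e).sR (D.q (u i)))
    (fun i => by rw [D.sq, ← aeval_algebraMap_apply]; rfl) (h1 x.2)
  exact ⟨c, Subtype.ext (hc.trans (D.codimD_coe e u c).symm)⟩

theorem codimD_ind {κ μ : Type} [Fintype κ] [Fintype μ] (e : κ ↪ ι) (u : μ ↪ ι)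
    (hu : ∀ i j, u i ≠ e j) (c : Finset μ → (D.res e).R)
    (hc : ∑ S, D.inc e (c S) * ∏ i ∈ S, D.yR (u i) = 0) (S : Finset μ) : c S = 0 := by
  classical
  have h1 : ∑ S, (c S : E) * ∏ i ∈ S, D.y (u i) = 0 := by
    rw [← D.codimD_coe, hc, map_zero]
  choose p hp using fun S => (D.res e).mem_iff.1 (c S).2
  have m1 : ∀ (S : Finset μ) (T : Finset κ) (i : μ), u i ∈ S.map u ∪ T.map e ↔ i ∈ S :=
    fun S T i => by simp [fun j => (hu i j).symm]
  have m2 : ∀ (S : Finset μ) (T : Finset κ) (j : κ), e j ∈ S.map u ∪ T.map e ↔ j ∈ T :=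
    fun S T j => by simp [hu]
  have hg : Function.Injective fun b : Finset μ × Finset κ => b.1.map u ∪ b.2.map e := by
    intro b b' h
    have h' : b.1.map u ∪ b.2.map e = b'.1.map u ∪ b'.2.map e := h
    exact Prod.ext (Finset.ext fun i => by rw [← m1 b.1 b.2, ← m1 b'.1 b'.2, h'])
      (Finset.ext fun j => by rw [← m2 b.1 b.2, ← m2 b'.1 b'.2, h'])
  have h2 : ∀ T, p S T = 0 := fun T =>
    D.codimD_zero hg (p := fun b => p b.1 b.2) (by
      rw [← h1, Fintype.sum_prod_type]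
      refine Finset.sum_congr rfl fun S _ => ?_
      rw [hp S, Finset.sum_mul]
      refine Finset.sum_congr rfl fun T _ => ?_
      have hd : Disjoint (S.map u) (T.map e) := by
        rw [Finset.disjoint_left]
        intro i hi hi'
        obtain ⟨j, _, rfl⟩ := Finset.mem_map.1 hi
        obtain ⟨k, _, hk⟩ := Finset.mem_map.1 hi'
        exact hu j k hk.symm
      rw [Finset.prod_union hd, Finset.prod_map, Finset.prod_map, mul_assoc,
        mul_comm (∏ i ∈ S, _)]
      rfl) (S, T)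
  refine Subtype.ext ?_
  rw [hp S]
  simp [h2]

/-- The ring is free over the coordinate ring of a part of the equations. -/
theorem codim_inc {κ : Type} [Fintype κ] (e : κ ↪ ι) (I : Ideal (D.res e).R) :
    codim F (I.map (D.inc e)) = 2 ^ (Fintype.card ι - Fintype.card κ) * codim F I := by
  classical
  have hμ : Fintype.card {i : ι // i ∉ Set.range e} = Fintype.card ι - Fintype.card κ := by
    rw [Fintype.card_subtype_compl, Set.card_range_of_injective e.injective]
  rw [← hμ, ← Fintype.card_finset]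
  let u : {i : ι // i ∉ Set.range e} ↪ ι := Function.Embedding.subtype _
  refine codimD_free (D.inc e) _ (D.codimD_span e u fun i => ?_)
    (D.codimD_ind e u fun i j h => i.2 ⟨j, h.symm⟩) I
  by_cases hi : i ∈ Set.range e
  · exact Or.inl hi
  · exact Or.inr ⟨⟨i, hi⟩, rfl⟩

end Dat

end Pool.Agent.MP_e6b751_nt
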