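import Pool.Agent.MP_e6b751_nt.CoreA

namespace Pool.Agent.MP_e6b751_nt.Dat.Inf

open Polynomial

variable {K Ω : Type} [Field K] [CharZero K] [Field Ω] [Algebra K Ω] [Algebra K (LS Ω)]
  [IsScalarTower K Ω (LS Ω)] {D : Dat K (LS Ω) I10} {η : I10 → Ω}

omit [CharZero K] in
/-- The tensor product estimate for the product of five extended ideals. -/
theorem core_tens (h : D.Inf η) (L : ∀ σ, Ideal (D.res (emb σ)).R) (m : Fin 5 → ℤ)
    (hm : ∀ σ, ∀ x ∈ L σ, Le (m σ - 1) (x : LS Ω) → x = 0) {α : D.R}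
    (hα : α ∈ ∏ σ, D.ext σ (L σ)) :
    (Le ((∑ σ, m σ) - 1) (α : LS Ω) → α = 0) ∧ ∀ β : Fin 5 → LS Ω,
      (∀ σ, ∀ x ∈ L σ, Le (m σ) (x : LS Ω) → (x : LS Ω) ∈ Submodule.span K {β σ}) →
        Le (∑ σ, m σ) (α : LS Ω) → (α : LS Ω) ∈ Submodule.span K {∏ σ, β σ} := by
  classical
  have T := tens_prod (K := K)
    (fun T => IntermediateField.adjoin K (η '' ((T ×ˢ Finset.univ : Finset I10) : Set I10)))
    (fun T T' hT => IntermediateField.adjoin.mono _ _ _ (Set.image_mono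
      (Finset.coe_subset.2 (Finset.product_subset_product_left hT))))
    (fun T => Module.finite_of_finrank_pos (by
      rw [mq_finrank h.sq h.ind]
      positivity))
    (fun T j hj => mq_disjoint h.sq h.ind (by
      rw [Finset.disjoint_product]
      exact Or.inl (Finset.disjoint_singleton_right.2 hj)))
    (fun σ => ((L σ).restrictScalars K).map (D.res (emb σ)).R.val.toLinearMap)
    (by
      rintro σ _ ⟨y, -, rfl⟩
      have e : η '' ((({σ} : Finset (Fin 5)) ×ˢ Finset.univ : Finset I10) : Set I10) =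
          Set.range fun i => η (emb σ i) := by
        ext z
        constructor
        · rintro ⟨⟨a, i⟩, hp, rfl⟩
          have : σ = a := by simpa using hp
          subst this
          exact ⟨i, rfl⟩
        · rintro ⟨i, rfl⟩
          exact ⟨(σ, i), by simp, rfl⟩
      rw [e]
      exact (h.res (emb σ)).inCo y.2)
    (by
      rintro σ _ ⟨y, hy, rfl⟩
      refine ⟨(D.res (emb σ)).sR * y, (L σ).mul_mem_left _ hy, ?_⟩
      rw [← h.hs]
      rfl)
    m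
    (by
      rintro σ _ ⟨y, hy, rfl⟩ hle
      rw [hm σ y hy hle]
      rfl)
  have hx := D.mem_prod L hα
  refine ⟨fun hle => Subtype.ext (T.1 _ hx hle), fun β hβ hle => T.2 β ?_ _ hx hle⟩
  rintro σ _ ⟨y, hy, rfl⟩ hy'
  exact hβ σ y hy hy'

omit [CharZero K] [Algebra K Ω] [IsScalarTower K Ω (LS Ω)] in
theorem core_ext_mul (σ : Fin 5) (I J : Ideal (D.res (emb σ)).R) :
    D.ext σ (I * J) = D.ext σ I * D.ext σ J := Ideal.map_mul _ _ _

omit [CharZero K] [Algebra K Ω] [IsScalarTower K Ω (LS Ω)] in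
theorem core_span_prod {β : ∀ σ, (D.res (emb σ)).R} {L J : ∀ σ, Ideal (D.res (emb σ)).R}
    (hβ : ∀ σ, Ideal.span {β σ} = L σ * J σ) :
    Ideal.span {∏ σ, D.inc (emb σ) (β σ)} = (∏ σ, D.ext σ (L σ)) * ∏ σ, D.ext σ (J σ) := by
  rw [← Ideal.prod_span_singleton, ← Finset.prod_mul_distrib]
  refine Finset.prod_congr rfl fun σ _ => ?_
  rw [← core_ext_mul, ← hβ σ, Dat.ext, Ideal.map_span, Set.image_singleton]

omit [Algebra K Ω] [IsScalarTower K Ω (LS Ω)] in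
theorem core_codim_prod {L : ∀ σ, Ideal (D.res (emb σ)).R} (hL : ∀ σ, L σ ≠ ⊥) :
    codim K (∏ σ, D.ext σ (L σ)) = 256 * ∑ σ, codim K (L σ) := by
  have := D.dedekind
  rw [codim_prod (fun I hI => D.finite_quot hI) _ fun σ _ => D.ext_ne_bot σ (hL σ),
    Finset.mul_sum]
  exact Finset.sum_congr rfl fun σ _ => D.codim_ext σ _

omit [CharZero K] [Algebra K Ω] [IsScalarTower K Ω (LS Ω)] in
theorem core_prod_ne {L : ∀ σ, Ideal (D.res (emb σ)).R} (hL : ∀ σ, L σ ≠ ⊥) :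
    ∏ σ, D.ext σ (L σ) ≠ ⊥ :=
  Finset.prod_ne_zero_iff.2 fun σ _ => D.ext_ne_bot σ (hL σ)

/-- The degree formula. -/
theorem degree_formula (h : D.Inf η) {I : Ideal D.R} {α : D.R} (hα : α ≠ 0)
    {L : ∀ σ, Ideal (D.res (emb σ)).R} (hL : ∀ σ, L σ ≠ ⊥)
    (e : I * ∏ σ, D.ext σ (L σ) = Ideal.span {α}) :
    ∃ (t : ℕ) (n : Fin 5 → ℕ), codim K I = 1024 * t + 256 * ∑ σ, n σ ∧ (∀ σ, n σ ≤ 4) ∧
      (∀ σ, 4 ∣ codim K (L σ) + n σ) ∧ (t = 0 → (∀ σ, n σ = 1) → ¬I.IsPrime) := by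
  have := D.dedekind
  choose β m J hβ0 hβ hdg hc hJ4 hmin hone using fun σ => (h.res (emb σ)).reduced (hL σ)
  have hαm : α ∈ ∏ σ, D.ext σ (L σ) :=
    Ideal.mul_le_right (I := I) (by rw [e]; exact Ideal.mem_span_singleton_self α)
  obtain ⟨T₁, T₂⟩ := core_tens h L (fun σ => m σ) hmin hαm
  have hα' : (α : LS Ω) ≠ 0 := fun h0 => hα (Subtype.ext h0)
  have hge : (∑ σ, (m σ : ℤ)) ≤ dg (α : LS Ω) := by
    by_contra hlt
    exact hα (T₁ ((le_iff_dg hα').2 (by omega)))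
  obtain ⟨t, ht⟩ : ∃ t : ℕ, dg (α : LS Ω) = (∑ σ, (m σ : ℤ)) + t :=
    ⟨(dg (α : LS Ω) - ∑ σ, (m σ : ℤ)).toNat, by omega⟩
  have hI : I ≠ ⊥ := by
    rintro rfl
    rw [Ideal.bot_mul, eq_comm, Ideal.span_singleton_eq_bot] at e
    exact hα e
  have c₁ := h.codim_span hα
  rw [← e, codim_mul (fun I hI => D.finite_quot hI) hI (core_prod_ne hL), core_codim_prod hL, ht,
    ← Nat.cast_sum] at c₁
  have c₂ : (∑ σ, codim K (L σ)) + ∑ σ, codim K (J σ) = 4 * ∑ σ, m σ := by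
    rw [← Finset.sum_add_distrib, Finset.mul_sum]
    exact Finset.sum_congr rfl fun σ _ => hc σ
  have c₃ : (2 : ℤ) ^ Fintype.card I10 = 1024 := by
    rw [show Fintype.card I10 = 10 by simp]
    norm_num
  rw [c₃] at c₁
  have c₄ : codim K I = 1024 * t + 256 * ∑ σ, codim K (J σ) := by omega
  refine ⟨t, fun σ => codim K (J σ), c₄, hJ4, fun σ => ⟨m σ, hc σ⟩, ?_⟩
  intro ht0 hn hp
  replace hn : ∀ σ, codim K (J σ) = 1 := hn
  have hJ : ∀ σ, J σ ≠ ⊥ := by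
    intro σ h0
    have := hβ σ
    rw [h0, Ideal.mul_bot, Ideal.span_singleton_eq_bot] at this
    exact hβ0 σ this
  have hsp := T₂ (fun σ => (β σ : LS Ω)) (fun σ => hone σ (hn σ))
    ((le_iff_dg hα').2 (by rw [ht, ht0]; simp))
  obtain ⟨c, hcα⟩ := Submodule.mem_span_singleton.1 hsp
  have hc0 : c ≠ 0 := by
    rintro rfl
    rw [zero_smul] at hcα
    exact hα' hcα.symm
  have hαe : α = algebraMap K D.R c * ∏ σ, D.inc (emb σ) (β σ) := by
    apply Subtype.ext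
    rw [← hcα, Algebra.smul_def, MulMemClass.coe_mul, SubmonoidClass.coe_finsetProd]
    rfl
  have hu : IsUnit (algebraMap K D.R c) := (IsUnit.mk0 c hc0).map _
  rw [hαe, Ideal.span_singleton_mul_left_unit hu, core_span_prod hβ, mul_comm] at e
  have hIe : I = ∏ σ, D.ext σ (J σ) := mul_left_cancel₀ (core_prod_ne hL) e
  obtain ⟨σ, -, hσ⟩ := (Ideal.IsPrime.prod_le hp).1 hIe.ge
  have := D.finite_quot (D.ext_ne_bot σ (hJ σ))
  have c₅ := codim_anti (F := K) hσ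
  rw [D.codim_ext, hn σ, c₄, ht0] at c₅
  simp [hn] at c₅

end Pool.Agent.MP_e6b751_nt.Dat.Inf
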