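import Pool.Agent.MP_e6b751_nt.Core

namespace Pool.Agent.MP_e6b751_nt.Dat.Inf

open Polynomial

variable {K Ω : Type} [Field K] [CharZero K] [Field Ω] [Algebra K Ω] [Algebra K (LS Ω)]
  [IsScalarTower K Ω (LS Ω)] {D : Dat K (LS Ω) I10} {η : I10 → Ω}

/-- The degrees modulo four are determined by the class. -/
theorem unique_mod (h : D.Inf η) {I : Ideal D.R} {α α' : D.R} (hα : α ≠ 0) (hα' : α' ≠ 0)
    {L L' : ∀ σ, Ideal (D.res (emb σ)).R} (hL : ∀ σ, L σ ≠ ⊥) (hL' : ∀ σ, L' σ ≠ ⊥)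
    (e : I * ∏ σ, D.ext σ (L σ) = Ideal.span {α}) (e' : I * ∏ σ, D.ext σ (L' σ) = Ideal.span {α'})
    (σ : Fin 5) : codim K (L σ) ≡ codim K (L' σ) [MOD 4] := by
  have := D.dedekind
  choose β m J hβ0 hβ hdg hc hJ4 hmin hone using fun σ => (h.res (emb σ)).reduced (hL' σ)
  have hJ : ∀ σ, J σ ≠ ⊥ := by
    intro σ h0
    have := hβ σ
    rw [h0, Ideal.mul_bot, Ideal.span_singleton_eq_bot] at this
    exact hβ0 σ this
  have hLJ : ∀ σ, L σ * J σ ≠ ⊥ := fun σ => mul_ne_zero (hL σ) (hJ σ)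
  have e₁ : Ideal.span {α'} * ∏ σ, D.ext σ (L σ * J σ) =
      Ideal.span {α * ∏ σ, D.inc (emb σ) (β σ)} := by
    rw [← Ideal.span_singleton_mul_span_singleton, core_span_prod hβ, ← e, ← e']
    simp_rw [core_ext_mul]
    rw [Finset.prod_mul_distrib]
    ring
  obtain ⟨γ, hγ⟩ : α' ∣ α * ∏ σ, D.inc (emb σ) (β σ) := by
    rw [← Ideal.span_singleton_le_span_singleton, ← e₁]
    exact Ideal.mul_le_left
  have hs : Ideal.span {α'} ≠ ⊥ := fun h0 => hα' (Ideal.span_singleton_eq_bot.1 h0)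
  rw [hγ, ← Ideal.span_singleton_mul_span_singleton] at e₁
  have e₂ : ∏ σ, D.ext σ (L σ * J σ) = Ideal.span {γ} := mul_left_cancel₀ hs e₁
  have hγ0 : γ ≠ 0 := by
    rintro rfl
    exact core_prod_ne hLJ (e₂.trans (Ideal.span_singleton_eq_bot.2 rfl))
  obtain ⟨t, n, c₁, -, c₂, -⟩ := h.degree_formula (I := ⊤) hγ0 hLJ (by rw [Ideal.top_mul, e₂])
  rw [codim_top] at c₁
  have c₃ : n σ ≤ ∑ σ, n σ :=
    Finset.single_le_sum (f := n) (fun _ _ => Nat.zero_le _) (Finset.mem_univ σ)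
  have c₄ := c₂ σ
  have := (D.res (emb σ)).dedekind
  rw [codim_mul (fun I hI => (D.res (emb σ)).finite_quot hI) (hL σ) (hJ σ)] at c₄
  have c₅ := hc σ
  unfold Nat.ModEq
  omega

theorem core_dvd (h : D.Inf η) {I : Ideal D.R} (hI : Good (D.Pt D.R.val.toRingHom) I) :
    256 ∣ codim K I := by
  obtain ⟨α, L, hα, hL, e⟩ := D.decomp hI
  obtain ⟨t, n, c₁, -⟩ := h.degree_formula hα hL e
  exact ⟨4 * t + ∑ σ, n σ, by rw [c₁]; ring⟩

theorem core_ne (h : D.Inf η) {I : Ideal D.R} (hI : Good (D.Pt D.R.val.toRingHom) I)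
    (hp : I.IsPrime) (g : K ≃+* K) (ψ : D.R ≃+* D.R)
    (h₀ : ∀ a, ψ (algebraMap K D.R a) = algebraMap K D.R (g a)) (h₁ : ψ D.sR = D.sR)
    (h₂ : ∀ σ i, ψ (D.yR (σ, i)) = D.yR (piP σ, i)) (hψ : I.map ψ = I) :
    codim K I ≠ 256 ∧ codim K I ≠ 1280 := by
  obtain ⟨α, L, hα, hL, e⟩ := D.decomp hI
  have key : ∀ t σ, piP σ = t → ∃ I' : Ideal (D.res (emb t)).R, I' ≠ ⊥ ∧
      codim K I' = codim K (L σ) ∧ (D.ext σ (L σ)).map ψ = D.ext t I' := by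
    rintro _ σ rfl
    exact D.exists_res_equiv piP g ψ h₀ h₁ h₂ σ (L σ) (hL σ)
  choose L' hL' c₀ hm using fun t => key t (piP.symm t) (piP.apply_symm_apply t)
  have e' : I * ∏ σ, D.ext σ (L' σ) = Ideal.span {ψ α} := by
    have e₁ := congrArg (Ideal.mapHom ψ) e
    rw [map_mul, map_prod, ← Equiv.prod_comp piP.symm] at e₁
    simp only [Ideal.mapHom_apply] at e₁
    rw [hψ, Ideal.map_span, Set.image_singleton] at e₁
    rw [← e₁]
    exact congrArg _ (Finset.prod_congr rfl fun t _ => (hm t).symm)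
  have hα' : ψ α ≠ 0 := fun h0 => hα (ψ.injective (h0.trans (map_zero ψ).symm))
  have u : ∀ t, codim K (L t) % 4 = codim K (L (piP.symm t)) % 4 := fun t => by
    rw [← c₀ t]
    exact h.unique_mod hα hα' hL hL' e e' t
  have u₀ : codim K (L 0) % 4 = codim K (L 1) % 4 := u 0
  have u₂ : codim K (L 2) % 4 = codim K (L 4) % 4 := u 2
  have u₃ : codim K (L 3) % 4 = codim K (L 2) % 4 := u 3
  obtain ⟨t, n, c₁, c₂, c₃, c₄⟩ := h.degree_formula hα hL e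
  rw [Fin.sum_univ_five] at c₁
  have d₀ := c₃ 0
  have d₁ := c₃ 1
  have d₂ := c₃ 2
  have d₃ := c₃ 3
  have d₄ := c₃ 4
  have v₀ : n 0 % 4 = n 1 % 4 := by omega
  have v₂ : n 2 % 4 = n 4 % 4 := by omega
  have v₃ : n 3 % 4 = n 2 % 4 := by omega
  clear u₀ u₂ u₃ d₀ d₁ d₂ d₃ d₄
  refine ⟨by omega, fun h5 => ?_⟩
  have w : t = 0 ∧ n 0 = 1 ∧ n 1 = 1 ∧ n 2 = 1 ∧ n 3 = 1 ∧ n 4 = 1 := by omega
  obtain ⟨w, w₀, w₁, w₂, w₃, w₄⟩ := w
  refine c₄ w (fun σ => ?_) hp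
  fin_cases σ
  exacts [w₀, w₁, w₂, w₃, w₄]

end Pool.Agent.MP_e6b751_nt.Dat.Inf
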