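import Pool.Agent.MP_e6b751_nt.InfA

namespace Pool.Agent.MP_e6b751_nt.Dat

open Polynomial

section

variable {K E : Type} [Field K] [CharZero K] [Field E] [Algebra K E] (D : Dat K E I10)

theorem codim_ext (σ : Fin 5) (I : Ideal (D.res (emb σ)).R) :
    codim K (D.ext σ I) = 256 * codim K I := by
  have h := D.codim_inc (emb σ) I
  simp only [Fintype.card_prod, Fintype.card_fin] at h
  exact h

omit [CharZero K] in
theorem coreA_inj (σ : Fin 5) : Function.Injective (D.inc (emb σ)) :=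
  Subalgebra.inclusion_injective _

omit [CharZero K] in
theorem ext_ne_bot (σ : Fin 5) {I : Ideal (D.res (emb σ)).R} (hI : I ≠ ⊥) : D.ext σ I ≠ ⊥ :=
  fun h => hI ((Ideal.map_eq_bot_iff_of_injective (D.coreA_inj σ)).1 h)

omit [CharZero K] in
theorem Pt_map {S S' : Type} [CommRing S] [CommRing S'] {j : S →+* E} {j' : S' →+* E}
    (f : S →+* S') (hf : ∀ x, j' (f x) = j x) {I : Ideal S} (hI : I ∈ D.Pt j) :
    I.map f ∈ D.Pt j' := by
  obtain ⟨σ, c, a, hp, g, z, hg, hz, rfl⟩ := hI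
  refine ⟨σ, c, a, hp, f g, fun i => f (z i), by rw [hf, hg], fun i => by rw [hf, hz], ?_⟩
  rw [Ideal.map_span, Set.image_insert_eq, ← Set.range_comp]
  rfl

omit [CharZero K] in
theorem Pt_ne_bot {S : Type} [CommRing S] {j : S →+* E} {I : Ideal S} (hI : I ∈ D.Pt j) :
    I ≠ ⊥ := by
  obtain ⟨σ, c, a, -, g, z, hg, -, rfl⟩ := hI
  intro h
  have h0 : g = 0 := by
    rw [← Ideal.mem_bot, ← h]
    exact Ideal.subset_span (Set.mem_insert _ _)
  rw [h0, map_zero, eq_comm, sub_eq_zero] at hg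
  exact D.tr (hg ▸ isAlgebraic_algebraMap c)

omit [CharZero K] in
theorem Pt_eq {I : Ideal D.R} (hI : I ∈ D.Pt D.R.val.toRingHom) :
    ∃ σ c a, (D.res (emb σ)).IsPt c a ∧ I = D.ext σ ((D.res (emb σ)).pt c a) := by
  obtain ⟨σ, c, a, hp, g, z, hg, hz, rfl⟩ := hI
  refine ⟨σ, c, a, hp, ?_⟩
  unfold Dat.ext Dat.pt
  rw [Ideal.map_span, Set.image_insert_eq, ← Set.range_comp]
  have e1 : g = D.inc (emb σ) ((D.res (emb σ)).sR - algebraMap K _ c) := Subtype.ext hg
  have e2 : z = D.inc (emb σ) ∘ fun i => (D.res (emb σ)).yR i - algebraMap K _ (a i) :=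
    funext fun i => Subtype.ext (hz i)
  rw [← e1, ← e2]

omit [CharZero K] in
theorem coreA_mul (σ : Fin 5) (I J : Ideal (D.res (emb σ)).R) :
    D.ext σ (I * J) = D.ext σ I * D.ext σ J := Ideal.map_mul _ _ _

omit [CharZero K] in
theorem coreA_top (σ : Fin 5) : D.ext σ ⊤ = 1 := by
  rw [Ideal.one_eq_top]
  exact Ideal.map_top _

theorem coreA_compl (σ : Fin 5) {L : Ideal (D.res (emb σ)).R} (hL : L ≠ ⊥) :
    ∃ (β : D.R) (L' : Ideal (D.res (emb σ)).R), β ≠ 0 ∧ L' ≠ ⊥ ∧
      D.ext σ L * D.ext σ L' = Ideal.span {β} := by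
  have := (D.res (emb σ)).dedekind
  obtain ⟨β, hβ, h0⟩ := Submodule.exists_mem_ne_zero_of_ne_bot hL
  obtain ⟨L', hL'⟩ := Ideal.dvd_iff_le.2 ((Ideal.span_singleton_le_iff_mem L).2 hβ)
  refine ⟨D.inc (emb σ) β, L', fun h => h0 (D.coreA_inj σ (by rw [h, map_zero])), ?_, ?_⟩
  · rintro rfl
    rw [Ideal.mul_bot, Ideal.span_singleton_eq_bot] at hL'
    exact h0 hL'
  · rw [← coreA_mul, ← hL']
    unfold Dat.ext
    rw [Ideal.map_span, Set.image_singleton]

theorem coreA_decomp {I : Ideal D.R} (h : Good (D.Pt D.R.val.toRingHom) I) :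
    ∃ (a b : D.R) (L : ∀ σ, Ideal (D.res (emb σ)).R), a ≠ 0 ∧ b ≠ 0 ∧ (∀ σ, L σ ≠ ⊥) ∧
      Ideal.span {a} * (I * ∏ σ, D.ext σ (L σ)) = Ideal.span {b} := by
  classical
  induction h with
  | prin a ha =>
    refine ⟨1, a, fun _ => ⊤, one_ne_zero, ha, fun _ => top_ne_bot, ?_⟩
    simp only [coreA_top, Finset.prod_const_one, mul_one, Ideal.span_singleton_one, Ideal.top_mul]
  | pt I hI =>
    obtain ⟨σ, c, a, -, rfl⟩ := D.Pt_eq hI
    obtain ⟨β, L', hβ, hL', e⟩ := D.coreA_compl σ ((D.res (emb σ)).pt_ne_bot c a)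
    refine ⟨1, β, Function.update (fun _ => ⊤) σ L', one_ne_zero, hβ, fun τ => ?_, ?_⟩
    · by_cases hτ : τ = σ
      · subst hτ
        rwa [Function.update_self]
      · rw [Function.update_of_ne hτ]
        exact top_ne_bot
    · rw [Finset.prod_eq_single σ, Function.update_self, e, Ideal.span_singleton_one, Ideal.top_mul]
      · intro τ _ hτ
        rw [Function.update_of_ne hτ, coreA_top]
      · exact fun h => absurd (Finset.mem_univ _) h
  | mul I J _ _ hI hJ =>
    obtain ⟨a, b, L, ha, hb, hL, e⟩ := hI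
    obtain ⟨a', b', L', ha', hb', hL', e'⟩ := hJ
    refine ⟨a * a', b * b', fun σ => L σ * L' σ, mul_ne_zero ha ha', mul_ne_zero hb hb',
      fun σ h => ?_, ?_⟩
    · exact (Ideal.mul_eq_bot.1 h).elim (hL σ) (hL' σ)
    · simp only [coreA_mul]
      rw [Finset.prod_mul_distrib, ← Ideal.span_singleton_mul_span_singleton,
        ← Ideal.span_singleton_mul_span_singleton, ← e, ← e']
      ring
  | cancel I J _ _ hI hJ =>
    obtain ⟨a, b, L, ha, hb, hL, e⟩ := hI
    obtain ⟨a', b', L', ha', hb', hL', e'⟩ := hJ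
    choose β L'' hβ hL'' e'' using fun σ => D.coreA_compl σ (hL' σ)
    refine ⟨a * b', b * a' * ∏ σ, β σ, fun σ => L σ * L'' σ, mul_ne_zero ha hb',
      mul_ne_zero (mul_ne_zero hb ha') (Finset.prod_ne_zero_iff.2 fun σ _ => hβ σ),
      fun σ h => ?_, ?_⟩
    · exact (Ideal.mul_eq_bot.1 h).elim (hL σ) (hL'' σ)
    · simp only [coreA_mul]
      rw [Finset.prod_mul_distrib, ← Ideal.span_singleton_mul_span_singleton,
        ← Ideal.span_singleton_mul_span_singleton, ← Ideal.span_singleton_mul_span_singleton,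
        ← Ideal.prod_span_singleton, ← e, ← e']
      simp only [← e'']
      rw [Finset.prod_mul_distrib]
      ring

theorem decomp {I : Ideal D.R} (h : Good (D.Pt D.R.val.toRingHom) I) :
    ∃ (α : D.R) (L : ∀ σ, Ideal (D.res (emb σ)).R), α ≠ 0 ∧ (∀ σ, L σ ≠ ⊥) ∧
      I * ∏ σ, D.ext σ (L σ) = Ideal.span {α} := by
  obtain ⟨a, b, L, ha, hb, hL, e⟩ := D.coreA_decomp h
  have hm : b ∈ Ideal.span {a} := by
    refine Ideal.mul_le_left (J := I * ∏ σ, D.ext σ (L σ)) ?_
    rw [e]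
    exact Ideal.mem_span_singleton_self b
  obtain ⟨α, rfl⟩ := Ideal.mem_span_singleton.1 hm
  refine ⟨α, L, right_ne_zero_of_mul hb, hL, ?_⟩
  rw [← Ideal.span_singleton_mul_span_singleton] at e
  exact (Ideal.span_singleton_mul_right_inj ha).1 e

omit [CharZero K] in
theorem coreA_im (L : ∀ σ, Ideal (D.res (emb σ)).R) (t : Finset (Fin 5)) {x : D.R}
    (hx : x ∈ ∏ σ ∈ t, D.ext σ (L σ)) : (x : E) ∈ D.R.toSubmodule *
      ∏ σ ∈ t, ((L σ).restrictScalars K).map (D.res (emb σ)).R.val.toLinearMap := by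
  classical
  induction t using Finset.induction_on generalizing x with
  | empty =>
    rw [Finset.prod_empty, mul_one]
    exact x.2
  | insert σ t hσ ih =>
    rw [Finset.prod_insert hσ] at hx ⊢
    have h1 : ∀ u ∈ D.ext σ (L σ), (u : E) ∈ D.R.toSubmodule *
        ((L σ).restrictScalars K).map (D.res (emb σ)).R.val.toLinearMap := by
      intro u hu
      have h2 : ∀ r : D.R, ((r * u : D.R) : E) ∈ D.R.toSubmodule *
          ((L σ).restrictScalars K).map (D.res (emb σ)).R.val.toLinearMap := by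
        unfold Dat.ext Ideal.map at hu
        induction hu using Submodule.span_induction with
        | mem u hu =>
          obtain ⟨w, hw, rfl⟩ := hu
          exact fun r => Submodule.mul_mem_mul r.2 ⟨w, hw, rfl⟩
        | zero => intro r; rw [mul_zero]; exact Submodule.zero_mem _
        | add u w _ _ hu hw => intro r; rw [mul_add]; exact Submodule.add_mem _ (hu r) (hw r)
        | smul c u _ hu => intro r; rw [smul_eq_mul, ← mul_assoc]; exact hu _
      simpa using h2 1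
    induction hx using Submodule.mul_induction_on' with
    | mem_mul_mem u hu w hw =>
      have h3 := Submodule.mul_mem_mul (h1 u hu) (ih hw)
      rw [mul_mul_mul_comm, Subalgebra.mul_toSubmodule, sup_idem] at h3
      exact h3
    | add u _ w _ hu hw => exact Submodule.add_mem _ hu hw

omit [CharZero K] in
theorem coreA_stab (L : ∀ σ, Ideal (D.res (emb σ)).R) (τ : Fin 5) {z : E}
    (hz : z ∈ (D.res (emb τ)).R) {p : E}
    (hp : p ∈ ∏ σ, ((L σ).restrictScalars K).map (D.res (emb σ)).R.val.toLinearMap) :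
    z * p ∈ ∏ σ, ((L σ).restrictScalars K).map (D.res (emb σ)).R.val.toLinearMap := by
  classical
  rw [← Finset.mul_prod_erase _ _ (Finset.mem_univ τ)] at hp ⊢
  induction hp using Submodule.mul_induction_on' with
  | mem_mul_mem u hu w hw =>
    obtain ⟨v, hv, rfl⟩ := hu
    rw [← mul_assoc]
    exact Submodule.mul_mem_mul ⟨⟨z, hz⟩ * v, (L τ).mul_mem_left _ hv, rfl⟩ hw
  | add u _ w _ hu hw => rw [mul_add]; exact Submodule.add_mem _ hu hw

omit [CharZero K] in
/-- A product of extended ideals lies in the product of the ideals as vector spaces. -/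
theorem mem_prod (L : ∀ σ, Ideal (D.res (emb σ)).R) {x : D.R} (hx : x ∈ ∏ σ, D.ext σ (L σ)) :
    (x : E) ∈ ∏ σ, ((L σ).restrictScalars K).map (D.res (emb σ)).R.val.toLinearMap := by
  refine Submodule.mul_le.2 (fun r hr => ?_) (D.coreA_im L Finset.univ hx)
  change r ∈ Algebra.adjoin K (insert D.s (Set.range D.y)) at hr
  induction hr using Algebra.adjoin_induction with
  | mem r hr =>
    intro p hp
    rcases hr with rfl | ⟨⟨σ, i⟩, rfl⟩
    · exact D.coreA_stab L 0 (D.res (emb 0)).s_mem hp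
    · exact D.coreA_stab L σ ((D.res (emb σ)).y_mem i) hp
  | algebraMap c =>
    intro p hp
    rw [← Algebra.smul_def]
    exact Submodule.smul_mem _ _ hp
  | add u w _ _ hu hw =>
    intro p hp
    rw [add_mul]
    exact Submodule.add_mem _ (hu p hp) (hw p hp)
  | mul u w _ _ hu hw =>
    intro p hp
    rw [mul_assoc]
    exact hu _ (hw p hp)

/-- A semilinear automorphism that permutes the five curves. -/
theorem exists_res_equiv (π : Equiv.Perm (Fin 5)) (g : K ≃+* K) (ψ : D.R ≃+* D.R)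
    (h₀ : ∀ a, ψ (algebraMap K D.R a) = algebraMap K D.R (g a)) (h₁ : ψ D.sR = D.sR)
    (h₂ : ∀ σ i, ψ (D.yR (σ, i)) = D.yR (π σ, i)) (σ : Fin 5) (I : Ideal (D.res (emb σ)).R)
    (hI : I ≠ ⊥) : ∃ I' : Ideal (D.res (emb (π σ))).R, I' ≠ ⊥ ∧ codim K I' = codim K I ∧
      (D.ext σ I).map ψ = D.ext (π σ) I' := by
  let f₀ : (D.res (emb σ)).R →+* E :=
    (D.R.val.toRingHom.comp ψ.toRingHom).comp (D.inc (emb σ)).toRingHom
  have f₀c : ∀ a, f₀ (algebraMap K _ a) = algebraMap K E (g a) := fun a =>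
    congrArg Subtype.val (h₀ a)
  have f₀s : f₀ (D.res (emb σ)).sR = D.s := congrArg Subtype.val h₁
  have f₀y : ∀ i, f₀ ((D.res (emb σ)).yR i) = D.y (π σ, i) := fun i =>
    congrArg Subtype.val (h₂ σ i)
  have hmem : ∀ z, f₀ z ∈ (D.res (emb (π σ))).R := by
    rintro ⟨z, hz⟩
    induction hz using Algebra.adjoin_induction with
    | mem r hr =>
      rcases hr with rfl | ⟨i, rfl⟩
      · exact Set.mem_of_eq_of_mem f₀s (D.res (emb (π σ))).s_mem
      · exact (f₀y i) ▸ (D.res (emb (π σ))).y_mem i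
    | algebraMap c => exact (f₀c c) ▸ Subalgebra.algebraMap_mem _ _
    | add u w hu' hw' hu hw => exact (map_add f₀ ⟨u, hu'⟩ ⟨w, hw'⟩) ▸ add_mem hu hw
    | mul u w hu' hw' hu hw => exact (map_mul f₀ ⟨u, hu'⟩ ⟨w, hw'⟩) ▸ mul_mem hu hw
  let f : (D.res (emb σ)).R →+* (D.res (emb (π σ))).R := f₀.codRestrict _ hmem
  have finj : Function.Injective f := fun u w h => by
    have h' : f₀ u = f₀ w := congrArg (fun z : (D.res (emb (π σ))).R => (z : E)) h
    exact D.coreA_inj σ (ψ.injective (Subtype.ext h'))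
  have fsurj : Function.Surjective f := by
    rintro ⟨z, hz⟩
    induction hz using Algebra.adjoin_induction with
    | mem r hr =>
      rcases hr with rfl | ⟨i, rfl⟩
      · exact ⟨_, Subtype.ext f₀s⟩
      · exact ⟨_, Subtype.ext (f₀y i)⟩
    | algebraMap c =>
      exact ⟨algebraMap K _ (g.symm c), Subtype.ext ((f₀c _).trans (by rw [g.apply_symm_apply]))⟩
    | add u w _ _ hu hw =>
      obtain ⟨u', hu⟩ := hu
      obtain ⟨w', hw⟩ := hw
      exact ⟨u' + w', by rw [map_add, hu, hw]; rfl⟩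
    | mul u w _ _ hu hw =>
      obtain ⟨u', hu⟩ := hu
      obtain ⟨w', hw⟩ := hw
      exact ⟨u' * w', by rw [map_mul, hu, hw]; rfl⟩
  let e := RingEquiv.ofBijective f ⟨finj, fsurj⟩
  refine ⟨I.map e, fun h => hI ((Ideal.map_eq_bot_iff_of_injective e.injective).1 h),
    codim_map g e (fun a => Subtype.ext (f₀c a)) I, ?_⟩
  have hc : (ψ : D.R →+* D.R).comp (D.inc (emb σ) : (D.res (emb σ)).R →+* D.R) =
      (D.inc (emb (π σ)) : (D.res (emb (π σ))).R →+* D.R).comp
        (e : (D.res (emb σ)).R →+* (D.res (emb (π σ))).R) := RingHom.ext fun z => Subtype.ext rfl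
  have h3 := Ideal.map_map (I := I) (D.inc (emb σ) : (D.res (emb σ)).R →+* D.R) (ψ : D.R →+* D.R)
  rw [hc, ← Ideal.map_map] at h3
  exact h3

end

end Pool.Agent.MP_e6b751_nt.Dat
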