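import Pool.Agent.MP_e6b751_nt.MQ

namespace Pool.Agent.MP_e6b751_nt.Dat

open Polynomial

variable {F E ι : Type} [Field F] [CharZero F] [Field E] [Algebra F E] [Fintype ι] (D : Dat F E ι)

omit [CharZero F] in
theorem data_aeval_coe (g : F[X]) : ((aeval D.sR g : D.R) : E) = aeval D.s g :=
  (Polynomial.aeval_algHom_apply D.R.val D.sR g).symm

omit [CharZero F] in
theorem data_coe (c : Finset ι → F[X]) :
    ((∑ S, aeval D.sR (c S) * ∏ i ∈ S, D.yR i : D.R) : E) =
      ∑ S, aeval D.s (c S) * ∏ i ∈ S, D.y i := by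
  rw [AddSubmonoidClass.coe_finsetSum]
  refine Finset.sum_congr rfl fun S _ => ?_
  rw [MulMemClass.coe_mul, data_aeval_coe, SubmonoidClass.coe_finsetProd]
  rfl

omit [CharZero F] in
theorem mem_iff {x : E} :
    x ∈ D.R ↔ ∃ c : Finset ι → F[X], x = ∑ S, aeval D.s (c S) * ∏ i ∈ S, D.y i := by
  refine ⟨fun hx => mq_mem_poly D.sq hx, ?_⟩
  rintro ⟨c, rfl⟩
  rw [← data_coe]
  exact Subtype.mem _

omit [CharZero F] in
theorem data_mem (x : D.R) :
    ∃ c : Finset ι → F[X], x = ∑ S, aeval D.sR (c S) * ∏ i ∈ S, D.yR i := by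
  obtain ⟨c, hc⟩ := D.mem_iff.1 x.2
  exact ⟨c, Subtype.ext (by rw [data_coe]; exact hc)⟩

theorem coeff_zero {c : Finset ι → F[X]} (h : ∑ S, aeval D.s (c S) * ∏ i ∈ S, D.y i = 0)
    (S : Finset ι) : c S = 0 :=
  mq_indep_poly D.tr D.sq D.sep (fun i => by rw [D.deg i]; norm_num) h S

theorem ind : LinearIndependent F D.b := by
  let : Algebra F[X] E := (aeval D.s : F[X] →ₐ[F] E).toRingHom.toAlgebra
  have : IsScalarTower F F[X] E := IsScalarTower.of_algebraMap_eq fun a =>
    ((aeval D.s : F[X] →ₐ[F] E).commutes a).symm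
  have h1 : LinearIndependent F[X] fun S : Finset ι => ∏ i ∈ S, D.y i := by
    rw [Fintype.linearIndependent_iff]
    intro c hc
    exact D.coeff_zero hc
  have h2 := linearIndependent_smul (Polynomial.basisMonomials F).linearIndependent h1
  convert h2 using 2 with p
  show D.s ^ p.1 * _ = aeval D.s (Polynomial.basisMonomials F p.1) * _
  simp

omit [CharZero F] in
theorem span_b : Submodule.span F (Set.range D.b) = D.R.toSubmodule := by
  refine le_antisymm (Submodule.span_le.2 ?_) ?_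
  · rintro _ ⟨p, rfl⟩
    exact D.R.mul_mem (D.R.pow_mem D.s_mem _) (D.R.prod_mem fun i _ => D.y_mem i)
  · intro x hx
    obtain ⟨c, rfl⟩ := D.mem_iff.1 hx
    refine Submodule.sum_mem _ fun S _ => ?_
    rw [aeval_eq_sum_range, Finset.sum_mul]
    refine Submodule.sum_mem _ fun n _ => ?_
    rw [smul_mul_assoc]
    exact Submodule.smul_mem _ _ (Submodule.subset_span ⟨(n, S), rfl⟩)

omit [CharZero F] in
theorem sqR (i : ι) : D.yR i ^ 2 = aeval D.sR (D.q i) :=
  Subtype.ext (by rw [data_aeval_coe]; exact D.sq i)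

omit [CharZero F] in
theorem aeval_ne_zero {g : F[X]} (hg : g ≠ 0) : aeval D.sR g ≠ 0 := fun h =>
  D.tr ⟨g, hg, by rw [← data_aeval_coe, h]; rfl⟩

omit [CharZero F] in
theorem disc_ne_zero : D.disc ≠ 0 :=
  D.aeval_ne_zero D.sep.ne_zero

omit [CharZero F] in
theorem data_top : Algebra.adjoin F (insert D.sR (Set.range D.yR)) = ⊤ := by
  refine eq_top_iff.2 fun x _ => ?_
  obtain ⟨c, rfl⟩ := D.data_mem x
  refine Subalgebra.sum_mem _ fun S _ => Subalgebra.mul_mem _ ?_ (Subalgebra.prod_mem _ fun i _ =>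
    Algebra.subset_adjoin (Set.mem_insert_of_mem _ ⟨i, rfl⟩))
  exact Algebra.adjoin_mono (Set.singleton_subset_iff.2 (Set.mem_insert _ _))
    (Polynomial.aeval_mem_adjoin_singleton F D.sR)

/-- The universal property of the coordinate ring. -/
theorem lift {E' : Type} [CommRing E'] (φ : F →+* E') (s' : E') (y' : ι → E')
    (h : ∀ i, y' i ^ 2 = (D.q i).eval₂ φ s') :
    ∃ ψ : D.R →+* E', (∀ a, ψ (algebraMap F D.R a) = φ a) ∧ ψ D.sR = s' ∧
      ∀ i, ψ (D.yR i) = y' i := by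
  let : Algebra F E' := φ.toAlgebra
  let f : D.R × E' := (D.sR, s')
  let y : ι → D.R × E' := fun i => (D.yR i, y' i)
  let B : Subalgebra F (D.R × E') := Algebra.adjoin F (insert f (Set.range y))
  have hf : f ∈ B := Algebra.subset_adjoin (Set.mem_insert _ _)
  have hy : ∀ i, y i ∈ B := fun i => Algebra.subset_adjoin (Set.mem_insert_of_mem _ ⟨i, rfl⟩)
  have h1 : ∀ g : F[X], (aeval f g).1 = aeval D.sR g := fun g =>
    (Polynomial.aeval_algHom_apply (AlgHom.fst F D.R E') f g).symm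
  have h2 : ∀ g : F[X], (aeval f g).2 = aeval s' g := fun g =>
    (Polynomial.aeval_algHom_apply (AlgHom.snd F D.R E') f g).symm
  have hsq : ∀ i, y i ^ 2 = aeval f (D.q i) := fun i =>
    Prod.ext (by rw [h1]; exact D.sqR i) (by rw [h2]; exact h i)
  let p : B →ₐ[F] D.R := (AlgHom.fst F D.R E').comp B.val
  have hinj : Function.Injective p := by
    rw [injective_iff_map_eq_zero]
    intro x hx
    obtain ⟨c, hc⟩ := mq_mem_poly hsq x.2
    have h3 : (x : D.R × E').1 = ∑ S, aeval D.sR (c S) * ∏ i ∈ S, D.yR i := by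
      rw [hc, Prod.fst_sum]
      refine Finset.sum_congr rfl fun S _ => ?_
      rw [Prod.fst_mul, h1, Prod.fst_prod]
    have h4 : (x : D.R × E').1 = 0 := hx
    have h5 : ∀ S, c S = 0 := D.coeff_zero (by rw [← data_coe, ← h3, h4]; rfl)
    exact Subtype.ext (by rw [hc]; simp [h5])
  have hsurj : Function.Surjective p := by
    rw [← AlgHom.range_eq_top, eq_top_iff, ← D.data_top, Algebra.adjoin_le_iff]
    rintro _ (rfl | ⟨i, rfl⟩)
    · exact ⟨⟨f, hf⟩, rfl⟩
    · exact ⟨⟨y i, hy i⟩, rfl⟩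
  let e := AlgEquiv.ofBijective p ⟨hinj, hsurj⟩
  let ψ : D.R →ₐ[F] E' := ((AlgHom.snd F D.R E').comp B.val).comp e.symm.toAlgHom
  have hψ : ∀ x : B, ψ (p x) = (x : D.R × E').2 := fun x => by
    show ((e.symm (e x) : B) : D.R × E').2 = _
    rw [e.symm_apply_apply]
  exact ⟨ψ.toRingHom, fun a => ψ.commutes a, hψ ⟨f, hf⟩, fun i => hψ ⟨y i, hy i⟩⟩

omit [CharZero F] in
theorem hom_ext {E' : Type} [Semiring E'] {ψ ψ' : D.R →+* E'}
    (h₀ : ∀ a, ψ (algebraMap F D.R a) = ψ' (algebraMap F D.R a)) (h₁ : ψ D.sR = ψ' D.sR)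
    (h₂ : ∀ i, ψ (D.yR i) = ψ' (D.yR i)) : ψ = ψ' := by
  refine RingHom.ext fun x => ?_
  have hx : x ∈ Algebra.adjoin F (insert D.sR (Set.range D.yR)) := by
    rw [D.data_top]
    trivial
  induction hx using Algebra.adjoin_induction with
  | mem x hx =>
    rcases hx with rfl | ⟨i, rfl⟩
    · exact h₁
    · exact h₂ i
  | algebraMap a => exact h₀ a
  | add x y _ _ hx hy => rw [map_add, map_add, hx, hy]
  | mul x y _ _ hx hy => rw [map_mul, map_mul, hx, hy]

omit [CharZero F] in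
theorem exists_dvd {α : D.R} (hα : α ≠ 0) : ∃ g : F[X], g ≠ 0 ∧ α ∣ aeval D.sR g := by
  classical
  let : Algebra F[X] D.R := (aeval D.sR : F[X] →ₐ[F] D.R).toRingHom.toAlgebra
  have : Module.Finite F[X] D.R := by
    refine ⟨(Submodule.fg_def).2 ⟨Set.range fun S : Finset ι => ∏ i ∈ S, D.yR i,
      Set.finite_range _, eq_top_iff.2 fun x _ => ?_⟩⟩
    obtain ⟨c, rfl⟩ := D.data_mem x
    exact Submodule.sum_mem _ fun S _ =>
      Submodule.smul_mem _ (c S) (Submodule.subset_span ⟨S, rfl⟩)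
  have h := Ideal.comap_ne_bot_of_integral_mem (R := F[X]) hα (Ideal.mem_span_singleton_self α)
    (Algebra.IsIntegral.isIntegral α)
  obtain ⟨g, hg, hg0⟩ := Submodule.exists_mem_ne_zero_of_ne_bot h
  exact ⟨g, hg0, Ideal.mem_span_singleton.1 (Ideal.mem_comap.1 hg)⟩

omit [CharZero F] in
theorem data_finiteType : Algebra.FiniteType F D.R := by
  classical
  exact ⟨(Subalgebra.fg_def).2 ⟨_, (Set.finite_range D.yR).insert D.sR, D.data_top⟩⟩

omit [CharZero F] in
theorem finite_quot {I : Ideal D.R} (hI : I ≠ ⊥) : Module.Finite F (D.R ⧸ I) := by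
  obtain ⟨α, hα, hα0⟩ := Submodule.exists_mem_ne_zero_of_ne_bot hI
  obtain ⟨g, hg, hd⟩ := D.exists_dvd hα0
  have := D.data_finiteType
  let π := Ideal.Quotient.mkₐ F I
  have hs : IsIntegral F (π D.sR) := by
    refine IsAlgebraic.isIntegral ⟨g, hg, ?_⟩
    rw [Polynomial.aeval_algHom_apply]
    exact Ideal.Quotient.eq_zero_iff_mem.2 (I.mem_of_dvd hd hα)
  have hy : ∀ i, IsIntegral F (π (D.yR i)) := fun i => by
    refine IsIntegral.of_pow (n := 2) (by norm_num) ?_
    rw [← map_pow, D.sqR, ← Polynomial.aeval_algHom_apply]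
    exact adjoin_le_integralClosure hs (Polynomial.aeval_mem_adjoin_singleton F _)
  have hle : Algebra.adjoin F (insert D.sR (Set.range D.yR)) ≤
      (integralClosure F (D.R ⧸ I)).comap π := by
    rw [Algebra.adjoin_le_iff]
    rintro _ (rfl | ⟨i, rfl⟩)
    · exact hs
    · exact hy i
  have : Algebra.IsIntegral F (D.R ⧸ I) := ⟨fun x => by
    obtain ⟨x, rfl⟩ := Ideal.Quotient.mkₐ_surjective F I x
    exact hle (by rw [D.data_top]; trivial)⟩
  exact Algebra.IsIntegral.finite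

omit [CharZero F] in
theorem finiteType : Algebra.FiniteType F D.R := D.data_finiteType

omit [CharZero F] in
theorem isPrincipal_of_isEmpty [IsEmpty ι] (I : Ideal D.R) : I.IsPrincipal := by
  have h : Function.Surjective (aeval D.sR : F[X] →ₐ[F] D.R) := fun x => by
    obtain ⟨c, rfl⟩ := D.data_mem x
    refine ⟨∑ S, c S, ?_⟩
    rw [map_sum]
    refine Finset.sum_congr rfl fun S _ => ?_
    rw [Finset.eq_empty_of_isEmpty S, Finset.prod_empty, mul_one]
  have := IsPrincipalIdealRing.of_surjective _ h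
  exact IsPrincipalIdealRing.principal I

end Pool.Agent.MP_e6b751_nt.Dat
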