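import Pool.Agent.MP_e6b751_nt.DatA

namespace Pool.Agent.MP_e6b751_nt.Dat

open Polynomial

variable {F E ι : Type} [Field F] [CharZero F] [Field E] [Algebra F E] [Fintype ι] (D : Dat F E ι)

omit [CharZero F] in
/-- An element of a larger field of constants that is a quotient of two functions. -/
theorem const_mem {F' : Type} [Field F'] [Algebra F F'] [Algebra F' E] [IsScalarTower F F' E]
    (h : LinearIndependent F' D.b) {z : F'} {α β : E} (hα : α ∈ D.R) (hβ : β ∈ D.R) (h0 : β ≠ 0)
    (hz : algebraMap F' E z * β = α) : z ∈ (algebraMap F F').range := by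
  have key : ∀ x ∈ D.R, ∃ c : ℕ × Finset ι →₀ F, Finsupp.linearCombination F' D.b
      (c.mapRange (algebraMap F F') (map_zero _)) = x := fun x hx => by
    obtain ⟨c, rfl⟩ := (Finsupp.mem_span_range_iff_exists_finsupp (R := F)).1 (D.span_b.ge hx)
    refine ⟨c, ?_⟩
    rw [Finsupp.linearCombination_apply, Finsupp.sum_mapRange_index (by simp)]
    simp
  obtain ⟨a, rfl⟩ := key α hα
  obtain ⟨c, rfl⟩ := key β hβ
  rw [← Algebra.smul_def, ← map_smul] at hz
  obtain ⟨p, hp⟩ : ∃ p, c p ≠ 0 := by
    by_contra hc
    push Not at hc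
    exact h0 (by rw [show c = 0 from Finsupp.ext hc]; simp)
  have e := DFunLike.congr_fun (h hz) p
  simp only [Finsupp.smul_apply, Finsupp.mapRange_apply, smul_eq_mul] at e
  exact ⟨a p / c p, by rw [map_div₀, ← e, mul_div_cancel_right₀ _ (by simpa using hp)]⟩

theorem datA2_domain {L E' : Type} [Field L] [Algebra F L] [Field E'] [Algebra L E'] [Algebra F E']
    [IsScalarTower F L E'] [IsAlgClosed E'] {s' : E'} (hs : Transcendental L s') :
    IsDomain (TensorProduct F L D.R) := by
  have : CharZero L := charZero_of_injective_algebraMap (algebraMap F L).injective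
  choose y' hy' using fun i => IsAlgClosed.exists_pow_nat_eq (aeval s' (D.q i)) two_pos
  let D' : Dat L E' ι :=
    { s := s'
      y := y'
      q := fun i => (D.q i).map (algebraMap F L)
      sq := fun i => by rw [aeval_map_algebraMap, hy']
      tr := hs
      sep := by rw [← Polynomial.map_prod]; exact D.sep.map
      deg := fun i => by rw [natDegree_map, D.deg] }
  obtain ⟨ψ, h1, h2, h3⟩ := D.lift (algebraMap F E') s' y' hy'
  let v : ℕ × Finset ι → D.R := fun p => D.sR ^ p.1 * ∏ i ∈ p.2, D.yR i
  have hv : D.R.val.toLinearMap ∘ v = D.b := funext fun p => by simp [v, b, sR, yR]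
  let Bs : Module.Basis (ℕ × Finset ι) F D.R := Module.Basis.mk (v := v)
    (LinearIndependent.of_comp D.R.val.toLinearMap (hv ▸ D.ind)) fun x _ => by
      have : (x : E) ∈ (Submodule.span F (Set.range v)).map D.R.val.toLinearMap := by
        rw [Submodule.map_span, ← Set.range_comp, hv]
        exact D.span_b.ge x.2
      obtain ⟨w, hw, e⟩ := this
      exact (Subtype.ext e : w = x) ▸ hw
  let Φ : TensorProduct F L D.R →ₐ[L] E' :=
    Algebra.TensorProduct.lift (Algebra.ofId L E') ⟨ψ, h1⟩ fun _ _ => Commute.all _ _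
  have hΦ : Φ.toLinearMap ∘ Algebra.TensorProduct.basis L Bs = D'.b := funext fun p => by
    simp [Φ, Bs, v, b, D', h2, h3]
  have hi : Function.Injective Φ.toLinearMap := LinearMap.injective_of_linearIndependent
    (Algebra.TensorProduct.basis L Bs).span_eq (hΦ ▸ D'.ind)
  exact Function.Injective.isDomain Φ hi

/-- The curve is geometrically integral. -/
theorem isDomain_tensor (L : Type) [Field L] [Algebra F L] :
    IsDomain (TensorProduct F L D.R) :=
  D.datA2_domain (E' := AlgebraicClosure (RatFunc L))
    ((transcendental_algebraMap_iff (algebraMap (RatFunc L) _).injective).2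
      RatFunc.transcendental_X)

end Pool.Agent.MP_e6b751_nt.Dat
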