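import Pool.Agent.MP_e6b751_nt.DatA

namespace Pool.Agent.MP_e6b751_nt.Dat

open Polynomial

variable {F E ι : Type} [Field F] [CharZero F] [Field E] [Algebra F E] [Fintype ι] (D : Dat F E ι)

/-- Square roots of units lift along square zero extensions. -/
theorem datB2_sqrt {B : Type} [CommRing B] [Algebra F B] {I : Ideal B} (hI : I ^ 2 = ⊥) {c : B}
    {y : B ⧸ I} (hy : IsUnit y) (h : y ^ 2 = Ideal.Quotient.mk I c) :
    ∃ z, z ^ 2 = c ∧ Ideal.Quotient.mk I z = y := by
  obtain ⟨z, rfl⟩ := Ideal.Quotient.mk_surjective y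
  have h2 : IsUnit (2 : B) := by
    simpa only [map_ofNat] using (IsUnit.mk0 (2 : F) two_ne_zero).map (algebraMap F B)
  obtain ⟨u, hu⟩ := (h2.mul ((IsNilpotent.isUnit_quotient_mk_iff ⟨2, hI⟩).1 hy)).exists_right_inv
  have he : z ^ 2 - c ∈ I := Ideal.Quotient.eq.1 (by rw [map_pow, h])
  have he2 : (z ^ 2 - c) ^ 2 = 0 := hI.le (Ideal.pow_mem_pow he 2)
  refine ⟨z - (z ^ 2 - c) * u, ?_, ?_⟩
  · linear_combination u ^ 2 * he2 - (z ^ 2 - c) * hu
  · rw [map_sub, Ideal.Quotient.eq_zero_iff_mem.2 (I.mul_mem_right _ he), sub_zero]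

/-- Away from the branch points the curve is etale over the line. -/
theorem smooth_away : Algebra.Smooth F (Localization.Away D.disc) := by
  classical
  have h1 : Algebra.FinitePresentation F D.R :=
    Algebra.FinitePresentation.of_finiteType.1 D.finiteType
  have h2 : Algebra.FinitePresentation D.R (Localization.Away D.disc) :=
    IsLocalization.Away.finitePresentation D.disc
  refine ⟨Algebra.FormallySmooth.of_comp_surjective fun B _ _ I hI f => ?_,
    Algebra.FinitePresentation.trans F D.R _⟩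
  let g : D.R →ₐ[F] B ⧸ I := f.comp (IsScalarTower.toAlgHom F D.R _)
  have hd : IsUnit (g D.disc) := (IsLocalization.Away.algebraMap_isUnit D.disc).map f
  obtain ⟨s', hs'⟩ := Ideal.Quotient.mk_surjective (g D.sR)
  have hy : ∀ i, ∃ z, z ^ 2 = (D.q i).eval₂ (algebraMap F B) s' ∧
      Ideal.Quotient.mk I z = g (D.yR i) := fun i => by
    refine datB2_sqrt (F := F) hI ?_ ?_
    · refine isUnit_of_dvd_unit (map_dvd g ?_) hd
      refine (dvd_pow_self _ two_ne_zero).trans ?_
      rw [sqR]
      exact map_dvd _ (Finset.dvd_prod_of_mem _ (Finset.mem_univ i))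
    · rw [← map_pow, sqR, ← aeval_algHom_apply, ← hs', ← aeval_def]
      exact aeval_algHom_apply (Ideal.Quotient.mkₐ F I) s' _
  choose z hz hz' using hy
  obtain ⟨ψ, h3, h4, h5⟩ := D.lift (algebraMap F B) s' z hz
  have h6 : (Ideal.Quotient.mk I).comp ψ = g := D.hom_ext
    (fun a => by rw [RingHom.comp_apply, h3]; exact (g.commutes a).symm)
    (by rw [RingHom.comp_apply, h4]; exact hs') fun i => by rw [RingHom.comp_apply, h5]; exact hz' i
  have h7 : IsUnit (ψ D.disc) := (IsNilpotent.isUnit_quotient_mk_iff ⟨2, hI⟩).1 (by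
    rw [← RingHom.comp_apply, h6]; exact hd)
  refine ⟨⟨IsLocalization.Away.lift D.disc h7, fun a => ?_⟩, AlgHom.coe_ringHom_injective ?_⟩
  · rw [IsScalarTower.algebraMap_apply F D.R, ← h3]
    exact IsLocalization.Away.lift_eq D.disc h7 _
  · refine IsLocalization.ringHom_ext (Submonoid.powers D.disc) (RingHom.ext fun x => ?_)
    refine Eq.trans ?_ (RingHom.congr_fun h6 x)
    exact congrArg (Ideal.Quotient.mk I) (IsLocalization.Away.lift_eq D.disc h7 x)

end Pool.Agent.MP_e6b751_nt.Dat
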