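import Mathlib

namespace Pool.Agent.MP_e6b751_nt

/-- The density degree set of the affine `k`-scheme `Spec A`: the integers `d ≥ 1` such that the
closed points with residue field of degree `d` over `k` are Zariski dense. -/
def delta (k A : Type) [Field k] [CommRing A] [Algebra k A] : Set ℕ :=
  {d | 1 ≤ d ∧ Dense {x : PrimeSpectrum A |
    x.asIdeal.IsMaximal ∧ Module.finrank k (A ⧸ x.asIdeal) = d}}

end Pool.Agent.MP_e6b751_nt
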