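import Pool.Agent.MP_e6b751_nt.Codim

namespace Pool.Agent.MP_e6b751_nt

open scoped Pointwise TensorProduct

theorem desc_sum_fixed {G M : Type} [Group G] [Fintype G] [AddCommMonoid M]
    [DistribMulAction G M] (x : M) (h : G) : h • ∑ g : G, g • x = ∑ g : G, g • x := by
  rw [Finset.smul_sum]
  exact Fintype.sum_equiv (Equiv.mulLeft h) _ _ fun g => (mul_smul h g x).symm

theorem desc_ded {G K : Type} [Group G] [Fintype G] [Field K] [MulSemiringAction G K]
    [FaithfulSMul G K] (c : G → K) (h : ∀ a : K, ∑ g : G, c g * g • a = 0) (g : G) : c g = 0 := by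
  have hi : Function.Injective fun g : G => (MulSemiringAction.toRingHom G K g : K →* K) :=
    fun g g' e => eq_of_smul_eq_smul fun a : K => DFunLike.congr_fun e a
  refine Fintype.linearIndependent_iff.1 ((linearIndependent_monoidHom K K).comp _ hi) c ?_ g
  funext a
  rw [Finset.sum_apply]
  exact h a

variable (G k K B : Type) [Group G] [Finite G] [Field k] [Field K] [Algebra k K]
  [MulSemiringAction G K] [IsGaloisGroup G k K] [CommRing B] [Algebra K B] [Algebra k B]
  [IsScalarTower k K B] [MulSemiringAction G B] [SMulCommClass G k B]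

omit [Finite G] in
theorem desc_smul (hc : ∀ (g : G) (a : K), g • algebraMap K B a = algebraMap K B (g • a))
    (g : G) (a : K) (x : B) : g • (a • x) = (g • a) • (g • x) := by
  rw [Algebra.smul_def, Algebra.smul_def, smul_mul', hc]

theorem desc_span (hc : ∀ (g : G) (a : K), g • algebraMap K B a = algebraMap K B (g • a)) :
    Submodule.span K (FixedPoints.subalgebra k B G : Set B) = ⊤ := by
  by_contra hne
  obtain ⟨l, hl, hle⟩ := Submodule.exists_le_ker_of_lt_top _ (lt_top_iff_ne_top.2 hne)
  have := Fintype.ofFinite G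
  have := (IsGaloisGroup.faithful (G := G) (A := k) (B := K))
  refine hl (LinearMap.ext fun x => ?_)
  have := desc_ded (fun g : G => l (g • x)) (fun a => ?_) 1
  · simpa using this
  · have h1 : l (∑ g : G, g • (a • x)) = 0 :=
      hle (Submodule.subset_span fun h => desc_sum_fixed _ h)
    rw [map_sum] at h1
    rw [← h1]
    refine Finset.sum_congr rfl fun g _ => ?_
    rw [desc_smul G K B hc, l.map_smul, smul_eq_mul, mul_comm]

theorem desc_key (hc : ∀ (g : G) (a : K), g • algebraMap K B a = algebraMap K B (g • a))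
    {I : Ideal B} (hI : ∀ (g : G), ∀ x ∈ I, g • x ∈ I) {ι : Type} (s : Finset ι)
    (x : ι → FixedPoints.subalgebra k B G)
    (hx : ∀ t : ι → k, (∑ i ∈ s, t i • x i).1 ∈ I → ∀ i ∈ s, t i = 0) (c : ι → K)
    (h : ∑ i ∈ s, c i • (x i : B) ∈ I) : ∀ i ∈ s, c i = 0 := by
  have := Fintype.ofFinite G
  have := (IsGaloisGroup.faithful (G := G) (A := k) (B := K))
  intro i hi
  have := desc_ded (fun g : G => g • c i) (fun a => ?_) 1
  · simpa using this
  · choose t ht using fun j => Algebra.IsInvariant.isInvariant (A := k) (G := G)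
      (∑ g : G, g • (a * c j)) fun h => desc_sum_fixed _ h
    have h1 : (∑ i ∈ s, t i • x i).1 = ∑ g : G, g • (a • ∑ i ∈ s, c i • (x i : B)) := by
      simp only [Finset.smul_sum, smul_smul, desc_smul G K B hc]
      rw [Finset.sum_comm, AddSubmonoidClass.coe_finsetSum]
      refine Finset.sum_congr rfl fun j _ => ?_
      have h2 : ∀ g : G, g • (x j : B) = x j := (x j).2
      simp only [h2]
      rw [← Finset.sum_smul, ← ht, algebraMap_smul]
      rfl
    have h3 := hx t (by
      rw [h1]
      refine I.sum_mem fun g _ => hI g _ ?_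
      rw [Algebra.smul_def]
      exact I.mul_mem_left _ h) i hi
    have h4 := ht i
    rw [h3, map_zero] at h4
    rw [h4]
    exact Finset.sum_congr rfl fun g _ => by rw [smul_mul', mul_comm]

/-- Galois descent. -/
theorem desc_equiv (hc : ∀ (g : G) (a : K), g • algebraMap K B a = algebraMap K B (g • a)) :
    ∃ e : K ⊗[k] FixedPoints.subalgebra k B G ≃ₐ[K] B, ∀ x, e (1 ⊗ₜ x) = x := by
  let φ : K ⊗[k] FixedPoints.subalgebra k B G →ₐ[K] B :=
    Algebra.TensorProduct.lift (Algebra.ofId K B) (FixedPoints.subalgebra k B G).val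
      fun _ _ => Commute.all _ _
  have hφ : ∀ x, φ (1 ⊗ₜ x) = x := fun x => by simp [φ]
  refine ⟨AlgEquiv.ofBijective φ ⟨?_, ?_⟩, hφ⟩
  · let b := Module.Basis.ofVectorSpace k (FixedPoints.subalgebra k B G)
    refine LinearMap.injective_of_linearIndependent (f := φ.toLinearMap)
      (Algebra.TensorProduct.basis K b).span_eq (linearIndependent_iff'.2 fun s c h => ?_)
    refine desc_key G k K B hc (I := ⊥) (fun g x hx => ?_) s b (fun t ht => ?_) c ?_
    · rw [Ideal.mem_bot.1 hx, smul_zero]
      exact Ideal.zero_mem _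
    · exact linearIndependent_iff'.1 b.linearIndependent s t (Subtype.ext (Ideal.mem_bot.1 ht))
    · rw [Ideal.mem_bot, ← h]
      refine Finset.sum_congr rfl fun i _ => ?_
      rw [Function.comp_apply, Algebra.TensorProduct.basis_apply, AlgHom.toLinearMap_apply, hφ]
  · refine LinearMap.range_eq_top.1 (show LinearMap.range φ.toLinearMap = ⊤ from ?_)
    rw [eq_top_iff, ← desc_span G k K B hc, Submodule.span_le]
    exact fun x hx => ⟨1 ⊗ₜ ⟨x, hx⟩, hφ _⟩

theorem desc_codim_stable (hc : ∀ (g : G) (a : K), g • algebraMap K B a = algebraMap K B (g • a))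
    {I : Ideal B} (hI : ∀ (g : G), ∀ x ∈ I, g • x ∈ I) :
    codim k (I.comap (FixedPoints.subalgebra k B G).val) = codim K I := by
  let J := I.comap (FixedPoints.subalgebra k B G).val
  let b := Module.Basis.ofVectorSpace k (FixedPoints.subalgebra k B G ⧸ J)
  choose x hx using fun i => Ideal.Quotient.mkₐ_surjective k J (b i)
  have hli : LinearIndependent K fun i => Ideal.Quotient.mkₐ K I (x i : B) := by
    refine linearIndependent_iff'.2 fun s c h => ?_
    refine desc_key G k K B hc hI s x (fun t ht => ?_) c ?_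
    · refine linearIndependent_iff'.1 b.linearIndependent s t ?_
      have : Ideal.Quotient.mkₐ k J (∑ i ∈ s, t i • x i) = 0 := Ideal.Quotient.eq_zero_iff_mem.2 ht
      simpa only [map_sum, map_smul, hx] using this
    · rw [← Ideal.Quotient.eq_zero_iff_mem, ← Ideal.Quotient.mkₐ_eq_mk K, map_sum]
      simpa only [map_smul] using h
  have hsp : ⊤ ≤ Submodule.span K (Set.range fun i => Ideal.Quotient.mkₐ K I (x i : B)) := by
    rintro y -
    obtain ⟨z, rfl⟩ := Ideal.Quotient.mkₐ_surjective K I y
    have hz : z ∈ Submodule.span K (FixedPoints.subalgebra k B G : Set B) := by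
      rw [desc_span G k K B hc]; trivial
    induction hz using Submodule.span_induction with
    | mem a ha =>
      let ψ := Ideal.quotientMapₐ I (FixedPoints.subalgebra k B G).val (le_refl J)
      have h1 : ∀ w : FixedPoints.subalgebra k B G ⧸ J, ψ w ∈
          Submodule.span K (Set.range fun i => Ideal.Quotient.mkₐ K I (x i : B)) := fun w => by
        have hw : w ∈ Submodule.span k (Set.range b) := by rw [b.span_eq]; trivial
        induction hw using Submodule.span_induction with
        | mem _ hw =>
          obtain ⟨i, rfl⟩ := hw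
          rw [← hx i]
          exact Submodule.subset_span ⟨i, rfl⟩
        | zero => rw [map_zero]; exact Submodule.zero_mem _
        | add _ _ _ _ h h' => rw [map_add]; exact Submodule.add_mem _ h h'
        | smul t _ _ h => rw [map_smul]; exact Submodule.smul_of_tower_mem _ t h
      exact h1 (Ideal.Quotient.mk J ⟨a, ha⟩)
    | zero => rw [map_zero]; exact Submodule.zero_mem _
    | add _ _ _ _ h h' => rw [map_add]; exact Submodule.add_mem _ h h'
    | smul t _ _ h => rw [map_smul]; exact Submodule.smul_mem _ t h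
  exact (Module.finrank_eq_nat_card_basis b).trans
    (Module.finrank_eq_nat_card_basis (Module.Basis.mk hli hsp)).symm

theorem desc_fixed [CharZero K]
    (hc : ∀ (g : G) (a : K), g • algebraMap K B a = algebraMap K B (g • a)) (H : Subgroup G)
    {x : B} (hx : ∀ h ∈ H, h • x = x) :
    ∃ (n : ℕ) (c : Fin n → K) (z : Fin n → FixedPoints.subalgebra k B G),
      (∀ i, ∀ h ∈ H, h • c i = c i) ∧ x = ∑ i, algebraMap K B (c i) * z i := by
  have hz : x ∈ Submodule.span K (FixedPoints.subalgebra k B G : Set B) := by
    rw [desc_span G k K B hc]; trivial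
  obtain ⟨n, c, z, e⟩ := Submodule.mem_span_set'.1 hz
  have := Fintype.ofFinite H
  have hn : (Fintype.card H : K) ≠ 0 := Nat.cast_ne_zero.2 Fintype.card_ne_zero
  refine ⟨n, fun i => (Fintype.card H : K)⁻¹ * ∑ h : H, h • c i, z, fun i h hh => ?_, ?_⟩
  · have h1 : h • (Fintype.card H : K) = Fintype.card H :=
      map_natCast (MulSemiringAction.toRingHom G K h) _
    have h2 : h • ∑ g : H, g • c i = ∑ g : H, g • c i := desc_sum_fixed (c i) (⟨h, hh⟩ : H)
    rw [smul_mul', smul_inv'', h1, h2]
  · have h1 : (Fintype.card H : K) • x = ∑ h : H, (h : G) • x := by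
      rw [Finset.sum_congr rfl fun (h : H) _ => hx h h.2, Finset.sum_const, Finset.card_univ,
        Nat.cast_smul_eq_nsmul]
    rw [← inv_smul_smul₀ hn x, h1, ← e]
    simp only [Finset.smul_sum, desc_smul G K B hc, ← Algebra.smul_def, mul_smul, Finset.sum_smul]
    rw [Finset.sum_comm]
    refine Finset.sum_congr rfl fun i _ => Finset.sum_congr rfl fun h _ => ?_
    rw [show (h : G) • (z i : B) = z i from (z i).2 h]
    rfl

end Pool.Agent.MP_e6b751_nt
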