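import Pool.Agent.MP_e6b751_nt.Desc

namespace Pool.Agent.MP_e6b751_nt

open scoped Pointwise TensorProduct

/-- The codimension of a finite intersection of distinct maximal ideals. -/
theorem desc2_iInf {F R ι : Type} [Field F] [CommRing R] [Algebra F R] [Fintype ι]
    (f : ι → Ideal R) (hf : Function.Injective f) (hm : ∀ i, (f i).IsMaximal)
    (hfin : ∀ i, Module.Finite F (R ⧸ f i)) : codim F (⨅ i, f i) = ∑ i, codim F (f i) := by
  have e : (R ⧸ ⨅ i, f i) ≃ₐ[F] ∀ i, R ⧸ f i :=
    AlgEquiv.ofRingEquiv (f := Ideal.quotientInfRingEquivPiQuotient f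
      fun i j hij => Ideal.isCoprime_of_isMaximal (hf.ne hij)) fun _ => rfl
  unfold codim
  rw [e.toLinearEquiv.finrank_eq, Module.finrank_pi_fintype]

variable (G k K B : Type) [Group G] [Finite G] [Field k] [Field K] [Algebra k K]
  [MulSemiringAction G K] [IsGaloisGroup G k K] [CommRing B] [Algebra K B] [Algebra k B]
  [IsScalarTower k K B] [MulSemiringAction G B] [SMulCommClass G k B]

theorem desc_codim (hc : ∀ (g : G) (a : K), g • algebraMap K B a = algebraMap K B (g • a))
    {𝔪 : Ideal B} (h𝔪 : 𝔪.IsMaximal) [Module.Finite K (B ⧸ 𝔪)] :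
    codim k (𝔪.comap (FixedPoints.subalgebra k B G).val) =
      (MulAction.stabilizer G 𝔪).index * codim K 𝔪 := by
  classical
  have hfo : Finite (MulAction.orbit G 𝔪) := (Set.finite_range _).to_subtype
  have := Fintype.ofFinite (MulAction.orbit G 𝔪)
  have hmem : ∀ x, x ∈ (⨅ J : MulAction.orbit G 𝔪, (J : Ideal B)) ↔ ∀ g : G, g • x ∈ 𝔪 := by
    intro x
    rw [Ideal.mem_iInf]
    constructor
    · intro h g
      exact Ideal.mem_inv_pointwise_smul_iff.1 (h ⟨_, MulAction.mem_orbit 𝔪 g⁻¹⟩)
    · rintro h ⟨_, g, rfl⟩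
      exact Ideal.mem_pointwise_smul_iff_inv_smul_mem.2 (h g⁻¹)
  have hcm : 𝔪.comap (FixedPoints.subalgebra k B G).val =
      (⨅ J : MulAction.orbit G 𝔪, (J : Ideal B)).comap (FixedPoints.subalgebra k B G).val := by
    ext x
    rw [Ideal.mem_comap, Ideal.mem_comap, hmem]
    refine ⟨fun h g => ?_, fun h => by simpa using h 1⟩
    have : g • (FixedPoints.subalgebra k B G).val x = (FixedPoints.subalgebra k B G).val x := x.2 g
    rwa [this]
  have hmap : ∀ g : G, g • 𝔪 = 𝔪.map (MulSemiringAction.toRingEquiv G B g) := fun _ => rfl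
  have hco : ∀ J : MulAction.orbit G 𝔪, codim K (J : Ideal B) = codim K 𝔪 := by
    rintro ⟨_, g, rfl⟩
    exact (congrArg (codim K) (hmap g)).trans
      (codim_map (MulSemiringAction.toRingEquiv G K g) _ (hc g) 𝔪)
  have hpos : 0 < codim K 𝔪 := by
    have := Ideal.Quotient.nontrivial_iff.2 h𝔪.ne_top
    exact Module.finrank_pos
  rw [hcm, desc_codim_stable G k K B hc, desc2_iInf _ Subtype.val_injective,
    Finset.sum_congr rfl fun J _ => hco J, Finset.sum_const, Finset.card_univ, smul_eq_mul,
    MulAction.index_stabilizer, ← Nat.card_coe_set_eq, Nat.card_eq_fintype_card]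
  · rintro ⟨_, g, rfl⟩
    exact Ideal.map_isMaximal_of_equiv (MulSemiringAction.toRingEquiv G B g)
  · intro J
    exact Module.finite_of_finrank_pos ((hco J).symm ▸ hpos : 0 < codim K (J : Ideal B))
  · intro g x hx
    rw [hmem] at hx ⊢
    intro h
    rw [smul_smul]
    exact hx _

theorem desc2_integral : Algebra.IsIntegral (FixedPoints.subalgebra k B G) B := by
  have : Algebra.IsInvariant (FixedPoints.subalgebra k B G) B G := ⟨fun b hb => ⟨⟨b, hb⟩, rfl⟩⟩
  exact Algebra.IsInvariant.isIntegral _ B G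

theorem desc_isMaximal {𝔪 : Ideal B} (h𝔪 : 𝔪.IsMaximal) :
    (𝔪.comap (FixedPoints.subalgebra k B G).val).IsMaximal := by
  have := desc2_integral G k B
  exact Ideal.isMaximal_comap_of_isIntegral_of_isMaximal (R := FixedPoints.subalgebra k B G) 𝔪

theorem desc_dim [IsDomain B] [Ring.DimensionLEOne B] :
    Ring.DimensionLEOne (FixedPoints.subalgebra k B G) := by
  have := desc2_integral G k B
  have hb : (⊥ : Ideal B).comap (algebraMap (FixedPoints.subalgebra k B G) B) = ⊥ :=
    Ideal.comap_bot_of_injective _ Subtype.val_injective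
  refine ⟨fun {p} hp hp' => ?_⟩
  obtain ⟨Q, -, hQ, rfl⟩ := Ideal.exists_ideal_over_prime_of_isIntegral p (⊥ : Ideal B)
    (hb.le.trans bot_le)
  have hQ' : Q.IsMaximal := hQ.isMaximal fun h => hp (by rw [h, hb])
  exact Ideal.isMaximal_comap_of_isIntegral_of_isMaximal Q

/-- A subfield of finite index of a finitely generated field is finitely generated. -/
theorem desc_fg [Algebra.IsAlgebraic k K] (s : Finset K) (hs : Subfield.closure (s : Set K) = ⊤) :
    ∃ t : Finset k, Subfield.closure (t : Set k) = ⊤ := by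
  classical
  let c : Finset k := s.biUnion fun a => (minpoly k a).coeffs
  let k0 : Subfield k := Subfield.closure (c : Set k)
  have hint : ∀ a ∈ (s : Set K), IsIntegral k0 a := by
    intro a ha
    have h1 : minpoly k a ∈ Polynomial.lifts (algebraMap k0 k) := by
      rw [Polynomial.lifts_iff_coeffs_subset_range]
      intro x hx
      exact ⟨⟨x, Subfield.subset_closure (Finset.mem_coe.2 (Finset.mem_biUnion.2 ⟨a, ha, hx⟩))⟩, rfl⟩
    obtain ⟨q, hq, -, hm⟩ := Polynomial.lifts_and_natDegree_eq_and_monic h1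
      (minpoly.monic (Algebra.IsAlgebraic.isAlgebraic a).isIntegral)
    refine ⟨q, hm, ?_⟩
    rw [← Polynomial.aeval_def, ← Polynomial.aeval_map_algebraMap k, hq, minpoly.aeval]
  have htop : IntermediateField.adjoin k0 (s : Set K) = ⊤ := by
    rw [eq_top_iff]
    intro x _
    have hx : x ∈ Subfield.closure (s : Set K) := hs ▸ Subfield.mem_top x
    exact (Subfield.closure_le (t := (IntermediateField.adjoin k0 (s : Set K)).toSubfield)).2
      (IntermediateField.subset_adjoin k0 _) hx
  have h1 := IntermediateField.finiteDimensional_adjoin hint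
  rw [htop] at h1
  have h2 : Module.Finite k0 K := Module.Finite.equiv IntermediateField.topEquiv.toLinearEquiv
  have h3 : Module.Finite k0 k := Module.Finite.of_injective
    (IsScalarTower.toAlgHom k0 k K).toLinearMap (algebraMap k K).injective
  obtain ⟨u, hu⟩ := h3.fg_top
  refine ⟨c ∪ u, ?_⟩
  rw [eq_top_iff]
  intro x _
  have hx : x ∈ Submodule.span k0 (u : Set k) := hu ▸ Submodule.mem_top
  induction hx using Submodule.span_induction with
  | mem y hy => exact Subfield.subset_closure (by simp [Finset.mem_coe.1 hy])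
  | zero => exact zero_mem _
  | add y z _ _ hy hz => exact add_mem (hy trivial) (hz trivial)
  | smul a y _ hy =>
    exact mul_mem (Subfield.closure_mono (by simp) a.2) (hy trivial)

end Pool.Agent.MP_e6b751_nt
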