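import Pool.Agent.MP_e6b751_nt.Lau

namespace Pool.Agent.MP_e6b751_nt

open Polynomial IntermediateField

theorem ell_monic {a b : ℚ[X]} (ha : a.Monic) (h : b.natDegree < a.natDegree) (c : ℚ) :
    (a ^ 2 + C c * b ^ 2).Monic ∧ (a ^ 2 + C c * b ^ 2).natDegree = 2 * a.natDegree := by
  have h1 : (C c * b ^ 2).natDegree < (a ^ 2).natDegree := by
    refine (natDegree_C_mul_le _ _).trans_lt ?_
    rw [natDegree_pow, natDegree_pow]
    omega
  exact ⟨(ha.pow 2).add_of_left (degree_lt_degree h1),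
    by rw [natDegree_add_eq_left_of_natDegree_lt h1, natDegree_pow]⟩

theorem ell_mem {F : Type} [Field F] [CharZero F] (p : F) (a : ℚ[X]) : aeval p a ∈ ℚ⟮p⟯ :=
  algebra_adjoin_le_adjoin ℚ _ (aeval_mem_adjoin_singleton ℚ p)

theorem ell_step {F : Type} [Field F] [CharZero F] {p : F} (hp : Transcendental ℚ p) (n : ℕ) :
    ∃ (a b : ℚ[X]) (y : F), a.Monic ∧ b.natDegree < a.natDegree ∧ b.leadingCoeff = 4 ^ n ∧
      y ∈ ℚ⟮p⟯ ∧ (p ^ 3 - p) * y ^ 2 = (aeval p a / aeval p b) ^ 3 - aeval p a / aeval p b := by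
  have ne : ∀ a : ℚ[X], a ≠ 0 → aeval p a ≠ 0 := fun a ha h => hp ⟨a, ha, h⟩
  induction n with
  | zero => exact ⟨X, 1, 1, monic_X, by simp, by simp, one_mem _, by simp⟩
  | succ n ih =>
    obtain ⟨a, b, y, ha, hd, hl, hy, e⟩ := ih
    obtain ⟨m1, d1⟩ := ell_monic ha hd 1
    obtain ⟨m2, d2⟩ := ell_monic ha hd (-1)
    have hb : b ≠ 0 := by
      rintro rfl
      rw [leadingCoeff_zero] at hl
      exact absurd hl.symm (by positivity)
    have a0 := ne a ha.ne_zero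
    have b0 := ne b hb
    have c0 := ne _ m2.ne_zero
    have hx : aeval p a / aeval p b ∈ ℚ⟮p⟯ := div_mem (ell_mem p a) (ell_mem p b)
    have hδ : p ^ 3 - p ∈ ℚ⟮p⟯ :=
      sub_mem (pow_mem (mem_adjoin_simple_self ℚ p) 3) (mem_adjoin_simple_self ℚ p)
    have e1 : aeval p ((a ^ 2 + C 1 * b ^ 2) ^ 2) / aeval p (C 4 * (a * (a ^ 2 + C (-1) * b ^ 2) * b))
        = ((aeval p a / aeval p b) ^ 2 + 1) ^ 2 /
          (4 * ((aeval p a / aeval p b) ^ 3 - aeval p a / aeval p b)) ∧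
        (aeval p a / aeval p b) ^ 3 - aeval p a / aeval p b ≠ 0 := by
      simp only [map_add, map_mul, map_pow, map_neg, map_one, map_ofNat] at c0 ⊢
      generalize aeval p a = A at *
      generalize aeval p b = B at *
      have e2 : (A / B) ^ 3 - A / B = A * (A ^ 2 + -1 * B ^ 2) / B ^ 3 := by field_simp; ring
      rw [e2]
      exact ⟨by field_simp, by positivity⟩
    obtain ⟨e1, x0⟩ := e1
    generalize aeval p a / aeval p b = x at hx e e1 x0
    refine ⟨(a ^ 2 + C 1 * b ^ 2) ^ 2, C 4 * (a * (a ^ 2 + C (-1) * b ^ 2) * b),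
      (x ^ 2 + 1) * (x ^ 2 - 2 * x - 1) * (x ^ 2 + 2 * x - 1) / (8 * (p ^ 3 - p) ^ 2 * y ^ 3),
      m1.pow 2, ?_, ?_, ?_, ?_⟩
    · refine (natDegree_C_mul_le _ _).trans_lt ?_
      rw [natDegree_mul (ha.mul m2).ne_zero hb, ha.natDegree_mul m2, natDegree_pow, d1, d2]
      omega
    · rw [leadingCoeff_mul, leadingCoeff_C, leadingCoeff_monic_mul (ha.mul m2), hl, pow_succ']
    · have h2 : (2 : F) ∈ ℚ⟮p⟯ := ofNat_mem _ 2
      have h8 : (8 : F) ∈ ℚ⟮p⟯ := ofNat_mem _ 8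
      exact div_mem (mul_mem (mul_mem (add_mem (pow_mem hx 2) (one_mem _))
        (sub_mem (sub_mem (pow_mem hx 2) (mul_mem h2 hx)) (one_mem _)))
        (sub_mem (add_mem (pow_mem hx 2) (mul_mem h2 hx)) (one_mem _)))
        (mul_mem (mul_mem h8 (pow_mem hδ 2)) (pow_mem hy 3))
    · rw [e1]
      generalize p ^ 3 - p = δ at e
      have h0 : δ ≠ 0 ∧ y ≠ 0 := by
        constructor <;> rintro rfl <;> exact x0 (by rw [← e]; ring)
      obtain ⟨h1, h2⟩ := h0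
      have e3 : δ * ((x ^ 2 + 1) * (x ^ 2 - 2 * x - 1) * (x ^ 2 + 2 * x - 1) /
          (8 * δ ^ 2 * y ^ 3)) ^ 2 = ((x ^ 2 + 1) * (x ^ 2 - 2 * x - 1) * (x ^ 2 + 2 * x - 1)) ^ 2 /
          (64 * (δ * y ^ 2) ^ 3) := by field_simp; ring
      rw [e3, e]
      field_simp
      ring

/-- The twisted curve has infinitely many points over `ℚ(p)`. -/
theorem ell_points {F : Type} [Field F] [CharZero F] {p : F} (hp : Transcendental ℚ p) :
    ∃ γ Y₁ Y₂ : ℕ → F, Function.Injective γ ∧ ∀ n, γ n ∈ ℚ⟮p⟯ ∧ Y₁ n ∈ ℚ⟮p⟯ ∧ Y₂ n ∈ ℚ⟮p⟯ ∧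
      (p ^ 3 - p) * Y₁ n ^ 2 = γ n ∧ Y₂ n ^ 2 = γ n ^ 2 + 4 := by
  have ne : ∀ a : ℚ[X], a ≠ 0 → aeval p a ≠ 0 := fun a ha h => hp ⟨a, ha, h⟩
  choose a b y ha hd hl hy e using ell_step hp
  have hb : ∀ n, b n ≠ 0 := fun n h => by
    have := hl n
    rw [h, leadingCoeff_zero] at this
    exact absurd this.symm (by positivity)
  have a0 := fun n => ne _ (ha n).ne_zero
  have b0 := fun n => ne _ (hb n)
  obtain ⟨x, hx⟩ : ∃ x : ℕ → F, ∀ n, x n = aeval p (a n) / aeval p (b n) := ⟨_, fun _ => rfl⟩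
  have x0 : ∀ n, x n ≠ 0 := fun n => hx n ▸ div_ne_zero (a0 n) (b0 n)
  have xm : ∀ n, x n ∈ ℚ⟮p⟯ := fun n => hx n ▸ div_mem (ell_mem p _) (ell_mem p _)
  refine ⟨fun n => x n - (x n)⁻¹, fun n => y n / x n, fun n => x n + (x n)⁻¹, fun n m h => ?_,
    fun n => ⟨sub_mem (xm n) (inv_mem (xm n)), div_mem (hy n) (xm n),
      add_mem (xm n) (inv_mem (xm n)), ?_, ?_⟩⟩
  · have k : (a n ^ 2 + C (-1) * b n ^ 2) * a m * b m = (a m ^ 2 + C (-1) * b m ^ 2) * a n * b n := by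
      by_contra hc
      refine ne _ (sub_ne_zero.2 hc) ?_
      simp only [hx] at h
      simp only [map_add, map_sub, map_mul, map_pow, map_neg, map_one]
      have := a0 n
      have := a0 m
      have := b0 n
      have := b0 m
      field_simp at h
      linear_combination h
    have k2 := congrArg leadingCoeff k
    rw [leadingCoeff_monic_mul ((ell_monic (ha n) (hd n) _).1.mul (ha m)),
      leadingCoeff_monic_mul ((ell_monic (ha m) (hd m) _).1.mul (ha n)), hl, hl] at k2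
    exact (pow_right_injective₀ (by norm_num) (by norm_num) k2).symm
  · have := e n
    rw [← hx] at this
    have h0 := x0 n
    field_simp
    linear_combination this
  · have h0 := x0 n
    field_simp
    ring

end Pool.Agent.MP_e6b751_nt
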