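import Pool.Agent.MP_e6b751_nt.CodimD

namespace Pool.Agent.MP_e6b751_nt.Dat

open Polynomial

variable {F E ι : Type} [Field F] [CharZero F] [Field E] [Algebra F E] [Fintype ι] (D : Dat F E ι)

theorem filt_sum2 {M : Type} [AddCommMonoid M] (f : Finset (Fin 2) → M) :
    ∑ S, f S = f ∅ + f {0} + f {1} + f {0, 1} := by
  rw [show (Finset.univ : Finset (Finset (Fin 2))) = {∅, {0}, {1}, {0, 1}} by decide,
    Finset.sum_insert (by decide), Finset.sum_insert (by decide), Finset.sum_pair (by decide),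
    add_assoc, add_assoc]

omit [CharZero F] in
theorem V_le (N : ℕ) : D.V N ≤ D.R.toSubmodule :=
  D.span_b ▸ Submodule.span_mono (Set.image_subset_range _ _)

omit [CharZero F] in
theorem V_mono {N M : ℕ} (h : N ≤ M) : D.V N ≤ D.V M :=
  Submodule.span_mono (Set.image_mono fun _ hp => le_trans hp h)

omit [CharZero F] in
theorem exists_V {x : E} (hx : x ∈ D.R) : ∃ N, x ∈ D.V N := by
  have h : x ∈ Submodule.span F (Set.range D.b) := D.span_b ▸ hx
  clear hx
  induction h using Submodule.span_induction with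
  | mem x h =>
    obtain ⟨p, rfl⟩ := h
    exact ⟨p.1 + p.2.card, Submodule.subset_span ⟨p, le_refl (p.1 + p.2.card), rfl⟩⟩
  | zero => exact ⟨0, zero_mem _⟩
  | add x z _ _ h1 h2 =>
    obtain ⟨N, h1⟩ := h1
    obtain ⟨M, h2⟩ := h2
    exact ⟨max N M, add_mem (D.V_mono (le_max_left _ _) h1) (D.V_mono (le_max_right _ _) h2)⟩
  | smul a x _ h =>
    obtain ⟨N, h⟩ := h
    exact ⟨N, Submodule.smul_mem _ _ h⟩

omit [CharZero F] in
theorem filt_term {N : ℕ} {g : F[X]} {S : Finset ι} (h : g ≠ 0 → g.natDegree + S.card ≤ N) :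
    aeval D.s g * ∏ i ∈ S, D.y i ∈ D.V N := by
  by_cases hg : g = 0
  · simp [hg]
  rw [aeval_eq_sum_range, Finset.sum_mul]
  refine sum_mem fun k hk => ?_
  rw [smul_mul_assoc]
  have := h hg
  have := Finset.mem_range.1 hk
  exact Submodule.smul_mem _ _ (Submodule.subset_span ⟨(k, S), show k + S.card ≤ N by omega, rfl⟩)

omit [CharZero F] in
theorem V_mul {N M : ℕ} {x z : E} (hx : x ∈ D.V N) (hz : z ∈ D.V M) : x * z ∈ D.V (N + M) := by
  classical
  have h3 := Submodule.mul_mem_mul hx hz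
  rw [V, V, Submodule.span_mul_span] at h3
  refine Submodule.span_le.2 ?_ h3
  rintro _ ⟨_, ⟨⟨k, S⟩, hS, rfl⟩, _, ⟨⟨l, T⟩, hT, rfl⟩, rfl⟩
  let : Algebra F[X] E := (aeval D.s : F[X] →ₐ[F] E).toRingHom.toAlgebra
  have h1 : (∏ i ∈ S, D.y i) * ∏ i ∈ T, D.y i =
      aeval D.s (∏ i ∈ S ∩ T, D.q i) * ∏ i ∈ symmDiff S T, D.y i := mqx_mul (P := F[X]) D.sq S T
  have h2 : D.b (k, S) * D.b (l, T) =
      aeval D.s (X ^ (k + l) * ∏ i ∈ S ∩ T, D.q i) * ∏ i ∈ symmDiff S T, D.y i := by
    rw [map_mul, mul_assoc, ← h1, map_pow, aeval_X, b, b]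
    ring
  change D.b (k, S) * D.b (l, T) ∈ D.V (N + M)
  rw [h2]
  refine D.filt_term fun _ => ?_
  have e1 := natDegree_mul_le (p := (X : F[X]) ^ (k + l)) (q := ∏ i ∈ S ∩ T, D.q i)
  have e2 := natDegree_prod_le (S ∩ T) D.q
  have e3 := Finset.card_union_le (S \ T) (T \ S)
  have e4 := Finset.card_sdiff_add_card_inter S T
  have e5 := Finset.card_sdiff_add_card_inter T S
  have e6 : k + S.card ≤ N := hS
  have e7 : l + T.card ≤ M := hT
  rw [Finset.inter_comm] at e5
  rw [natDegree_X_pow] at e1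
  simp only [D.deg, Finset.sum_const, smul_eq_mul] at e2
  rw [symmDiff_def, Finset.sup_eq_union]
  omega

omit [CharZero F] in
theorem filt_V_eq (N : ℕ) : D.V N = Submodule.span F (Set.range (D.b ∘
    fun p : Σ S : Finset ι, Fin (N + 1 - S.card) => (p.2.1, p.1))) := by
  rw [V, Set.range_comp]
  congr 2
  ext ⟨k, S⟩
  refine ⟨fun h => ⟨⟨S, k, ?_⟩, rfl⟩, ?_⟩
  · have : k + S.card ≤ N := h
    omega
  · rintro ⟨⟨T, l, hl⟩, h⟩
    obtain ⟨rfl, rfl⟩ := Prod.mk.inj h
    change l + T.card ≤ N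
    omega

omit [CharZero F] in
theorem V_finite (N : ℕ) : Module.Finite F (D.V N) :=
  D.filt_V_eq N ▸ Module.Finite.span_of_finite F (Set.finite_range _)

omit [CharZero F] in
theorem mem_V_iff {N : ℕ} {x : E} : x ∈ D.V N ↔ ∃ c : Finset ι → F[X],
    (∀ S, c S ≠ 0 → (c S).natDegree + S.card ≤ N) ∧
      x = ∑ S, aeval D.s (c S) * ∏ i ∈ S, D.y i := by
  classical
  refine ⟨fun h => ?_, ?_⟩
  · induction h using Submodule.span_induction with
    | mem x h =>
      obtain ⟨⟨k, S⟩, h, rfl⟩ := h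
      refine ⟨Pi.single S (X ^ k), fun T hT => ?_, ?_⟩
      · obtain rfl : T = S := by
          by_contra e
          exact hT (Pi.single_eq_of_ne e _)
        rwa [Pi.single_eq_same, natDegree_X_pow]
      · rw [Finset.sum_eq_single S (fun T _ e => by simp [Pi.single_eq_of_ne e]) (by simp)]
        simp [b]
    | zero => exact ⟨0, fun S h => absurd rfl h, by simp⟩
    | add x z _ _ h1 h2 =>
      obtain ⟨c, h1, rfl⟩ := h1
      obtain ⟨d, h2, rfl⟩ := h2
      refine ⟨c + d, fun S hS => ?_, by simp [add_mul, Finset.sum_add_distrib]⟩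
      rw [Pi.add_apply] at hS ⊢
      by_cases e1 : c S = 0
      · rw [e1, zero_add] at hS ⊢
        exact h2 S hS
      by_cases e2 : d S = 0
      · rw [e2, add_zero] at hS ⊢
        exact h1 S hS
      have := h1 S e1
      have := h2 S e2
      have := natDegree_add_le (c S) (d S)
      omega
    | smul a x _ h =>
      obtain ⟨c, h, rfl⟩ := h
      refine ⟨a • c, fun S hS => ?_, by simp [Finset.smul_sum]⟩
      have := h S fun e => hS (by rw [Pi.smul_apply, e, smul_zero])
      have := natDegree_smul_le a (c S)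
      rw [Pi.smul_apply]
      omega
  · rintro ⟨c, h, rfl⟩
    exact sum_mem fun S _ => D.filt_term (h S)

theorem finrank_V (N : ℕ) : Module.finrank F (D.V N) = ∑ S : Finset ι, (N + 1 - S.card) := by
  rw [filt_V_eq, finrank_span_eq_card (D.ind.comp _ ?_)]
  · simp
  · rintro ⟨S, k, hk⟩ ⟨T, l, hl⟩ h
    obtain ⟨rfl, rfl⟩ := Prod.mk.inj h
    rfl

theorem finrank_V_two (D : Dat F E (Fin 2)) {m : ℕ} (hm : 1 ≤ m) :
    Module.finrank F (D.V m) = 4 * m := by
  rw [finrank_V, filt_sum2, Finset.card_pair (by decide)]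
  simp only [Finset.card_empty, Finset.card_singleton]
  omega

/-- The filtration inside the coordinate ring. -/
def filtU (N : ℕ) : Submodule F D.R := (D.V N).comap D.R.val.toLinearMap

omit [CharZero F] in
theorem filt_finrank (N : ℕ) : Module.finrank F (D.filtU N) = Module.finrank F (D.V N) :=
  (Submodule.comapSubtypeEquivOfLe (D.V_le N)).finrank_eq

omit [CharZero F] in
theorem filt_finite (N : ℕ) : Module.Finite F (D.filtU N) :=
  have := D.V_finite N
  Module.Finite.equiv (Submodule.comapSubtypeEquivOfLe (D.V_le N)).symm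

theorem filt_main {I : Ideal D.R} (hI : I ≠ ⊥) (m : ℕ) : ∃ N, codim F I + Module.finrank F
    (D.filtU (N + m) ⊓ I.restrictScalars F : Submodule F D.R) =
      Module.finrank F (D.filtU N) + 2 ^ Fintype.card ι * m := by
  have := D.finite_quot hI
  let π : D.R →ₗ[F] D.R ⧸ I := (Ideal.Quotient.mkₐ F I).toLinearMap
  let W : ℕ →o Submodule F (D.R ⧸ I) := ⟨fun N => (D.filtU N).map π, fun N M h =>
    Submodule.map_mono (Submodule.comap_mono (D.V_mono h))⟩
  obtain ⟨n, hn⟩ := (Module.Finite.fg_top (R := F) (M := D.R ⧸ I)).stabilizes_of_iSup_eq W (by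
    refine eq_top_iff.2 fun x _ => ?_
    obtain ⟨x, rfl⟩ := Ideal.Quotient.mk_surjective x
    obtain ⟨N, hN⟩ := D.exists_V x.2
    exact Submodule.mem_iSup_of_mem N ⟨x, hN, rfl⟩)
  refine ⟨n + Fintype.card ι, ?_⟩
  generalize hN : n + Fintype.card ι = N
  have := D.filt_finite (N + m)
  have h1 := LinearMap.finrank_range_add_finrank_ker (π.domRestrict (D.filtU (N + m)))
  have h2 : (D.filtU (N + m)).map π = ⊤ := eq_top_iff.2 (hn.le.trans (W.2 (by omega)))
  have h3 : LinearMap.ker π = I.restrictScalars F := by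
    ext x
    exact Ideal.Quotient.eq_zero_iff_mem
  rw [LinearMap.range_domRestrict, h2, finrank_top, LinearMap.ker_domRestrict, h3,
    ← Submodule.finrank_map_subtype_eq, Submodule.map_comap_subtype] at h1
  rw [codim, h1, filt_finrank, filt_finrank, finrank_V, finrank_V, ← Fintype.card_finset,
    ← smul_eq_mul, ← Finset.card_univ, ← Finset.sum_const, ← Finset.sum_add_distrib]
  refine Finset.sum_congr rfl fun S _ => ?_
  have := S.card_le_univ
  omega

omit [CharZero F] in
theorem filt_map {α : D.R} (h0 : α ≠ 0) (N : ℕ) :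
    Module.finrank F ((D.filtU N).map (LinearMap.mulLeft F α)) = Module.finrank F (D.filtU N) :=
  (Submodule.equivMapOfInjective _ (mul_right_injective₀ h0) _).finrank_eq.symm

omit [CharZero F] in
theorem filt_map_le {α : D.R} {m : ℕ} (hα : (α : E) ∈ D.V m) (N : ℕ) :
    (D.filtU N).map (LinearMap.mulLeft F α) ≤
      D.filtU (N + m) ⊓ (Ideal.span {α}).restrictScalars F := by
  rintro _ ⟨x, hx, rfl⟩
  exact ⟨add_comm m N ▸ D.V_mul hα hx, Ideal.mul_mem_right _ _ (Ideal.mem_span_singleton_self α)⟩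

theorem codim_span_le {α : D.R} (h0 : α ≠ 0) {m : ℕ} (hα : (α : E) ∈ D.V m) :
    codim F (Ideal.span {α}) ≤ 2 ^ Fintype.card ι * m := by
  obtain ⟨N, h⟩ := D.filt_main (I := Ideal.span {α}) (by simpa using h0) m
  have := D.filt_finite (N + m)
  have := Submodule.finiteDimensional_inf_left (D.filtU (N + m))
    ((Ideal.span {α}).restrictScalars F)
  have h1 := Submodule.finrank_mono (D.filt_map_le hα N)
  rw [D.filt_map h0] at h1
  omega

theorem codim_span_eq {α : D.R} (h0 : α ≠ 0) {m : ℕ} (hα : (α : E) ∈ D.V m)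
    (h : ∀ (N : ℕ) (x : D.R), (α : E) * x ∈ D.V (N + m) → (x : E) ∈ D.V N) :
    codim F (Ideal.span {α}) = 2 ^ Fintype.card ι * m := by
  obtain ⟨N, h1⟩ := D.filt_main (I := Ideal.span {α}) (by simpa using h0) m
  have h2 : (D.filtU N).map (LinearMap.mulLeft F α) =
      D.filtU (N + m) ⊓ (Ideal.span {α}).restrictScalars F := by
    refine le_antisymm (D.filt_map_le hα N) fun x hx => ?_
    obtain ⟨z, rfl⟩ := Ideal.mem_span_singleton.1 hx.2
    exact ⟨z, h N z hx.1, rfl⟩
  rw [← h2, D.filt_map h0] at h1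
  omega

set_option linter.unusedSectionVars false in
theorem exists_mem_V {I : Ideal D.R} (hI : I ≠ ⊥) {N : ℕ}
    (h : codim F I < Module.finrank F (D.V N)) : ∃ x : D.R, x ∈ I ∧ x ≠ 0 ∧ (x : E) ∈ D.V N := by
  have := D.finite_quot hI
  obtain ⟨x, h1, h2, h3⟩ := exists_mem_of_codim_lt (D.filt_finrank N ▸ h)
  exact ⟨x, h2, h3, h1⟩

end Pool.Agent.MP_e6b751_nt.Dat
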