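import Pool.Agent.MP_e6b751_nt.Filt

namespace Pool.Agent.MP_e6b751_nt.Dat

open Polynomial

variable {F E : Type} [Field F] [CharZero F] [Field E] [Algebra F E]

theorem filt2_zero (D : Dat F E (Fin 2)) {p0 p1 p2 p3 : F[X]}
    (h : aeval D.s p0 + aeval D.s p1 * D.y 0 + aeval D.s p2 * D.y 1 +
      aeval D.s p3 * (D.y 0 * D.y 1) = 0) : p1 = 0 ∧ p3 = 0 := by
  let c : Finset (Fin 2) → F[X] := fun S =>
    if S = ∅ then p0 else if S = {0} then p1 else if S = {1} then p2 else p3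
  have c0 : c ∅ = p0 := rfl
  have c1 : c {0} = p1 := rfl
  have c2 : c {1} = p2 := rfl
  have c3 : c {0, 1} = p3 := rfl
  have := D.coeff_zero (c := c) (by
    rw [filt_sum2, c0, c1, c2, c3, Finset.prod_pair (by decide)]
    simpa using h)
  exact ⟨c1 ▸ this {0}, c3 ▸ this {0, 1}⟩

omit [CharZero F] in
theorem filt2_one (D : Dat F E (Fin 2)) {x : E} (h : x ∈ D.V 1) : ∃ (A : F[X]) (u v : F),
    x = aeval D.s A + algebraMap F E u * D.y 0 + algebraMap F E v * D.y 1 := by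
  obtain ⟨c, hc, rfl⟩ := D.mem_V_iff.1 h
  have k : ∀ i, ∃ u, c {i} = C u := fun i => by
    by_cases e : c {i} = 0
    · exact ⟨0, by rw [e, C_0]⟩
    · have := hc _ e
      rw [Finset.card_singleton] at this
      exact ⟨_, eq_C_of_natDegree_eq_zero (by omega)⟩
  have k3 : c {0, 1} = 0 := by
    by_contra e
    have := hc _ e
    rw [Finset.card_pair (by decide)] at this
    omega
  obtain ⟨u, hu⟩ := k 0
  obtain ⟨v, hv⟩ := k 1
  exact ⟨c ∅, u, v, by simp [filt_sum2, hu, hv, k3]⟩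

/-- On the curve of genus one, a function with at most a simple pole at a point is constant. -/
theorem genus_one (D : Dat F E (Fin 2)) {c : F} {a : Fin 2 → F} {φ : E}
    (h₀ : φ * (D.s - algebraMap F E c) ∈ D.V 1)
    (h₁ : ∀ i, φ * (D.y i - algebraMap F E (a i)) ∈ D.V 1) : φ ∈ (algebraMap F E).range := by
  obtain ⟨A, u, v, e⟩ := D.filt2_one h₀
  obtain ⟨A0, u0, v0, e0⟩ := D.filt2_one (h₁ 0)
  obtain ⟨A1, u1, v1, e1⟩ := D.filt2_one (h₁ 1)
  obtain ⟨k1, k2⟩ := D.filt2_zero (p0 := C u * D.q 0 - C (a 0) * A - (X - C c) * A0)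
    (p1 := A - C (a 0) * C u - (X - C c) * C u0) (p2 := -(C (a 0) * C v) - (X - C c) * C v0)
    (p3 := C v) (by
      simp only [map_sub, map_mul, map_neg, aeval_C, aeval_X, ← D.sq]
      linear_combination (D.s - algebraMap F E c) * e0 - (D.y 0 - algebraMap F E (a 0)) * e)
  obtain ⟨-, k3⟩ := D.filt2_zero (p0 := C v * D.q 1 - C (a 1) * A - (X - C c) * A1)
    (p1 := -(C (a 1) * C u) - (X - C c) * C u1) (p2 := A - C (a 1) * C v - (X - C c) * C v1)
    (p3 := C u) (by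
      simp only [map_sub, map_mul, map_neg, aeval_C, aeval_X, ← D.sq]
      linear_combination (D.s - algebraMap F E c) * e1 - (D.y 1 - algebraMap F E (a 1)) * e)
  rw [k3, mul_zero, sub_zero, sub_eq_zero] at k1
  rw [C_eq_zero.1 k2, C_eq_zero.1 k3, k1] at e
  have hs : D.s - algebraMap F E c ≠ 0 := fun h =>
    D.tr ⟨X - C c, X_sub_C_ne_zero c, by simpa using h⟩
  refine ⟨u0, mul_right_cancel₀ hs ?_⟩
  rw [e]
  simp [mul_comm]

end Pool.Agent.MP_e6b751_nt.Dat
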