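import Pool.Agent.MP_e6b751_nt.Final

open scoped TensorProduct
open Pool.Agent.MP_e6b751_nt

/-- Over a finitely generated field `k` of characteristic zero: a smooth geometrically integral
affine surface `Spec A` and a finite extension `k' / k` such that `1280` lies in the density degree
set over `k` but not in the density degree set over `k'`. -/
theorem Pool.Agent.Results.MP_e6b751_nt.FinGenField.result :
    ∃ (k : Type) (_ : Field k) (_ : CharZero k)
      (_ : ∃ s : Finset k, Subfield.closure (s : Set k) = ⊤)
      (A : Type) (_ : CommRing A) (_ : Algebra k A),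
      Algebra.Smooth k A ∧ IsDomain (AlgebraicClosure k ⊗[k] A) ∧ ringKrullDim A = 2 ∧
        ∃ (k' : Type) (_ : Field k') (_ : Algebra k k'), Module.Finite k k' ∧
          1280 ∈ delta k A ∧ 1280 ∉ delta k' (k' ⊗[k] A) :=
  main_thm
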