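import Pool.Agent.MP_e6b751_nt.Desc2

namespace Pool.Agent.MP_e6b751_nt

open scoped Pointwise TensorProduct

theorem nopt_dvd {F R E : Type} [Field F] [CommRing R] [Algebra F R] [Field E] [Algebra F E]
    (ψ : R →ₐ[F] E) {I : Ideal R} (hI : I.IsMaximal) (h : ∀ x ∈ I, ψ x = 0) :
    codim F I ∣ Module.finrank F E := by
  let _ := Ideal.Quotient.field I
  let _ : Algebra (R ⧸ I) E := (Ideal.Quotient.liftₐ I ψ h).toRingHom.toAlgebra
  have : IsScalarTower F (R ⧸ I) E :=
    IsScalarTower.of_algebraMap_eq fun a => ((Ideal.Quotient.liftₐ I ψ h).commutes a).symm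
  exact Dvd.intro _ (Module.finrank_mul_finrank F (R ⧸ I) E)

theorem nopt_fin {K B O : Type} [Field K] [CommRing B] [Algebra K B] [Field O] [Algebra K O]
    (ev : B →ₐ[K] O) {S : Set B} (hS : Submodule.span K S = ⊤) {u : Set O} (hu : u.Finite)
    (h : ∀ x ∈ S, ev x ∈ Submodule.span K u) :
    (RingHom.ker ev).IsMaximal ∧ Module.Finite K (B ⧸ RingHom.ker ev) := by
  have h1 : ∀ x, ev x ∈ Submodule.span K u := fun x =>
    (Submodule.span_le (p := (Submodule.span K u).comap ev.toLinearMap)).2 h
      (hS ▸ Submodule.mem_top)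
  have h2 : ∀ y, (Ideal.kerLiftAlg ev).toLinearMap y ∈ Submodule.span K u := fun y => by
    obtain ⟨x, rfl⟩ := Ideal.Quotient.mk_surjective y
    exact h1 x
  have := Module.Finite.span_of_finite K hu
  have h3 : Module.Finite K (B ⧸ RingHom.ker ev) := Module.Finite.of_injective
    (LinearMap.codRestrict _ _ h2) fun a b hab =>
      Ideal.kerLiftAlg_injective ev (congrArg Subtype.val hab)
  have := RingHom.ker_isPrime ev
  exact ⟨Ideal.Quotient.maximal_of_isField _
    (isField_of_isIntegral_of_isField' (Field.toIsField K)), h3⟩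

/-- A ring homomorphism whose image lies in the image of a field. -/
theorem nopt_fac {R E O : Type} [CommRing R] [Field E] [Field O] (j : E →+* O) (f : R →+* O)
    (h : ∀ x, f x ∈ j.range) : ∃ ψ : R →+* E, ∀ x, j (ψ x) = f x := by
  choose ψ hψ using h
  exact ⟨⟨⟨⟨ψ, j.injective (by simp [hψ])⟩, fun x y => j.injective (by simp [hψ])⟩,
    j.injective (by simp [hψ]), fun x y => j.injective (by simp [hψ])⟩, hψ⟩

theorem nopt_comp (F K E : Type) [Field F] [Field K] [Field E] [Algebra F K] [Algebra F E]
    [FiniteDimensional F K] : ∃ (O : Type) (_ : Field O) (j : E →+* O) (ι : K →+* O),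
      ∀ a : F, ι (algebraMap F K a) = j (algebraMap F E a) := by
  let ι : K →ₐ[F] AlgebraicClosure E := IsAlgClosed.lift
  exact ⟨AlgebraicClosure E, inferInstance, algebraMap E _, ι, fun a => ι.commutes a⟩

theorem nopt_ev (G k K B : Type) [Group G] [Finite G] [Field k] [Field K]
    [Algebra k K] [MulSemiringAction G K] [IsGaloisGroup G k K] [CommRing B] [Algebra K B]
    [Algebra k B] [IsScalarTower k K B] [MulSemiringAction G B] [SMulCommClass G k B]
    (hc : ∀ (g : G) (a : K), g • algebraMap K B a = algebraMap K B (g • a))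
    {O : Type} [Field O] [Algebra K O] (φ : FixedPoints.subalgebra k B G →+* O)
    (h : ∀ a, φ (algebraMap k _ a) = algebraMap K O (algebraMap k K a)) :
    ∃ ev : B →ₐ[K] O, ∀ x : FixedPoints.subalgebra k B G, ev x = φ x := by
  let _ : Algebra k O := ((algebraMap K O).comp (algebraMap k K)).toAlgebra
  have : IsScalarTower k K O := IsScalarTower.of_algebraMap_eq fun _ => rfl
  obtain ⟨e, he⟩ := desc_equiv G k K B hc
  refine ⟨(Algebra.TensorProduct.lift (Algebra.ofId K O) ⟨φ, h⟩ fun _ _ => Commute.all _ _).comp
    e.symm.toAlgHom, fun x => ?_⟩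
  rw [← he x]
  simp

/-- A point of the descended curve with values in a finite extension `E` of the fixed field of
`H` gives a point of the curve over `K`. -/
theorem exists_max (G k K B : Type) [Group G] [Finite G] [Field k] [Field K] [CharZero K]
    [Algebra k K] [MulSemiringAction G K] [IsGaloisGroup G k K] [CommRing B] [Algebra K B]
    [Algebra k B] [IsScalarTower k K B] [MulSemiringAction G B] [SMulCommClass G k B]
    (hc : ∀ (g : G) (a : K), g • algebraMap K B a = algebraMap K B (g • a)) (H : Subgroup G)
    (E : Type) [Field E] [Algebra k E]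
    [Algebra (FixedPoints.intermediateField H : IntermediateField k K) E]
    [IsScalarTower k (FixedPoints.intermediateField H : IntermediateField k K) E]
    [FiniteDimensional (FixedPoints.intermediateField H : IntermediateField k K) E]
    (φ : FixedPoints.subalgebra k B G →ₐ[k] E) :
    ∃ 𝔪 : Ideal B, 𝔪.IsMaximal ∧ Module.Finite K (B ⧸ 𝔪) ∧
      (MulAction.stabilizer H 𝔪).index * codim K 𝔪 ∣
        Module.finrank (FixedPoints.intermediateField H : IntermediateField k K) E := by
  have := IsGaloisGroup.finiteDimensional H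
    (FixedPoints.intermediateField H : IntermediateField k K) K
  obtain ⟨O, _, j, ι, hι⟩ :=
    nopt_comp (FixedPoints.intermediateField H : IntermediateField k K) K E
  replace hι : ∀ a : (FixedPoints.intermediateField H : IntermediateField k K),
    ι a = j (algebraMap _ E a) := hι
  have hsc : SMulCommClass H (FixedPoints.intermediateField H : IntermediateField k K) B := by
    refine ⟨fun h c x => ?_⟩
    have e : (h : G) • (c : K) = c := c.2 h
    change (h : G) • (c : K) • x = (c : K) • (h : G) • x
    rw [Algebra.smul_def, Algebra.smul_def, smul_mul', hc, e]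
  have hc' : ∀ (g : H) (a : K), g • algebraMap K B a = algebraMap K B (g • a) := fun g a => hc g a
  let _ : Algebra K O := ι.toAlgebra
  obtain ⟨ev, hev⟩ := nopt_ev G k K B hc (j.comp φ.toRingHom) fun a => by
    change j (φ (algebraMap k _ a)) = ι (algebraMap k
      (FixedPoints.intermediateField H : IntermediateField k K) a)
    rw [hι, φ.commutes, ← IsScalarTower.algebraMap_apply]
  obtain ⟨u, hu⟩ := Module.Finite.fg_top
    (R := (FixedPoints.intermediateField H : IntermediateField k K)) (M := E)
  have hj : ∀ y : E, j y ∈ Submodule.span K (j '' (u : Set E)) := fun y => by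
    have hy : y ∈ Submodule.span (FixedPoints.intermediateField H : IntermediateField k K)
      (u : Set E) := hu ▸ Submodule.mem_top
    induction hy using Submodule.span_induction with
    | mem y hy => exact Submodule.subset_span ⟨y, hy, rfl⟩
    | zero => rw [map_zero]; exact zero_mem _
    | add y z _ _ hy hz => rw [map_add]; exact add_mem hy hz
    | smul a y _ hy =>
      rw [Algebra.smul_def, map_mul, ← hι]
      exact Submodule.smul_mem _ (a : K) hy
  obtain ⟨h1, h2⟩ := nopt_fin ev (desc_span G k K B hc) (u.finite_toSet.image j)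
    fun x hx => (hev ⟨x, hx⟩).symm ▸ hj _
  refine ⟨_, h1, h2, ?_⟩
  have h3 := desc_codim H (FixedPoints.intermediateField H : IntermediateField k K) K B hc' h1
  have h4 := desc_isMaximal H (FixedPoints.intermediateField H : IntermediateField k K) B h1
  obtain ⟨ψ, hψ⟩ := nopt_fac j (ev.toRingHom.comp (FixedPoints.subalgebra
      (FixedPoints.intermediateField H : IntermediateField k K) B H).val.toRingHom) fun x => by
    obtain ⟨n, c, z, h5, h6⟩ := desc_fixed G k K B hc H (x := x) fun h hh => x.2 ⟨h, hh⟩
    change ev x ∈ j.range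
    rw [h6, map_sum]
    refine Subring.sum_mem _ fun i _ => ?_
    rw [map_mul, ev.commutes, hev]
    exact mul_mem ⟨_, (hι ⟨c i, fun h => h5 i h h.2⟩).symm⟩ ⟨_, rfl⟩
  refine h3 ▸ nopt_dvd ⟨ψ, fun a => j.injective ?_⟩ h4 fun x hx => j.injective ?_
  · exact (hψ _).trans ((ev.commutes (a : K)).trans (hι a))
  · exact (hψ x).trans (hx.trans j.map_zero.symm)

end Pool.Agent.MP_e6b751_nt
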