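import Pool.Agent.MP_e6b751_nt.Setup
import Pool.Agent.MP_e6b751_nt.Ell

namespace Pool.Agent.MP_e6b751_nt

open Polynomial IntermediateField

lemma setup2_mem {K : Type} [Field K] [CharZero K] (S : Subfield K) {p z : K} (hp : p ∈ S)
    (hz : z ∈ ℚ⟮p⟯) : z ∈ S :=
  (adjoin_simple_le_iff (K := S.toIntermediateField fun q => by simp).2 hp) hz

variable {K Ω : Type} [Field K] [CharZero K] [Field Ω] [CharZero Ω] [Algebra K Ω]
  [Algebra K (LS Ω)] [IsScalarTower K Ω (LS Ω)]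

variable {x : W → K} {D : Dat K (LS Ω) I10} {η : I10 → Ω}

omit [CharZero Ω] [IsScalarTower K Ω (LS Ω)] in
theorem Main.exists_psi (h : Main x D η) (ρ : Equiv.Perm (Fin 5) →* RingAut K)
    (hρ : ∀ h σ i, ρ h (x (σ, i)) = x (h σ, i)) :
    ∃ ψ : Equiv.Perm (Fin 5) →* RingAut D.R, ∀ g,
      (∀ a, ψ g (algebraMap K D.R a) = algebraMap K D.R (ρ g a)) ∧ ψ g D.sR = D.sR ∧
        ∀ σ i, ψ g (D.yR (σ, i)) = D.yR (g σ, i) := by
  have key : ∀ g : Equiv.Perm (Fin 5), ∃ φ : D.R →+* D.R,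
      (∀ a, φ (algebraMap K D.R a) = algebraMap K D.R (ρ g a)) ∧ φ D.sR = D.sR ∧
        ∀ p : I10, φ (D.yR p) = D.yR (g p.1, p.2) := by
    intro g
    refine D.lift ((algebraMap K D.R).comp (ρ g : K ≃+* K).toRingHom) D.sR
      (fun p => D.yR (g p.1, p.2)) fun p => ?_
    rw [D.sqR, ← eval₂_map, h.hq, h.hq, qx, qx, qq_map, aeval_def]
    simp [hρ]
  choose φ h0 h1 h2 using key
  have e1 : φ 1 = RingHom.id _ := D.hom_ext (by simp [h0]) (by simp [h1]) (by simp [h2])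
  have e2 : ∀ g g', φ (g * g') = (φ g).comp (φ g') := fun g g' =>
    D.hom_ext (by simp [h0]) (by simp [h1]) (by simp [h2])
  refine ⟨MonoidHom.mk' (fun g => RingEquiv.ofRingHom (φ g) (φ g⁻¹)
    (by rw [← e2, mul_inv_cancel, e1]) (by rw [← e2, inv_mul_cancel, e1])) fun g g' => ?_,
    fun g => ⟨h0 g, h1 g, fun σ i => h2 g (σ, i)⟩⟩
  ext a : 1
  exact RingHom.congr_fun (e2 g g') a

omit [CharZero Ω] [IsScalarTower K Ω (LS Ω)] in
theorem Main.exists_pts (h : Main x D η) (ρ : Equiv.Perm (Fin 5) →* RingAut K)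
    (hρ : ∀ h σ i, ρ h (x (σ, i)) = x (h σ, i)) :
    ∃ (c : ℕ → K) (a : ℕ → Fin 2 → K), Function.Injective c ∧ ∀ n,
      (D.res (emb 0)).IsPt (c n) (a n) ∧
      (∀ g, g 0 = 0 → ρ g (c n) = c n ∧ ∀ i, ρ g (a n i) = a n i) ∧
      ∀ g, ρ g (c n) = c n → g 0 = 0 := by
  obtain ⟨γ, Y₁, Y₂, hinj, hγ⟩ := ell_points (h.ind.transcendental (0, 0))
  have hnot : ∀ {T : Set W} {w : W}, w ∉ T → x w ∉ KT x T := fun hw hx =>
    KT_tr h.ind hw (isAlgebraic_algebraMap (⟨_, hx⟩ : KT x _))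
  have hne : ∀ n, γ n - x (0, 2) ≠ 0 := fun n e => by
    refine hnot (T := {(0, 0)}) (w := (0, 2)) (by decide) ?_
    rw [← sub_eq_zero.1 e]
    exact setup2_mem (KT x _).toSubfield (x_mem_KT rfl) (hγ n).1
  have hp := (x_ne h.ind 0).1
  refine ⟨fun n => x (0, 1) + (γ n - x (0, 2))⁻¹,
    fun n => ![(γ n - x (0, 2))⁻¹ * Y₁ n, (γ n - x (0, 2))⁻¹ * Y₂ n], fun n m e => ?_, fun n => ?_⟩
  · exact hinj (sub_left_injective (inv_injective (add_left_cancel e)))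
  obtain ⟨a0, a1, a2, e1, e2⟩ := hγ n
  have hn := hne n
  refine ⟨fun i => ?_, fun g hg => ?_, fun g hg => ?_⟩
  · have hf : x (0, 2) * (γ n - x (0, 2))⁻¹ + 1 = (γ n - x (0, 2))⁻¹ * γ n := by
      field_simp
      ring
    change _ = (D.q (0, i)).eval _
    rw [h.hq, qx]
    fin_cases i
    · simp only [Fin.zero_eta, qq_eval_zero, add_sub_cancel_left, hf, Matrix.cons_val_zero]
      generalize (γ n - x (0, 2))⁻¹ = f
      rw [← e1]
      generalize x (0, 0) ^ 3 - x (0, 0) = k at hp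
      field_simp
    · simp only [Fin.mk_one, qq_eval_one, add_sub_cancel_left, hf, Matrix.cons_val_one,
        Matrix.cons_val_zero]
      rw [mul_pow, e2]
      ring
  · have hx : ∀ i, ρ g (x (0, i)) = x (0, i) := fun i => by rw [hρ, hg]
    have fx : ∀ z ∈ ℚ⟮x (0, 0)⟯, ρ g z = z := fun z hz =>
      setup2_mem ((ρ g : K ≃+* K).toRingHom.eqLocusField (RingHom.id K)) (hx 0) hz
    refine ⟨by simp [hx, fx _ a0], fun i => ?_⟩
    fin_cases i <;> simp [hx, fx _ a0, fx _ a1, fx _ a2]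
  · by_contra hg0
    have m : ∀ σ i, (σ, i) ≠ ((0, 1) : W) → x (σ, i) ∈ KT x {(0, 1)}ᶜ := fun σ i e => x_mem_KT e
    have m' : ∀ i, ρ g (x (0, i)) ∈ KT x {(0, 1)}ᶜ := fun i => by
      rw [hρ]
      exact m _ _ fun e => hg0 (Prod.mk.inj e).1
    have b1 : γ n ∈ KT x {(0, 1)}ᶜ := setup2_mem (KT x _).toSubfield (m 0 0 (by decide)) a0
    have b2 : ρ g (γ n) ∈ KT x {(0, 1)}ᶜ :=
      setup2_mem ((KT x {(0, 1)}ᶜ).toSubfield.comap (ρ g : K ≃+* K).toRingHom) (m' 0) a0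
    refine hnot (T := {(0, 1)}ᶜ) (w := (0, 1)) (by simp) ?_
    rw [eq_sub_of_add_eq hg.symm, map_add, map_inv₀, map_sub]
    exact sub_mem (add_mem (m' 1) (inv_mem (sub_mem b2 (m' 2))))
      (inv_mem (sub_mem b1 (m 0 2 (by decide))))

end Pool.Agent.MP_e6b751_nt
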