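import Pool.Agent.MP_e6b751_nt.Codim

namespace Pool.Agent.MP_e6b751_nt

open Polynomial
open scoped TensorProduct

variable {k A : Type} [Field k] [CommRing A] [Algebra k A] (Δ : A)

theorem surf_smooth {K B : Type} [Field K] [Algebra k K] [CommRing B] [Algebra K B]
    (e : K ⊗[k] A ≃ₐ[K] B) (h : Algebra.Smooth K (Localization.Away (e (1 ⊗ₜ Δ)))) :
    Algebra.Smooth k (Localization.Away Δ)[X] := by
  have e1 := IsLocalization.Away.tensorProductEquivTMulRight k K Δ (Localization.Away Δ)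
  have e2 : Localization.Away ((1 : K) ⊗ₜ[k] Δ) ≃ₐ[K] Localization.Away (e (1 ⊗ₜ Δ)) :=
    IsLocalization.algEquivOfAlgEquiv (M := Submonoid.powers ((1 : K) ⊗ₜ[k] Δ))
      (T := Submonoid.powers (e (1 ⊗ₜ Δ))) _ _ e (Submonoid.map_powers _ _)
  have h1 : Algebra.Smooth K (K ⊗[k] Localization.Away Δ) := .of_equiv (e1.trans e2).symm
  have h2 : Algebra.Smooth k (Localization.Away Δ) :=
    .of_smooth_tensorProduct_of_faithfullyFlat K
  have h3 : Algebra.Smooth (Localization.Away Δ) (Localization.Away Δ)[X] :=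
    ⟨inferInstance, inferInstance⟩
  exact .comp k (Localization.Away Δ) _

theorem surf_domain {K B : Type} [Field K] [Algebra k K] [Algebra.IsAlgebraic k K] [CommRing B]
    [Algebra K B] (e : K ⊗[k] A ≃ₐ[K] B) (hΔ : Δ ≠ 0)
    (h : ∀ (L : Type) [Field L] [Algebra K L], IsDomain (L ⊗[K] B)) :
    IsDomain (AlgebraicClosure k ⊗[k] (Localization.Away Δ)[X]) := by
  let φ : K →ₐ[k] AlgebraicClosure k := IsAlgClosed.lift
  let _ : Algebra K (AlgebraicClosure k) := φ.toRingHom.toAlgebra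
  have : IsScalarTower k K (AlgebraicClosure k) := .of_algebraMap_eq fun x => (φ.commutes x).symm
  have h0 := h (AlgebraicClosure k)
  have e1 : AlgebraicClosure k ⊗[K] (K ⊗[k] A) ≃ₐ[K] AlgebraicClosure k ⊗[K] B :=
    Algebra.TensorProduct.congr AlgEquiv.refl e
  have e2 := Algebra.TensorProduct.cancelBaseChange k K (AlgebraicClosure k)
    (AlgebraicClosure k) A
  have h1 : IsDomain (AlgebraicClosure k ⊗[K] (K ⊗[k] A)) := e1.toMulEquiv.isDomain _
  have h2 : IsDomain (AlgebraicClosure k ⊗[k] A) := e2.symm.toMulEquiv.isDomain _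
  have h3 : ((1 : AlgebraicClosure k) ⊗ₜ[k] Δ) ≠ 0 := fun h4 => hΔ
    (Algebra.TensorProduct.includeRight_injective (A := AlgebraicClosure k)
      (algebraMap k (AlgebraicClosure k)).injective (h4.trans (map_zero _).symm))
  have h4 : IsDomain (Localization.Away ((1 : AlgebraicClosure k) ⊗ₜ[k] Δ)) :=
    IsLocalization.isDomain_localization (powers_le_nonZeroDivisors_of_noZeroDivisors h3)
  have e3 := IsLocalization.Away.tensorProductEquivTMulRight k (AlgebraicClosure k) Δ
    (Localization.Away Δ)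
  have h5 : IsDomain (AlgebraicClosure k ⊗[k] Localization.Away Δ) := e3.toMulEquiv.isDomain _
  have e4 : AlgebraicClosure k ⊗[k] (Localization.Away Δ)[X] ≃ₐ[k]
      AlgebraicClosure k ⊗[k] (Localization.Away Δ ⊗[k] k[X]) :=
    Algebra.TensorProduct.congr AlgEquiv.refl (polyEquivTensor k (Localization.Away Δ))
  have e5 := Algebra.TensorProduct.assoc k k k (AlgebraicClosure k) (Localization.Away Δ) k[X]
  have e6 := polyEquivTensor k (AlgebraicClosure k ⊗[k] Localization.Away Δ)
  exact (e4.trans (e5.symm.trans e6.symm)).toMulEquiv.isDomain _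

theorem surf_dim [IsDomain A] [Ring.DimensionLEOne A] (hΔ : Δ ≠ 0)
    [IsNoetherianRing (Localization.Away Δ)] {𝔫 : Ideal A} (h𝔫 : 𝔫.IsPrime) (h0 : 𝔫 ≠ ⊥)
    (h1 : Δ ∉ 𝔫) : ringKrullDim (Localization.Away Δ)[X] = 2 := by
  have hM : Submonoid.powers Δ ≤ nonZeroDivisors A :=
    powers_le_nonZeroDivisors_of_noZeroDivisors hΔ
  have : IsDomain (Localization.Away Δ) := IsLocalization.isDomain_localization hM
  have : Ring.DimensionLEOne (Localization.Away Δ) :=
    Ring.DimensionLEOne.localization (Localization.Away Δ) hM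
  have hd : Disjoint (Submonoid.powers Δ : Set A) 𝔫 := by
    rw [Set.disjoint_left]
    rintro _ ⟨n, rfl⟩ hn
    exact h1 (h𝔫.mem_of_pow_mem n hn)
  have hp : (𝔫.map (algebraMap A (Localization.Away Δ))).IsPrime :=
    IsLocalization.isPrime_of_isPrime_disjoint (Submonoid.powers Δ) _ 𝔫 h𝔫 hd
  have hb : 𝔫.map (algebraMap A (Localization.Away Δ)) ≠ ⊥ := fun h2 =>
    h0 ((Ideal.map_eq_bot_iff_of_injective
      (IsLocalization.injective (Localization.Away Δ) hM)).1 h2)
  have h2 : ringKrullDim (Localization.Away Δ) = 1 := by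
    refine le_antisymm (Ring.krullDimLE_iff.1 inferInstance) ?_
    exact Order.one_le_krullDim_iff.2
      ⟨(⟨⊥, Ideal.isPrime_bot⟩ : PrimeSpectrum (Localization.Away Δ)), ⟨_, hp⟩, hb.bot_lt⟩
  rw [Polynomial.ringKrullDim_of_isNoetherianRing, h2]
  rfl

end Pool.Agent.MP_e6b751_nt
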