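import Pool.Agent.MP_e6b751_nt.Codim

namespace Pool.Agent.MP_e6b751_nt

open Polynomial
open scoped TensorProduct

variable {k A : Type} [Field k] [CommRing A] [Algebra k A] (Δ : A)

theorem surf2_lift {𝔫 : Ideal A} (hm : 𝔫.IsMaximal) (hΔ : Δ ∉ 𝔫) :
    ∃ φ : Localization.Away Δ →ₐ[k] A ⧸ 𝔫,
      ∀ z : A, φ (algebraMap A (Localization.Away Δ) z) = Ideal.Quotient.mk 𝔫 z := by
  let _ := Ideal.Quotient.field 𝔫
  have hu : IsUnit (Ideal.Quotient.mkₐ k 𝔫 Δ) :=
    IsUnit.mk0 _ fun h => hΔ (Ideal.Quotient.eq_zero_iff_mem.1 h)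
  exact ⟨IsLocalization.Away.liftAlgHom Δ hu, fun z => IsLocalization.Away.lift_eq Δ hu z⟩

theorem surf_dense [Infinite k] {d : ℕ} (hd : 1 ≤ d) {α : Type} (𝔫 : α → Ideal A)
    (hm : ∀ a, (𝔫 a).IsMaximal) (hΔ : ∀ a, Δ ∉ 𝔫 a) (hc : ∀ a, codim k (𝔫 a) = d)
    (h0 : ∀ x, (∀ a, x ∈ 𝔫 a) → x = 0) : d ∈ delta k (Localization.Away Δ)[X] := by
  refine ⟨hd, ?_⟩
  choose φ hφ using fun a => surf2_lift (k := k) Δ (hm a) (hΔ a)
  rw [PrimeSpectrum.isTopologicalBasis_basic_opens.dense_iff]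
  rintro _ ⟨f, rfl⟩ hne
  have hf : f ≠ 0 := by
    rintro rfl
    simp at hne
  have key : ∃ (a : α) (w : k), aevalTower (φ a) (algebraMap k (A ⧸ 𝔫 a) w) f ≠ 0 := by
    by_contra hcon
    push Not at hcon
    refine hf (Polynomial.ext fun j => ?_)
    have h1 : ∀ a, φ a (f.coeff j) = 0 := by
      intro a
      have := hm a
      let _ := Ideal.Quotient.field (𝔫 a)
      have h2 : f.map (φ a : Localization.Away Δ →+* A ⧸ 𝔫 a) = 0 := by
        refine Polynomial.eq_zero_of_infinite_isRoot _ ?_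
        refine (Set.infinite_range_of_injective (algebraMap k (A ⧸ 𝔫 a)).injective).mono ?_
        rintro _ ⟨w, rfl⟩
        change eval _ _ = 0
        rw [eval_map]
        exact hcon a w
      have h3 := congrArg (fun q => q.coeff j) h2
      simpa using h3
    obtain ⟨⟨z, s⟩, hz⟩ := IsLocalization.surj (Submonoid.powers Δ) (f.coeff j)
    have h2 : z = 0 := h0 z fun a => by
      have h3 := congrArg (φ a) hz
      rw [map_mul, h1, zero_mul, hφ] at h3
      exact Ideal.Quotient.eq_zero_iff_mem.1 h3.symm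
    simp only [h2, map_zero] at hz
    exact (IsLocalization.map_units (Localization.Away Δ) s).mul_left_eq_zero.1 hz
  obtain ⟨a, w, hw⟩ := key
  have := hm a
  let _ := Ideal.Quotient.field (𝔫 a)
  set ψ := aevalTower (φ a) (algebraMap k (A ⧸ 𝔫 a) w) with hψ
  have hs : Function.Surjective ψ := by
    intro y
    obtain ⟨z, rfl⟩ := Ideal.Quotient.mk_surjective y
    exact ⟨C (algebraMap A _ z), by rw [hψ, aevalTower_C, hφ]⟩
  have hmax : (RingHom.ker ψ).IsMaximal := RingHom.ker_isMaximal_of_surjective ψ hs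
  refine ⟨⟨RingHom.ker ψ, hmax.isPrime⟩, hw, hmax, ?_⟩
  rw [← hc a]
  exact (Ideal.quotientKerAlgEquivOfSurjective hs).toLinearEquiv.finrank_eq

/-- A degree in the density set is the degree of a point. -/
theorem surf_point {k' : Type} [Field k'] [Algebra k k'] [IsDomain A] (hΔ : Δ ≠ 0) {d : ℕ}
    (h : d ∈ delta k' (k' ⊗[k] (Localization.Away Δ)[X])) :
    ∃ (E : Type) (_ : Field E) (_ : Algebra k E) (_ : Algebra k' E) (_ : IsScalarTower k k' E)
      (_ : A →ₐ[k] E), 1 ≤ d ∧ Module.finrank k' E = d := by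
  have : IsDomain (Localization.Away Δ) :=
    IsLocalization.isDomain_localization (powers_le_nonZeroDivisors_of_noZeroDivisors hΔ)
  have : Nontrivial (k' ⊗[k] (Localization.Away Δ)[X]) :=
    (Algebra.TensorProduct.includeRight_injective (A := k') (B := (Localization.Away Δ)[X])
      (algebraMap k k').injective).nontrivial
  obtain ⟨x, hx, hd⟩ := h.2.nonempty
  exact ⟨_ ⧸ x.asIdeal, Ideal.Quotient.field x.asIdeal, inferInstance, inferInstance,
    inferInstance, (Ideal.Quotient.mkₐ k x.asIdeal).comp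
      (Algebra.TensorProduct.includeRight.comp
        (IsScalarTower.toAlgHom k A (Localization.Away Δ)[X])), h.1, hd⟩

end Pool.Agent.MP_e6b751_nt
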