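import Pool.Agent.MP_e6b751_nt.Lam
import Pool.Agent.MP_e6b751_nt.Core2
import Pool.Agent.MP_e6b751_nt.NoPt
import Pool.Agent.MP_e6b751_nt.Surf
import Pool.Agent.MP_e6b751_nt.Surf2
import Pool.Agent.MP_e6b751_nt.Setup2
import Pool.Agent.MP_e6b751_nt.DatB2

namespace Pool.Agent.MP_e6b751_nt

open Polynomial IntermediateField
open scoped Pointwise TensorProduct

/-- The symmetric group on five letters. -/
abbrev G5 : Type := Equiv.Perm (Fin 5)

lemma orderOf_piP_dvd : Nat.card (Subgroup.zpowers piP) ∣ 6 := by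
  rw [Nat.card_zpowers]
  exact orderOf_dvd_of_pow_eq_one (by decide)

lemma index_stab : (MulAction.stabilizer G5 (0 : Fin 5)).index = 5 := by
  rw [MulAction.index_stabilizer_of_transitive]
  simp

lemma arith_aux {r t : ℕ} (h : r * (256 * t) ∣ 1280) (hr : r ∣ 6) : r = 1 ∧ (t = 1 ∨ t = 5) := by
  have h5 : r * t ∣ 5 := by
    rw [mul_left_comm, show 1280 = 256 * 5 by norm_num] at h
    exact Nat.dvd_of_mul_dvd_mul_left (by norm_num) h
  have hr1 : r = 1 :=
    Nat.eq_one_of_dvd_coprimes (by norm_num : Nat.Coprime 5 6) (dvd_of_mul_right_dvd h5) hr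
  rw [hr1, one_mul] at h5
  exact ⟨hr1, (Nat.dvd_prime Nat.prime_five).1 h5⟩

variable {K Ω : Type} [Field K] [CharZero K] [Field Ω] [CharZero Ω] [Algebra K Ω]
  [Algebra K (LS Ω)] [IsScalarTower K Ω (LS Ω)] {x : W → K} {D : Dat K (LS Ω) I10} {η : I10 → Ω}

omit [CharZero K] [CharZero Ω] [Algebra K Ω] [IsScalarTower K Ω (LS Ω)] in
lemma ne_bot_of_finite {𝔪 : Ideal D.R} (h : Module.Finite K (D.R ⧸ 𝔪)) : 𝔪 ≠ ⊥ := by
  rintro rfl
  have h1 : IsIntegral K (Ideal.Quotient.mkₐ K (⊥ : Ideal D.R) D.sR) :=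
    Algebra.IsIntegral.isIntegral _
  obtain ⟨g, hg, h2⟩ := h1
  rw [← aeval_def, aeval_algHom_apply] at h2
  exact D.aeval_ne_zero hg.ne_zero (Ideal.Quotient.eq_zero_iff_mem.1 h2)

lemma Main.pt_max (h : Main x D η) {c : K} {a : Fin 2 → K} (hc : (D.res (emb 0)).IsPt c a) :
    (D.ext 0 ((D.res (emb 0)).pt c a)).IsMaximal ∧
      codim K (D.ext 0 ((D.res (emb 0)).pt c a)) = 256 := by
  have h1 : codim K (D.ext 0 ((D.res (emb 0)).pt c a)) = 256 := by
    rw [D.codim_ext, (D.res (emb 0)).codim_pt hc]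
  have h2 := D.ext_ne_bot 0 ((D.res (emb 0)).pt_ne_bot c a)
  refine ⟨?_, h1⟩
  have h3 : D.ext 0 ((D.res (emb 0)).pt c a) ≠ ⊤ := fun e => by
    rw [e, codim_top] at h1
    exact absurd h1 (by norm_num)
  obtain ⟨𝔪, h𝔪, hle⟩ := Ideal.exists_le_maximal _ h3
  have h4 : 𝔪 ≠ ⊥ := fun e => h2 (le_bot_iff.1 (e ▸ hle))
  have := D.finite_quot h2
  have := D.finite_quot h4
  have h5 := h.inf.core_dvd (h.good 𝔪 h4)
  have h6 : codim K 𝔪 ≠ 0 := fun e => h𝔪.ne_top (codim_eq_zero e)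
  have h7 := Nat.le_of_dvd (Nat.pos_of_ne_zero h6) h5
  rw [eq_of_codim_le hle (h1 ▸ h7)]
  exact h𝔪

omit [CharZero K] [CharZero Ω] [Algebra K Ω] [IsScalarTower K Ω (LS Ω)] in
lemma ext_pt_eq (c : K) (a : Fin 2 → K) : D.ext 0 ((D.res (emb 0)).pt c a) =
    Ideal.span (insert (D.sR - algebraMap K D.R c)
      (Set.range fun i => D.yR (0, i) - algebraMap K D.R (a i))) := by
  have e1 : D.inc (emb 0) (D.res (emb 0)).sR = D.sR := Subtype.ext rfl
  have e2 : ∀ i, D.inc (emb 0) ((D.res (emb 0)).yR i) = D.yR (0, i) := fun i => Subtype.ext rfl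
  have e : (D.inc (emb 0) ∘ fun i => (D.res (emb 0)).yR i - algebraMap K _ (a i)) =
      fun i => D.yR (0, i) - algebraMap K D.R (a i) := by
    funext i
    rw [Function.comp_apply, map_sub, AlgHom.commutes, e2]
  rw [Dat.ext, Dat.pt, Ideal.map_span, Set.image_insert_eq, ← Set.range_comp, e, map_sub,
    AlgHom.commutes, e1]

omit [CharZero K] [CharZero Ω] [Algebra K Ω] [IsScalarTower K Ω (LS Ω)] in
lemma aeval_sub_mem (c : K) (a : Fin 2 → K) (g : K[X]) :
    aeval D.sR g - algebraMap K D.R (g.eval c) ∈ D.ext 0 ((D.res (emb 0)).pt c a) := by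
  have h1 : D.sR - algebraMap K D.R c ∈ D.ext 0 ((D.res (emb 0)).pt c a) := by
    rw [ext_pt_eq]
    exact Ideal.subset_span (Set.mem_insert _ _)
  have h2 : D.sR - algebraMap K D.R c ∣ aeval D.sR g - algebraMap K D.R (g.eval c) := by
    have := map_dvd (aeval D.sR) (X_sub_C_dvd_sub_C_eval (p := g) (a := c))
    simpa using this
  exact Ideal.mem_of_dvd _ h2 h1

omit [CharZero K] [CharZero Ω] [Algebra K Ω] [IsScalarTower K Ω (LS Ω)] in
lemma eval_eq_zero {c : K} {a : Fin 2 → K} (hm : D.ext 0 ((D.res (emb 0)).pt c a) ≠ ⊤) {g : K[X]}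
    (hg : aeval D.sR g ∈ D.ext 0 ((D.res (emb 0)).pt c a)) : g.eval c = 0 := by
  by_contra h0
  have h1 := Ideal.sub_mem _ hg (aeval_sub_mem c a g)
  rw [sub_sub_cancel] at h1
  exact hm (Ideal.eq_top_of_isUnit_mem _ h1 ((IsUnit.mk0 _ h0).map _))

section Action

variable [MulSemiringAction G5 K] [FaithfulSMul G5 K] [MulSemiringAction G5 D.R]

omit [CharZero K] [CharZero Ω] [Algebra K Ω] [IsScalarTower K Ω (LS Ω)] [MulSemiringAction G5 K]
  [FaithfulSMul G5 K] in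
lemma smul_disc (h₂ : ∀ (g : G5) σ i, g • D.yR (σ, i) = D.yR (g σ, i)) (g : G5) :
    g • D.disc = D.disc := by
  have e : D.disc = ∏ p, D.yR p ^ 2 := by
    rw [Dat.disc, map_prod]
    exact Finset.prod_congr rfl fun p _ => (D.sqR p).symm
  rw [e, Finset.smul_prod']
  refine Fintype.prod_equiv (Equiv.prodCongr g (Equiv.refl _)) _ _ fun p => ?_
  rw [smul_pow', h₂]
  rfl

omit [CharZero K] [CharZero Ω] [Algebra K Ω] [IsScalarTower K Ω (LS Ω)] [FaithfulSMul G5 K] in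
lemma stab_pt (h₀ : ∀ (g : G5) (a : K), g • algebraMap K D.R a = algebraMap K D.R (g • a))
    (h₁ : ∀ g : G5, g • D.sR = D.sR) (h₂ : ∀ (g : G5) σ i, g • D.yR (σ, i) = D.yR (g σ, i))
    {c : K} {a : Fin 2 → K} (hm : D.ext 0 ((D.res (emb 0)).pt c a) ≠ ⊤)
    (hfix : ∀ g : G5, g 0 = 0 → g • c = c ∧ ∀ i, g • a i = a i)
    (hfix' : ∀ g : G5, g • c = c → g 0 = 0) :
    MulAction.stabilizer G5 (D.ext 0 ((D.res (emb 0)).pt c a)) =
      MulAction.stabilizer G5 (0 : Fin 5) := by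
  ext g
  rw [MulAction.mem_stabilizer_iff, MulAction.mem_stabilizer_iff, Equiv.Perm.smul_def]
  constructor
  · intro hg
    refine hfix' g ?_
    have e1 : D.sR - algebraMap K D.R c ∈ D.ext 0 ((D.res (emb 0)).pt c a) := by
      simpa using aeval_sub_mem (D := D) c a X
    have e2 : g • (D.sR - algebraMap K D.R c) ∈ D.ext 0 ((D.res (emb 0)).pt c a) := by
      rw [← hg]
      exact Ideal.smul_mem_pointwise_smul _ _ _ e1
    rw [smul_sub, h₁, h₀] at e2
    have e3 := eval_eq_zero (D := D) hm (g := X - C (g • c)) (by simpa using e2)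
    rw [eval_sub, eval_X, eval_C] at e3
    exact (sub_eq_zero.1 e3).symm
  · intro hg
    obtain ⟨f1, f2⟩ := hfix g hg
    have e : (MulSemiringAction.toRingHom G5 D.R g ∘ fun i => D.yR (0, i) - algebraMap K D.R (a i)) =
        fun i => D.yR (0, i) - algebraMap K D.R (a i) := by
      funext i
      rw [Function.comp_apply, MulSemiringAction.toRingHom_apply, smul_sub, h₂, h₀, f2, hg]
    rw [ext_pt_eq, Ideal.pointwise_smul_def, Ideal.map_span, Set.image_insert_eq,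
      ← Set.range_comp, e, MulSemiringAction.toRingHom_apply, smul_sub, h₁, h₀, f1]

omit [FaithfulSMul G5 K] in
lemma Main.no_point (h : Main x D η)
    (h₀ : ∀ (g : G5) (a : K), g • algebraMap K D.R a = algebraMap K D.R (g • a))
    (h₁ : ∀ g : G5, g • D.sR = D.sR) (h₂ : ∀ (g : G5) σ i, g • D.yR (σ, i) = D.yR (g σ, i))
    {𝔭 : Ideal D.R} (hp : 𝔭.IsMaximal) (hfin : Module.Finite K (D.R ⧸ 𝔭)) :
    ¬(MulAction.stabilizer (Subgroup.zpowers piP) 𝔭).index * codim K 𝔭 ∣ 1280 := by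
  intro hdvd
  have hg := h.good 𝔭 (ne_bot_of_finite hfin)
  obtain ⟨t, ht⟩ := h.inf.core_dvd hg
  have hr : (MulAction.stabilizer (Subgroup.zpowers piP) 𝔭).index ∣ 6 :=
    (Subgroup.index_dvd_card _).trans orderOf_piP_dvd
  obtain ⟨hr1, ht1⟩ := arith_aux (ht ▸ hdvd) hr
  have hst : (⟨piP, Subgroup.mem_zpowers _⟩ : Subgroup.zpowers piP) ∈
      MulAction.stabilizer (Subgroup.zpowers piP) 𝔭 := by
    rw [Subgroup.index_eq_one.1 hr1]
    trivial
  have hst' : 𝔭.map (MulSemiringAction.toRingEquiv G5 D.R piP) = 𝔭 := by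
    rw [MulAction.mem_stabilizer_iff, Subgroup.smul_def, Ideal.pointwise_smul_def] at hst
    rw [← Ideal.map_coe]
    exact hst
  obtain ⟨n1, n2⟩ := h.inf.core_ne hg hp.isPrime (MulSemiringAction.toRingEquiv G5 K piP)
    (MulSemiringAction.toRingEquiv G5 D.R piP) (h₀ piP) (h₁ piP) (h₂ piP) hst'
  omega

end Action

/-- The assembly, for an abstract ring with a semilinear action. -/
theorem assemble (G k K B : Type) [Group G] [Finite G] [Field k] [CharZero k] [Field K]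
    [CharZero K] [Algebra k K] [MulSemiringAction G K] [IsGaloisGroup G k K] [CommRing B]
    [IsDomain B] [Ring.DimensionLEOne B] [Algebra K B] [Algebra k B] [IsScalarTower k K B]
    [MulSemiringAction G B] [SMulCommClass G k B]
    (h₀ : ∀ (g : G) (a : K), g • algebraMap K B a = algebraMap K B (g • a))
    (t : Finset K) (ht : Subfield.closure (t : Set K) = ⊤) (Δ : B) (hΔ : Δ ≠ 0)
    (hfix : ∀ g : G, g • Δ = Δ) (hsm : Algebra.Smooth K (Localization.Away Δ))
    (hdom : ∀ (L : Type) [Field L] [Algebra K L], IsDomain (L ⊗[K] B)) {α : Type} (𝔪 : α → Ideal B)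
    (hm : ∀ n, (𝔪 n).IsMaximal) (hb : ∀ n, 𝔪 n ≠ ⊥) (hf : ∀ n, Module.Finite K (B ⧸ 𝔪 n))
    (hd : ∀ n, Δ ∉ 𝔪 n) (hc : ∀ n, (MulAction.stabilizer G (𝔪 n)).index * codim K (𝔪 n) = 1280)
    (h0 : ∀ z, (∀ n, z ∈ 𝔪 n) → z = 0) (H : Subgroup G)
    (hno : ∀ 𝔭 : Ideal B, 𝔭.IsMaximal → Module.Finite K (B ⧸ 𝔭) →
      ¬(MulAction.stabilizer H 𝔭).index * codim K 𝔭 ∣ 1280) :
    ∃ (k : Type) (_ : Field k) (_ : CharZero k)
      (_ : ∃ s : Finset k, Subfield.closure (s : Set k) = ⊤)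
      (A : Type) (_ : CommRing A) (_ : Algebra k A),
      Algebra.Smooth k A ∧ IsDomain (AlgebraicClosure k ⊗[k] A) ∧ ringKrullDim A = 2 ∧
        ∃ (k' : Type) (_ : Field k') (_ : Algebra k k'), Module.Finite k k' ∧
          1280 ∈ delta k A ∧ 1280 ∉ delta k' (k' ⊗[k] A) := by
  have := IsGaloisGroup.finiteDimensional G k K
  let Δ₁ : FixedPoints.subalgebra k B G := ⟨Δ, hfix⟩
  have hΔ₁ : Δ₁ ≠ 0 := fun e => hΔ (congrArg Subtype.val e)
  obtain ⟨e, he⟩ := desc_equiv G k K B h₀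
  have hsm₁ : Algebra.Smooth k (Localization.Away Δ₁)[X] := surf_smooth Δ₁ e (by rw [he]; exact hsm)
  let 𝔫 : α → Ideal (FixedPoints.subalgebra k B G) := fun n =>
    (𝔪 n).comap (FixedPoints.subalgebra k B G).val
  have hn1 : ∀ n, (𝔫 n).IsMaximal := fun n => desc_isMaximal G k B (hm n)
  have hn3 : ∀ n, codim k (𝔫 n) = 1280 := fun n => by
    have := hf n
    exact (desc_codim G k K B h₀ (hm n)).trans (hc n)
  have hn4 : ∀ z, (∀ n, z ∈ 𝔫 n) → z = 0 := fun z hz => Subtype.ext (h0 z hz)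
  have hne : Nonempty α := by
    by_contra hα
    exact hΔ (h0 Δ fun n => (hα ⟨n⟩).elim)
  obtain ⟨n₀⟩ := hne
  have : Ring.DimensionLEOne (FixedPoints.subalgebra k B G) := desc_dim G k B
  have : IsNoetherianRing (Localization.Away Δ₁) := by
    have : IsNoetherianRing (Localization.Away Δ₁)[X] := Algebra.FiniteType.isNoetherianRing k _
    exact isNoetherianRing_of_surjective (Localization.Away Δ₁)[X] _ (evalRingHom 0)
      fun z => ⟨C z, by simp⟩
  have hn5 : 𝔫 n₀ ≠ ⊥ := by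
    have : Algebra.IsInvariant (FixedPoints.subalgebra k B G) B G := ⟨fun b hb => ⟨⟨b, hb⟩, rfl⟩⟩
    have := Algebra.IsInvariant.isIntegral (FixedPoints.subalgebra k B G) B G
    obtain ⟨z, hz, hz0⟩ := Submodule.exists_mem_ne_zero_of_ne_bot (hb n₀)
    exact Ideal.comap_ne_bot_of_integral_mem (R := FixedPoints.subalgebra k B G) hz0 hz
      (Algebra.IsIntegral.isIntegral z)
  refine ⟨k, inferInstance, inferInstance, desc_fg k K t ht, (Localization.Away Δ₁)[X],
    inferInstance, inferInstance, hsm₁, surf_domain Δ₁ e hΔ₁ hdom,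
    surf_dim Δ₁ hΔ₁ (hn1 n₀).isPrime hn5 (hd n₀),
    (FixedPoints.intermediateField H : IntermediateField k K), inferInstance, inferInstance,
    inferInstance, surf_dense Δ₁ (by norm_num) 𝔫 hn1 hd hn3 hn4, fun hd => ?_⟩
  obtain ⟨E, _, _, _, _, φ, -, hE⟩ := surf_point Δ₁ hΔ₁ hd
  have : FiniteDimensional (FixedPoints.intermediateField H : IntermediateField k K) E :=
    Module.finite_of_finrank_pos (by rw [hE]; norm_num)
  obtain ⟨𝔭, hp, hfin, hdvd⟩ := exists_max G k K B h₀ H E φ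
  exact hno 𝔭 hp hfin (hE ▸ hdvd)

theorem final (h : Main x D η) [MulSemiringAction G5 K] [FaithfulSMul G5 K]
    [MulSemiringAction G5 D.R]
    (h₀ : ∀ (g : G5) (a : K), g • algebraMap K D.R a = algebraMap K D.R (g • a))
    (h₁ : ∀ g : G5, g • D.sR = D.sR) (h₂ : ∀ (g : G5) σ i, g • D.yR (σ, i) = D.yR (g σ, i))
    (c : ℕ → K) (a : ℕ → Fin 2 → K) (hc : Function.Injective c)
    (hpt : ∀ n, (D.res (emb 0)).IsPt (c n) (a n))
    (hfix : ∀ n (g : G5), g 0 = 0 → g • c n = c n ∧ ∀ i, g • a n i = a n i)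
    (hfix' : ∀ n (g : G5), g • c n = c n → g 0 = 0) :
    ∃ (k : Type) (_ : Field k) (_ : CharZero k)
      (_ : ∃ s : Finset k, Subfield.closure (s : Set k) = ⊤)
      (A : Type) (_ : CommRing A) (_ : Algebra k A),
      Algebra.Smooth k A ∧ IsDomain (AlgebraicClosure k ⊗[k] A) ∧ ringKrullDim A = 2 ∧
        ∃ (k' : Type) (_ : Field k') (_ : Algebra k k'), Module.Finite k k' ∧
          1280 ∈ delta k A ∧ 1280 ∉ delta k' (k' ⊗[k] A) := by
  classical
  have : SMulCommClass G5 (FixedPoints.subfield G5 K) D.R := ⟨fun g r z => by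
    have e : ∀ w : D.R, r • w = algebraMap K D.R r * w := fun w => Algebra.smul_def (r : K) w
    rw [e, e, smul_mul', h₀, r.2 g]⟩
  have := D.dedekind
  have hm : ∀ n, (D.ext 0 ((D.res (emb 0)).pt (c n) (a n))).IsMaximal :=
    fun n => (h.pt_max (hpt n)).1
  have hb : ∀ n, D.ext 0 ((D.res (emb 0)).pt (c n) (a n)) ≠ ⊥ :=
    fun n => D.ext_ne_bot 0 ((D.res (emb 0)).pt_ne_bot (c n) (a n))
  have hQ : (∏ p, D.q p) ≠ 0 := D.sep.ne_zero
  refine assemble G5 (FixedPoints.subfield G5 K) K D.R h₀ (Finset.univ.image x) ?_ D.disc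
    D.disc_ne_zero (smul_disc h₂) D.smooth_away (fun L _ _ => D.isDomain_tensor L)
    (α := {n : ℕ // (∏ p, D.q p).eval (c n) ≠ 0})
    (fun n => D.ext 0 ((D.res (emb 0)).pt (c n) (a n))) (fun n => hm n) (fun n => hb n)
    (fun n => D.finite_quot (hb n)) (fun n hn => n.2 (eval_eq_zero (D := D) (hm n).ne_top hn))
    (fun n => ?_) (fun z hz => ?_) (Subgroup.zpowers piP)
    fun 𝔭 hp hfin => h.no_point h₀ h₁ h₂ hp hfin
  · have := congrArg IntermediateField.toSubfield h.top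
    rw [adjoin_toSubfield] at this
    rw [Finset.coe_image, Finset.coe_univ, Set.image_univ, eq_top_iff]
    refine this.ge.trans (Subfield.closure_le.2 (Set.union_subset ?_ Subfield.subset_closure))
    rintro _ ⟨r, rfl⟩
    exact SubfieldClass.ratCast_mem _ r
  · rw [stab_pt h₀ h₁ h₂ (hm n).ne_top (hfix n) (hfix' n), index_stab, (h.pt_max (hpt n)).2]
  · by_contra h0
    obtain ⟨g, hg, hdvd⟩ := D.exists_dvd h0
    have hfin := (Polynomial.finite_setOfPred_isRoot (mul_ne_zero hg hQ)).preimage hc.injOn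
    refine Set.infinite_univ (hfin.subset fun n _ => ?_)
    by_cases hn : (∏ p, D.q p).eval (c n) = 0
    · simp [IsRoot, hn]
    · have := eval_eq_zero (D := D) (hm n).ne_top (Ideal.mem_of_dvd _ hdvd (hz ⟨n, hn⟩))
      simp [IsRoot, this]

theorem main_thm : ∃ (k : Type) (_ : Field k) (_ : CharZero k)
    (_ : ∃ s : Finset k, Subfield.closure (s : Set k) = ⊤)
    (A : Type) (_ : CommRing A) (_ : Algebra k A),
    Algebra.Smooth k A ∧ IsDomain (AlgebraicClosure k ⊗[k] A) ∧ ringKrullDim A = 2 ∧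
      ∃ (k' : Type) (_ : Field k') (_ : Algebra k k'), Module.Finite k k' ∧
        1280 ∈ delta k A ∧ 1280 ∉ delta k' (k' ⊗[k] A) := by
  obtain ⟨K, _, _, x, ρ, hx, ht, hρ⟩ := exists_gen
  let : Algebra K (LS (AlgebraicClosure K)) :=
    (cst.comp (algebraMap K (AlgebraicClosure K))).toAlgebra
  have : IsScalarTower K (AlgebraicClosure K) (LS (AlgebraicClosure K)) :=
    IsScalarTower.of_algebraMap_eq fun _ => rfl
  obtain ⟨D, η, h⟩ := exists_main (Ω := AlgebraicClosure K) hx ht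
  obtain ⟨ψ, hψ⟩ := h.exists_psi ρ hρ
  obtain ⟨c, a, hc, hp⟩ := h.exists_pts ρ hρ
  let : MulSemiringAction G5 K := MulSemiringAction.compHom K ρ
  let : MulSemiringAction G5 D.R := MulSemiringAction.compHom D.R ψ
  have : FaithfulSMul G5 K := ⟨fun {g g'} hg => Equiv.ext fun σ => by
    have e : ρ g (x (σ, 0)) = ρ g' (x (σ, 0)) := hg _
    rw [hρ, hρ] at e
    exact (Prod.mk.inj (hx.injective e)).1⟩
  exact final h (fun g => (hψ g).1) (fun g => (hψ g).2.1) (fun g => (hψ g).2.2) c a hc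
    (fun n => (hp n).1) (fun n => (hp n).2.1) fun n => (hp n).2.2

end Pool.Agent.MP_e6b751_nt
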