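import Pool.Agent.MP_e6b751_nt.Defs

namespace Pool.Agent.MP_e6b751_nt

open Polynomial

/-- The codimension of an ideal of an `F`-algebra. -/
noncomputable def codim (F : Type) [Field F] {R : Type} [CommRing R] [Algebra F R] (I : Ideal R) :
    ℕ := Module.finrank F (R ⧸ I)

/-- The ideals whose class lies in the group generated by the classes of the members of `P`. -/
inductive Good {R : Type} [CommRing R] (P : Set (Ideal R)) : Ideal R → Prop
  | prin (a : R) (ha : a ≠ 0) : Good P (Ideal.span {a})
  | pt (I : Ideal R) (h : I ∈ P) : Good P I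
  | mul (I J : Ideal R) (hI : Good P I) (hJ : Good P J) : Good P (I * J)
  | cancel (I J : Ideal R) (h : Good P (I * J)) (hJ : Good P J) : Good P I

/-- An affine multiquadratic curve `y i ^ 2 = q i (s)` over `F`, inside a field `E`. -/
structure Dat (F E ι : Type) [Field F] [Field E] [Algebra F E] [Fintype ι] where
  s : E
  y : ι → E
  q : ι → F[X]
  sq : ∀ i, y i ^ 2 = aeval s (q i)
  tr : Transcendental F s
  sep : (∏ i, q i).Separable
  deg : ∀ i, (q i).natDegree = 2

namespace Dat

variable {F E ι : Type} [Field F] [Field E] [Algebra F E] [Fintype ι] (D : Dat F E ι)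

/-- The coordinate ring. -/
def R : Subalgebra F E := Algebra.adjoin F (insert D.s (Set.range D.y))

lemma s_mem : D.s ∈ D.R := Algebra.subset_adjoin (Set.mem_insert _ _)

lemma y_mem (i : ι) : D.y i ∈ D.R := Algebra.subset_adjoin (Set.mem_insert_of_mem _ ⟨i, rfl⟩)

/-- `s` as an element of the coordinate ring. -/
def sR : D.R := ⟨D.s, D.s_mem⟩

/-- `y i` as an element of the coordinate ring. -/
def yR (i : ι) : D.R := ⟨D.y i, D.y_mem i⟩

/-- The monomial basis. -/
def b (p : ℕ × Finset ι) : E := D.s ^ p.1 * ∏ i ∈ p.2, D.y i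

/-- The filtration by the pole order at infinity. -/
def V (N : ℕ) : Submodule F E := Submodule.span F (D.b '' {p | p.1 + p.2.card ≤ N})

/-- The pair `c`, `a` is a rational point. -/
def IsPt (c : F) (a : ι → F) : Prop := ∀ i, a i ^ 2 = (D.q i).eval c

/-- The ideal of a rational point. -/
def pt (c : F) (a : ι → F) : Ideal D.R :=
  Ideal.span (insert (D.sR - algebraMap F D.R c)
    (Set.range fun i => D.yR i - algebraMap F D.R (a i)))

/-- The product of all the `q i (s)`. -/
noncomputable def disc : D.R := aeval D.sR (∏ i, D.q i)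

/-- The curve given by a part of the equations. -/
def res {κ : Type} [Fintype κ] (e : κ ↪ ι) : Dat F E κ where
  s := D.s
  y := fun i => D.y (e i)
  q := fun i => D.q (e i)
  sq := fun i => D.sq (e i)
  tr := D.tr
  sep := by
    classical
    refine D.sep.of_dvd ?_
    rw [← Finset.prod_map Finset.univ e D.q]
    exact Finset.prod_dvd_prod_of_subset _ _ _ (Finset.subset_univ _)
  deg := fun i => D.deg (e i)

lemma res_le {κ : Type} [Fintype κ] (e : κ ↪ ι) : (D.res e).R ≤ D.R :=
  Algebra.adjoin_mono (Set.insert_subset_insert (by rintro _ ⟨i, rfl⟩; exact ⟨e i, rfl⟩))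

/-- The inclusion of coordinate rings. -/
def inc {κ : Type} [Fintype κ] (e : κ ↪ ι) : (D.res e).R →ₐ[F] D.R :=
  Subalgebra.inclusion (D.res_le e)

end Dat

/-- Laurent series in `1 / s`. -/
def LS (Ω : Type) [Field Ω] : Type := HahnSeries ℤ Ω

section LS

variable {Ω : Type} [Field Ω]

noncomputable instance instFieldLS : Field (LS Ω) := inferInstanceAs (Field (HahnSeries ℤ Ω))

/-- Constant series. -/
noncomputable def cst : Ω →+* LS Ω := HahnSeries.C

noncomputable instance instAlgebraLS : Algebra Ω (LS Ω) := (cst (Ω := Ω)).toAlgebra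

instance instCharZeroLS [CharZero Ω] : CharZero (LS Ω) :=
  charZero_of_injective_ringHom (cst (Ω := Ω)).injective

/-- The coefficient of `s ^ n`. -/
def co (x : LS Ω) (n : ℤ) : Ω := HahnSeries.coeff (Γ := ℤ) (R := Ω) x (-n)

/-- The variable `s`. -/
noncomputable def sT : LS Ω := HahnSeries.single (Γ := ℤ) (R := Ω) (-1) 1

/-- The degree in `s` is at most `N`. -/
def Le (N : ℤ) (x : LS Ω) : Prop := ∀ n, N < n → co x n = 0

/-- The degree in `s`. -/
noncomputable def dg (x : LS Ω) : ℤ := -HahnSeries.order (Γ := ℤ) (R := Ω) x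

/-- All coefficients lie in `H`. -/
def InCo (H : Subfield Ω) (x : LS Ω) : Prop := ∀ n, co x n ∈ H

end LS

/-- The curve has one place at infinity, seen through the embedding into Laurent series. -/
structure Dat.Inf {K Ω ι : Type} [Field K] [Field Ω] [Algebra K Ω] [Algebra K (LS Ω)] [Fintype ι]
    (D : Dat K (LS Ω) ι) (η : ι → Ω) : Prop where
  hs : D.s = sT
  le : ∀ i, Le 1 (D.y i)
  lead : ∀ i, co (D.y i) 1 = η i
  sq : ∀ i, η i ^ 2 = algebraMap K Ω (D.q i).leadingCoeff
  ind : LinearIndependent K fun S : Finset ι => ∏ i ∈ S, η i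
  coef : ∀ i, InCo (IntermediateField.adjoin K {η i}).toSubfield (D.y i)

/-- The index set of the ten equations. -/
abbrev I10 : Type := Fin 5 × Fin 2

/-- The two equations of the curve number `σ`. -/
def emb (σ : Fin 5) : Fin 2 ↪ I10 := ⟨fun i => (σ, i), fun _ _ h => (Prod.mk.inj h).2⟩

/-- The extension of an ideal from the curve number `σ`. -/
def Dat.ext {K E : Type} [Field K] [Field E] [Algebra K E] (D : Dat K E I10) (σ : Fin 5)
    (I : Ideal (D.res (emb σ)).R) : Ideal D.R := I.map (D.inc (emb σ))

/-- The ideals (of a ring `S` mapping to `E`) of the rational points of the five curves. -/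
def Dat.Pt {K E : Type} [Field K] [Field E] [Algebra K E] (D : Dat K E I10) {S : Type}
    [CommRing S] (j : S →+* E) : Set (Ideal S) :=
  {I | ∃ (σ : Fin 5) (c : K) (a : Fin 2 → K), (D.res (emb σ)).IsPt c a ∧
    ∃ (g : S) (z : Fin 2 → S), j g = D.s - algebraMap K E c ∧
      (∀ i, j (z i) = D.y (σ, i) - algebraMap K E (a i)) ∧
        I = Ideal.span (insert g (Set.range z))}

/-- The two quadratic polynomials in `f = X - u`. -/
noncomputable def qq {F : Type} [Field F] (p u v : F) (i : Fin 2) : F[X] :=
  if i = 0 then C (p ^ 3 - p)⁻¹ * ((X - C u) * (C v * (X - C u) + 1))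
  else (C v * (X - C u) + 1) ^ 2 + 4 * (X - C u) ^ 2

/-- The fifteen variables `p σ = (σ, 0)`, `u σ = (σ, 1)`, `v σ = (σ, 2)`. -/
abbrev W : Type := Fin 5 × Fin 3

/-- The product of a transposition and a disjoint cycle of length three. -/
def piP : Equiv.Perm (Fin 5) := ⟨![1, 0, 3, 4, 2], ![1, 0, 4, 2, 3], by decide, by decide⟩

end Pool.Agent.MP_e6b751_nt
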