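import Pool.Agent.MP_e6b751_nt.Lau2

namespace Pool.Agent.MP_e6b751_nt

open Polynomial

/-- A greedy basis for a family of subsets of a finite dimensional space. -/
theorem tens_greedy {K V : Type} [Field K] [AddCommGroup V] [Module K V] (W : Submodule K V)
    [FiniteDimensional K W] (L : ℕ → Set V) (hL : ∀ t, ∀ w ∈ L t, w ∈ W) :
    ∃ (n : ℕ) (v : Fin n → V) (d : Fin n → ℕ), (∀ i, v i ∈ L (d i)) ∧ LinearIndependent K v ∧
      ∀ t, ∀ w ∈ L t, ∃ c : Fin n → K, w = ∑ i, c i • v i ∧ ∀ i, c i ≠ 0 → d i ≤ t := by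
  classical
  have hbd : ∀ (n : ℕ) (v : Fin n → V) (d : Fin n → ℕ), (∀ i, v i ∈ L (d i)) →
      LinearIndependent K v → n ≤ Module.finrank K W := by
    intro n v d h1 h2
    have h3 : LinearIndependent K fun i => (⟨v i, hL _ _ (h1 i)⟩ : W) :=
      LinearIndependent.of_comp W.subtype h2
    simpa using h3.fintype_card_le_finrank
  have hex : ∃ k, ∃ (n : ℕ) (v : Fin n → V) (d : Fin n → ℕ), (∀ i, v i ∈ L (d i)) ∧
      LinearIndependent K v ∧ n + k = Module.finrank K W :=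
    ⟨Module.finrank K W, 0, Fin.elim0, Fin.elim0, fun i => i.elim0, linearIndependent_empty_type,
      by simp⟩
  obtain ⟨n, v0, d0, h1, h2, h3⟩ := Nat.find_spec hex
  have hmax : ∀ (v : Fin (n + 1) → V) (d : Fin (n + 1) → ℕ), (∀ i, v i ∈ L (d i)) →
      ¬ LinearIndependent K v := by
    intro v d h4 h5
    have h6 := hbd _ v d h4 h5
    have h7 : Nat.find hex ≤ Module.finrank K W - (n + 1) :=
      Nat.find_min' hex ⟨n + 1, v, d, h4, h5, by omega⟩
    omega
  have hex2 : ∃ s, ∃ (v : Fin n → V) (d : Fin n → ℕ), (∀ i, v i ∈ L (d i)) ∧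
      LinearIndependent K v ∧ ∑ i, d i = s := ⟨_, v0, d0, h1, h2, rfl⟩
  obtain ⟨v, d, h4, h5, h6⟩ := Nat.find_spec hex2
  refine ⟨n, v, d, h4, h5, fun t w hw => ?_⟩
  have h7 : w ∈ Submodule.span K (Set.range v) := by
    by_contra hn
    refine hmax (Fin.cons w v) (Fin.cons t d) (fun i => ?_) (h5.finCons hn)
    refine Fin.cases ?_ (fun j => ?_) i
    · simpa using hw
    · simpa using h4 j
  obtain ⟨c, hc⟩ := (Submodule.mem_span_range_iff_exists_fun K).1 h7
  refine ⟨c, hc.symm, fun i hi => ?_⟩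
  by_contra hlt
  have hlt' : t < d i := not_le.1 hlt
  have h8 : LinearIndependent K (Function.update v i w) := by
    refine h5.update i w ⟨1, one_mem _, Finsupp.equivFunOnFinite.symm c, ?_, ?_⟩
    · simpa using hi
    · rw [one_smul, ← hc, Finsupp.linearCombination_apply,
        Finsupp.sum_fintype _ _ (fun j => zero_smul K (v j))]
      rfl
  have h9 : Nat.find hex2 ≤ ∑ j, Function.update d i t j := by
    refine Nat.find_min' hex2 ⟨Function.update v i w, Function.update d i t, fun j => ?_, h8, rfl⟩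
    by_cases hj : j = i
    · subst hj
      simpa using hw
    · simpa [Function.update_of_ne hj] using h4 j
  have h10 : ∑ j, Function.update d i t j < ∑ j, d j := by
    refine Finset.sum_lt_sum (fun j _ => ?_) ⟨i, Finset.mem_univ _, by simpa using hlt'⟩
    by_cases hj : j = i
    · subst hj
      simpa using hlt'.le
    · simp [Function.update_of_ne hj]
  omega

variable {K Ω : Type} [Field K] [Field Ω] [Algebra K Ω] [Algebra K (LS Ω)]
  [IsScalarTower K Ω (LS Ω)]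

theorem tens_co_pow (x : LS Ω) (n : ℤ) (k : ℕ) : co (sT ^ k * x) (n + k) = co x n := by
  induction k with
  | zero => simp
  | succ k ih => rw [pow_succ', mul_assoc, Nat.cast_succ, ← add_assoc, co_sT_mul, ih]

theorem tens_le_pow {x : LS Ω} {N : ℤ} (h : Le N x) (k : ℕ) : Le (N + k) (sT ^ k * x) := by
  intro n hn
  have h1 := tens_co_pow x (n - k) k
  rw [sub_add_cancel] at h1
  rw [h1]
  exact h _ (by omega)

theorem tens_le_smul {x : LS Ω} {N : ℤ} (h : Le N x) (a : K) : Le N (a • x) := by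
  intro n hn
  rw [co_smul, h n hn, smul_zero]

omit [Algebra K Ω] [IsScalarTower K Ω (LS Ω)] in
theorem tens_pow_mem {M : Submodule K (LS Ω)} (hs : ∀ x ∈ M, sT * x ∈ M) {x : LS Ω} (hx : x ∈ M)
    (k : ℕ) : sT ^ k * x ∈ M := by
  induction k with
  | zero => simpa using hx
  | succ k ih =>
    rw [pow_succ', mul_assoc]
    exact hs _ ih

omit [Algebra K Ω] [IsScalarTower K Ω (LS Ω)] in
theorem tens_aeval_mem {M : Submodule K (LS Ω)} (hs : ∀ x ∈ M, sT * x ∈ M) {x : LS Ω}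
    (hx : x ∈ M) (c : K[X]) : aeval sT c * x ∈ M := by
  induction c using Polynomial.induction_on' with
  | add p q hp hq =>
    rw [map_add, add_mul]
    exact M.add_mem hp hq
  | monomial k a =>
    rw [aeval_monomial, mul_assoc, ← Algebra.smul_def]
    exact M.smul_mem a (tens_pow_mem hs hx k)

/-- A basis adapted to the degree. -/
theorem exists_adapted (H : IntermediateField K Ω) [FiniteDimensional K H]
    (M : Submodule K (LS Ω)) (hH : ∀ x ∈ M, InCo H.toSubfield x) (hs : ∀ x ∈ M, sT * x ∈ M)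
    (m : ℤ) (hm : ∀ x ∈ M, Le (m - 1) x → x = 0) :
    ∃ (n : ℕ) (e : Fin n → LS Ω) (d : Fin n → ℤ), (∀ i, e i ∈ M ∧ Le (d i) (e i) ∧ m ≤ d i) ∧
      (LinearIndependent K fun i => co (e i) (d i)) ∧
      ∀ x ∈ M, ∃ c : Fin n → K[X], x = ∑ i, aeval sT (c i) * e i := by
  classical
  have : FiniteDimensional K (Subalgebra.toSubmodule H.toSubalgebra) :=
    inferInstanceAs (FiniteDimensional K H)
  obtain ⟨n, v, d, h1, h2, h3⟩ := tens_greedy (K := K) (Subalgebra.toSubmodule H.toSubalgebra)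
    (fun t => {w | ∃ x ∈ M, Le (m + t) x ∧ co x (m + t) = w})
    (by
      rintro t w ⟨x, hx, -, rfl⟩
      exact hH x hx _)
  choose e he1 he2 he3 using h1
  refine ⟨n, e, fun i => m + d i, fun i => ⟨he1 i, he2 i, by simp⟩, ?_, ?_⟩
  · simpa only [he3] using h2
  have key : ∀ t : ℕ, ∀ x ∈ M, Le (m + t - 1) x →
      ∃ c : Fin n → K[X], x = ∑ i, aeval sT (c i) * e i := by
    intro t
    induction t with
    | zero =>
      intro x hx hle
      refine ⟨0, ?_⟩
      rw [hm x hx (by simpa using hle)]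
      simp
    | succ t ih =>
      intro x hx hle
      have hle' : Le (m + t) x := by
        have : m + ((t + 1 : ℕ) : ℤ) - 1 = m + t := by push_cast; ring
        rwa [this] at hle
      obtain ⟨c, hc, hcd⟩ := h3 t (co x (m + t)) ⟨x, hx, hle', rfl⟩
      have hterm : ∀ i, Le (m + t) (c i • (sT ^ (t - d i) * e i)) ∧
          co (c i • (sT ^ (t - d i) * e i)) (m + t) = c i • v i := by
        intro i
        by_cases hi : c i = 0
        · simp [hi, Le.zero, co_zero]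
        · have h4 : m + (t : ℤ) = m + d i + ((t - d i : ℕ) : ℤ) := by
            have := hcd i hi
            omega
          rw [h4]
          exact ⟨tens_le_smul (tens_le_pow (he2 i) _) _, by rw [co_smul, tens_co_pow, he3]⟩
      have hz : x - ∑ i, c i • (sT ^ (t - d i) * e i) ∈ M :=
        M.sub_mem hx (M.sum_mem fun i _ => M.smul_mem _ (tens_pow_mem hs (he1 i) _))
      have hz2 : Le (m + t - 1) (x - ∑ i, c i • (sT ^ (t - d i) * e i)) := by
        refine Le.pred (hle'.sub (Le.sum fun i _ => (hterm i).1)) ?_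
        rw [co_sub, co_sum, hc, sub_eq_zero]
        exact Finset.sum_congr rfl fun i _ => (hterm i).2.symm
      obtain ⟨c', hc'⟩ := ih _ hz hz2
      refine ⟨fun i => c' i + monomial (t - d i) (c i), ?_⟩
      rw [sub_eq_iff_eq_add] at hc'
      rw [hc', ← Finset.sum_add_distrib]
      refine Finset.sum_congr rfl fun i _ => ?_
      rw [map_add, add_mul, aeval_monomial, mul_assoc, ← Algebra.smul_def]
  intro x hx
  exact key (dg x - m + 1).toNat x hx ((le_dg x).mono (by omega))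

theorem tens_two (H₁ H₂ : IntermediateField K Ω) [FiniteDimensional K H₂]
    (hd : H₁.LinearDisjoint H₂) (M₁ M₂ : Submodule K (LS Ω))
    (hH₁ : ∀ x ∈ M₁, InCo H₁.toSubfield x) (hH₂ : ∀ x ∈ M₂, InCo H₂.toSubfield x)
    (hs₁ : ∀ x ∈ M₁, sT * x ∈ M₁) (hs₂ : ∀ x ∈ M₂, sT * x ∈ M₂) (m₁ m₂ : ℤ)
    (hm₁ : ∀ x ∈ M₁, Le (m₁ - 1) x → x = 0) (hm₂ : ∀ x ∈ M₂, Le (m₂ - 1) x → x = 0) :
    (∀ x ∈ M₁ * M₂, Le (m₁ + m₂ - 1) x → x = 0) ∧
      ∀ β₁ β₂ : LS Ω, (∀ x ∈ M₁, Le m₁ x → x ∈ Submodule.span K {β₁}) →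
        (∀ x ∈ M₂, Le m₂ x → x ∈ Submodule.span K {β₂}) →
          ∀ x ∈ M₁ * M₂, Le (m₁ + m₂) x → x ∈ Submodule.span K {β₁ * β₂} := by
  classical
  obtain ⟨n, e, d, he, hind, hspan⟩ := exists_adapted H₂ M₂ hH₂ hs₂ m₂ hm₂
  have hind1 : LinearIndependent H₁.toSubfield fun i => co (e i) (d i) := by
    have h1 : LinearIndependent K fun i => (⟨co (e i) (d i), hH₂ _ (he i).1 _⟩ : H₂) :=
      LinearIndependent.of_comp H₂.val.toLinearMap hind
    exact hd.linearIndependent_right h1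
  have hrep : ∀ x ∈ M₁ * M₂, ∃ z : Fin n → LS Ω, (∀ i, z i ∈ M₁) ∧ x = ∑ i, z i * e i := by
    intro x hx
    refine Submodule.mul_induction_on hx (fun a ha b hb => ?_) ?_
    · obtain ⟨c, rfl⟩ := hspan b hb
      refine ⟨fun i => aeval sT (c i) * a, fun i => tens_aeval_mem hs₁ ha _, ?_⟩
      rw [Finset.mul_sum]
      exact Finset.sum_congr rfl fun i _ => by ring
    · rintro _ _ ⟨z, hz, rfl⟩ ⟨z', hz', rfl⟩
      refine ⟨fun i => z i + z' i, fun i => M₁.add_mem (hz i) (hz' i), ?_⟩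
      rw [← Finset.sum_add_distrib]
      exact Finset.sum_congr rfl fun i _ => by ring
  refine ⟨fun x hx hle => ?_, fun β₁ β₂ hβ₁ hβ₂ x hx hle => ?_⟩
  · obtain ⟨z, hz, rfl⟩ := hrep x hx
    refine Finset.sum_eq_zero fun i _ => ?_
    have h1 := le_of_sum (fun i => (he i).2.1) hind1 (fun i => hH₁ _ (hz i)) hle i
    have h2 := (he i).2.2
    rw [hm₁ _ (hz i) (h1.mono (by omega)), zero_mul]
  · obtain ⟨z, hz, rfl⟩ := hrep x hx
    refine Submodule.sum_mem _ fun i _ => ?_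
    have h1 := le_of_sum (fun i => (he i).2.1) hind1 (fun i => hH₁ _ (hz i)) hle i
    have h2 := (he i).2.2
    by_cases h3 : d i = m₂
    · have h4 := hβ₁ _ (hz i) (h1.mono (by omega))
      have h5 := hβ₂ _ (he i).1 (h3 ▸ (he i).2.1)
      rw [← Set.singleton_mul_singleton, ← Submodule.span_mul_span]
      exact Submodule.mul_mem_mul h4 h5
    · rw [hm₁ _ (hz i) (h1.mono (by omega)), zero_mul]
      exact Submodule.zero_mem _

theorem tens_fin (H : Finset (Fin 5) → IntermediateField K Ω) (hmono : Monotone H)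
    (hfin : ∀ J, FiniteDimensional K (H J))
    (hd : ∀ J j, j ∉ J → (H J).LinearDisjoint (H {j})) (M : Fin 5 → Submodule K (LS Ω))
    (hH : ∀ σ, ∀ x ∈ M σ, InCo (H {σ}).toSubfield x) (hs : ∀ σ, ∀ x ∈ M σ, sT * x ∈ M σ)
    (m : Fin 5 → ℤ) (hm : ∀ σ, ∀ x ∈ M σ, Le (m σ - 1) x → x = 0) (J : Finset (Fin 5))
    (hJ : J.Nonempty) :
    (∀ x ∈ ∏ σ ∈ J, M σ, InCo (H J).toSubfield x) ∧
      (∀ x ∈ ∏ σ ∈ J, M σ, sT * x ∈ ∏ σ ∈ J, M σ) ∧
      (∀ x ∈ ∏ σ ∈ J, M σ, Le ((∑ σ ∈ J, m σ) - 1) x → x = 0) ∧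
      ∀ β : Fin 5 → LS Ω, (∀ σ, ∀ x ∈ M σ, Le (m σ) x → x ∈ Submodule.span K {β σ}) →
        ∀ x ∈ ∏ σ ∈ J, M σ, Le (∑ σ ∈ J, m σ) x → x ∈ Submodule.span K {∏ σ ∈ J, β σ} := by
  induction hJ using Finset.Nonempty.cons_induction with
  | singleton a =>
    simp only [Finset.prod_singleton, Finset.sum_singleton]
    exact ⟨hH a, hs a, hm a, fun β hβ => hβ a⟩
  | cons a s ha hne ih =>
    obtain ⟨i1, i2, i3, i4⟩ := ih
    have := hfin {a}
    obtain ⟨t1, t2⟩ := tens_two (H s) (H {a}) (hd s a ha) (∏ σ ∈ s, M σ) (M a) i1 (hH a) i2 (hs a)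
      (∑ σ ∈ s, m σ) (m a) i3 (hm a)
    have l1 : H s ≤ H (Finset.cons a s ha) := hmono (Finset.subset_cons ha)
    have l2 : H {a} ≤ H (Finset.cons a s ha) :=
      hmono (Finset.singleton_subset_iff.2 (Finset.mem_cons_self a s))
    simp only [Finset.prod_cons, Finset.sum_cons]
    rw [mul_comm (M a), add_comm (m a)]
    refine ⟨fun x hx => ?_, fun x hx => ?_, t1, fun β hβ => ?_⟩
    · refine Submodule.mul_induction_on hx (fun u hu w hw => ?_) fun u w hu hw => ?_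
      · exact InCo.mul (fun n => l1 (i1 u hu n)) fun n => l2 (hH a w hw n)
      · exact (Coef _).add_mem hu hw
    · refine Submodule.mul_induction_on hx (fun u hu w hw => ?_) fun u w hu hw => ?_
      · rw [← mul_assoc]
        exact Submodule.mul_mem_mul (i2 u hu) hw
      · rw [mul_add]
        exact Submodule.add_mem _ hu hw
    · rw [mul_comm (β a)]
      exact t2 _ _ (i4 β hβ) (hβ a)

theorem tens_prod (H : Finset (Fin 5) → IntermediateField K Ω) (hmono : Monotone H)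
    (hfin : ∀ J, FiniteDimensional K (H J))
    (hd : ∀ J j, j ∉ J → (H J).LinearDisjoint (H {j})) (M : Fin 5 → Submodule K (LS Ω))
    (hH : ∀ σ, ∀ x ∈ M σ, InCo (H {σ}).toSubfield x) (hs : ∀ σ, ∀ x ∈ M σ, sT * x ∈ M σ)
    (m : Fin 5 → ℤ) (hm : ∀ σ, ∀ x ∈ M σ, Le (m σ - 1) x → x = 0) :
    (∀ x ∈ ∏ σ, M σ, Le ((∑ σ, m σ) - 1) x → x = 0) ∧
      ∀ β : Fin 5 → LS Ω, (∀ σ, ∀ x ∈ M σ, Le (m σ) x → x ∈ Submodule.span K {β σ}) →
        ∀ x ∈ ∏ σ, M σ, Le (∑ σ, m σ) x → x ∈ Submodule.span K {∏ σ, β σ} :=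
  (tens_fin H hmono hfin hd M hH hs m hm Finset.univ Finset.univ_nonempty).2.2

end Pool.Agent.MP_e6b751_nt
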