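import Pool.Agent.MP_e6b751_nt.StepB
import Pool.Agent.MP_e6b751_nt.Filt2
import Pool.Agent.MP_e6b751_nt.Tens

namespace Pool.Agent.MP_e6b751_nt.Dat.Inf

open Polynomial

variable {K Ω ι : Type} [Field K] [CharZero K] [Field Ω] [Algebra K Ω] [Algebra K (LS Ω)]
  [IsScalarTower K Ω (LS Ω)] [Fintype ι] {D : Dat K (LS Ω) ι} {η : ι → Ω}

omit [CharZero K] [IsScalarTower K Ω (LS Ω)] in
theorem res (h : D.Inf η) {κ : Type} [Fintype κ] (e : κ ↪ ι) :
    (D.res e).Inf fun i => η (e i) where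
  hs := h.hs
  le := fun i => h.le (e i)
  lead := fun i => h.lead (e i)
  sq := fun i => h.sq (e i)
  ind := by
    have := h.ind.comp (fun S : Finset κ => S.map e) (Finset.map_injective e)
    convert this using 1
    funext S
    simp [Finset.prod_map]
  coef := fun i => h.coef (e i)

omit [CharZero K] [Fintype ι] in
theorem infA_alg (a : K) : algebraMap K (LS Ω) a = cst (algebraMap K Ω a) := by
  rw [IsScalarTower.algebraMap_apply K Ω (LS Ω), algebraMap_LS]

omit [CharZero K] in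
theorem inCo (h : D.Inf η) {x : LS Ω} (hx : x ∈ D.R) :
    InCo (IntermediateField.adjoin K (Set.range η)).toSubfield x := by
  rw [← mem_Coef]
  refine Algebra.adjoin_induction (p := fun x _ =>
    x ∈ Coef (IntermediateField.adjoin K (Set.range η)).toSubfield) ?_ ?_ ?_ ?_ hx
  · rintro z (rfl | ⟨i, rfl⟩)
    · rw [h.hs]
      exact sT_mem_Coef _
    · refine Coef_mono ?_ (h.coef i)
      intro w hw
      exact IntermediateField.adjoin.mono K _ _ (by simp) hw
  · intro a
    rw [infA_alg]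
    exact cst_mem_Coef (IntermediateField.algebraMap_mem _ a)
  · intro a b _ _ ha hb
    exact add_mem ha hb
  · intro a b _ _ ha hb
    exact mul_mem ha hb

omit [CharZero K] [IsScalarTower K Ω (LS Ω)] in
theorem infA_prod (h : D.Inf η) (S : Finset ι) : Le S.card (∏ i ∈ S, D.y i) ∧
    co (∏ i ∈ S, D.y i) S.card = ∏ i ∈ S, η i := by
  have := Le.prod (t := S) (N := fun _ => (1 : ℤ)) (x := D.y) fun i _ => h.le i
  simp only [Finset.sum_const, nsmul_eq_mul, mul_one, h.lead] at this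
  exact this

theorem infA_pow (n : ℕ) : Le n ((sT : LS Ω) ^ n) := by
  have := (Le.prod (t := Finset.range n) (N := fun _ => (1 : ℤ)) (x := fun _ => (sT : LS Ω))
    fun _ _ => le_sT).1
  simpa using this

omit [CharZero K] in
theorem infA_deg (h : D.Inf η) {N : ℤ} {c : Finset ι → K[X]}
    (hx : Le N (∑ S, aeval D.s (c S) * ∏ i ∈ S, D.y i)) (S : Finset ι) (h0 : c S ≠ 0) :
    ((c S).natDegree : ℤ) + S.card ≤ N := by
  classical
  have ind : LinearIndependent (algebraMap K Ω).fieldRange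
      fun S : Finset ι => co (∏ i ∈ S, D.y i) S.card := by
    simp only [fun S => (h.infA_prod S).2]
    rw [Fintype.linearIndependent_iff]
    intro g hg T
    choose a ha using fun T => RingHom.mem_fieldRange.1 (g T).2
    have h1 : a T = 0 := by
      refine Fintype.linearIndependent_iff.1 h.ind a ?_ T
      rw [← hg]
      refine Finset.sum_congr rfl fun U _ => ?_
      rw [Algebra.smul_def, ha]
      rfl
    apply Subtype.ext
    rw [← ha, h1, map_zero]
    rfl
  rw [h.hs] at hx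
  have key := le_of_sum (H := (algebraMap K Ω).fieldRange) (e := fun S => ∏ i ∈ S, D.y i)
    (d := fun S => S.card) (fun S => (h.infA_prod S).1) ind
    (x := fun S => aeval sT (c S)) (fun T n => by
      rw [co_aeval]
      split_ifs
      · exact ⟨_, rfl⟩
      · exact zero_mem _) hx S
  by_contra hlt
  have h2 := key (c S).natDegree (by omega)
  rw [co_aeval, if_pos (by omega), Int.toNat_natCast, map_eq_zero] at h2
  exact h0 (leadingCoeff_eq_zero.1 h2)

omit [CharZero K] in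
theorem mem_V_iff (h : D.Inf η) {N : ℕ} {x : LS Ω} : x ∈ D.V N ↔ x ∈ D.R ∧ Le N x := by
  constructor
  · intro hx
    refine ⟨D.V_le N hx, ?_⟩
    refine Submodule.span_induction (p := fun x _ => Le N x) ?_ (Le.zero _) ?_ ?_ hx
    · rintro _ ⟨p, hp, rfl⟩
      have hp' : p.1 + p.2.card ≤ N := hp
      unfold Dat.b
      rw [h.hs]
      exact ((infA_pow p.1).mul (h.infA_prod p.2).1).mono (by omega)
    · intro a b _ _ ha hb
      exact ha.add hb
    · intro a b _ hb n hn
      rw [co_smul, hb n hn, smul_zero]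
  · rintro ⟨hx, hN⟩
    obtain ⟨c, rfl⟩ := D.mem_iff.1 hx
    refine D.mem_V_iff.2 ⟨c, fun S h0 => ?_, rfl⟩
    have := h.infA_deg hN S h0
    omega

omit [CharZero K] in
theorem eq_zero (h : D.Inf η) {x : LS Ω} (hx : x ∈ D.R) (h0 : Le (-1) x) : x = 0 := by
  obtain ⟨c, rfl⟩ := D.mem_iff.1 hx
  refine Finset.sum_eq_zero fun S _ => ?_
  have : c S = 0 := by
    by_contra h1
    have := h.infA_deg h0 S h1
    omega
  rw [this, map_zero, zero_mul]

omit [CharZero K] in
theorem infA_dg (h : D.Inf η) {α : D.R} (h0 : α ≠ 0) : ∃ m : ℕ, dg (α : LS Ω) = m := by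
  have h1 : 0 ≤ dg (α : LS Ω) := by
    by_contra h2
    exact h0 (Subtype.ext (h.eq_zero α.2 ((le_dg _).mono (by omega))))
  exact ⟨_, (Int.toNat_of_nonneg h1).symm⟩

theorem codim_span (h : D.Inf η) {α : D.R} (h0 : α ≠ 0) :
    (codim K (Ideal.span {α}) : ℤ) = 2 ^ Fintype.card ι * dg (α : LS Ω) := by
  obtain ⟨m, hm⟩ := h.infA_dg h0
  have hα : (α : LS Ω) ≠ 0 := fun h1 => h0 (Subtype.ext h1)
  rw [D.codim_span_eq h0 (m := m) (h.mem_V_iff.2 ⟨α.2, hm ▸ le_dg _⟩), hm]
  · push_cast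
    rfl
  · intro N x hx
    refine h.mem_V_iff.2 ⟨x.2, Le.of_mul hα ?_⟩
    have := (h.mem_V_iff.1 hx).2
    rw [hm]
    simpa using this

/-- An element of least degree in an ideal of the curve of genus one. -/
theorem reduced {D : Dat K (LS Ω) (Fin 2)} {η : Fin 2 → Ω} (h : D.Inf η) {I : Ideal D.R}
    (hI : I ≠ ⊥) : ∃ (β : D.R) (m : ℕ) (J : Ideal D.R), β ≠ 0 ∧ Ideal.span {β} = I * J ∧
      dg (β : LS Ω) = m ∧ codim K I + codim K J = 4 * m ∧ codim K J ≤ 4 ∧
      (∀ x ∈ I, Le (m - 1) (x : LS Ω) → x = 0) ∧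
      (codim K J = 1 → ∀ x ∈ I, Le m (x : LS Ω) →
        (x : LS Ω) ∈ Submodule.span K {(β : LS Ω)}) := by
  classical
  have := D.dedekind
  have hex : ∃ m : ℕ, ∃ x : D.R, x ∈ I ∧ x ≠ 0 ∧ (x : LS Ω) ∈ D.V m := by
    obtain ⟨x, hx, h0⟩ := (Submodule.ne_bot_iff I).1 hI
    obtain ⟨N, hN⟩ := D.exists_V x.2
    exact ⟨N, x, hx, h0, hN⟩
  obtain ⟨β, hβI, hβ0, hβV⟩ := Nat.find_spec hex
  have hmin' := fun k => Nat.find_min hex (m := k)
  generalize Nat.find hex = m at hβV hmin'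
  have hβ : (β : LS Ω) ≠ 0 := fun h1 => hβ0 (Subtype.ext h1)
  have hmin : ∀ x ∈ I, Le (m - 1) (x : LS Ω) → x = 0 := by
    intro x hx hle
    by_contra h0
    rcases m with _ | k
    · exact h0 (Subtype.ext (h.eq_zero x.2 (by simpa using hle)))
    · exact hmin' k (Nat.lt_succ_self k) ⟨x, hx, h0, h.mem_V_iff.2 ⟨x.2, by simpa using hle⟩⟩
  have hdg : dg (β : LS Ω) = m := by
    refine le_antisymm ((le_iff_dg hβ).1 (h.mem_V_iff.1 hβV).2) ?_
    by_contra h1
    exact hβ0 (hmin β hβI ((le_dg _).mono (by omega)))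
  obtain ⟨J, hJ⟩ : I ∣ Ideal.span {β} :=
    Ideal.dvd_iff_le.2 ((Ideal.span_singleton_le_iff_mem _).2 hβI)
  have hJ0 : J ≠ ⊥ := by
    rintro rfl
    rw [Ideal.mul_bot, Ideal.span_singleton_eq_bot] at hJ
    exact hβ0 hJ
  have hsum : codim K I + codim K J = 4 * m := by
    have h1 := h.codim_span hβ0
    rw [hJ, codim_mul (fun _ h => D.finite_quot h) hI hJ0, hdg, Fintype.card_fin] at h1
    have h2 : ((codim K I + codim K J : ℕ) : ℤ) = ((4 * m : ℕ) : ℤ) := by
      rw [h1]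
      push_cast
      ring
    exact_mod_cast h2
  refine ⟨β, m, J, hβ0, hJ, hdg, hsum, ?_, hmin, ?_⟩
  · by_contra h1
    have h2 : 1 ≤ m - 1 := by omega
    refine hmin' (m - 1) (by omega) (D.exists_mem_V hI ?_)
    rw [D.finrank_V_two h2]
    omega
  · intro h1 x hx hle
    obtain ⟨c, a, -, rfl⟩ := D.eq_pt h1
    have key : ∀ g : D.R, g ∈ D.pt c a → Le 1 (g : LS Ω) →
        (x : LS Ω) / (β : LS Ω) * (g : LS Ω) ∈ D.V 1 := by
      intro g hg hg1
      have h2 : x * g ∈ Ideal.span {β} := hJ ▸ Ideal.mul_mem_mul hx hg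
      obtain ⟨t, ht⟩ := Ideal.mem_span_singleton'.1 h2
      have h3 : (β : LS Ω) * (t : LS Ω) = (x : LS Ω) * (g : LS Ω) := by
        rw [mul_comm]
        exact_mod_cast congrArg Subtype.val ht
      have h4 : (x : LS Ω) / (β : LS Ω) * (g : LS Ω) = t := by
        rw [div_mul_eq_mul_div, ← h3, mul_div_cancel_left₀ _ hβ]
      rw [h4]
      refine h.mem_V_iff.2 ⟨t.2, Le.of_mul hβ ?_⟩
      rw [h3, hdg, Nat.cast_one, add_comm]
      exact hle.mul hg1
    have hc : ∀ b : K, Le 1 (algebraMap K (LS Ω) b) := fun b => by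
      rw [infA_alg]
      exact (le_cst _).mono zero_le_one
    obtain ⟨k, hk⟩ := D.genus_one (c := c) (a := a) (φ := (x : LS Ω) / (β : LS Ω))
      (key (D.sR - algebraMap K D.R c) (Ideal.subset_span (Set.mem_insert _ _))
        (Le.sub (x := D.s) (h.hs ▸ le_sT) (hc c)))
      (fun i => key (D.yR i - algebraMap K D.R (a i))
        (Ideal.subset_span (Set.mem_insert_of_mem _ ⟨i, rfl⟩)) (Le.sub (h.le i) (hc (a i))))
    refine Submodule.mem_span_singleton.2 ⟨k, ?_⟩
    rw [Algebra.smul_def, hk, div_mul_cancel₀ _ hβ]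

end Pool.Agent.MP_e6b751_nt.Dat.Inf
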