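import Pool.Agent.MP_e6b751_nt.LamA
import Pool.Agent.MP_e6b751_nt.CoreA

namespace Pool.Agent.MP_e6b751_nt

open Polynomial IntermediateField

section Aux

variable {E : Type} [Field E]

/-- The inclusion of a subring in another one. -/
def lamInc {S T : Type} [SetLike S E] [SubringClass S E] [SetLike T E] [SubringClass T E] (s : S)
    (t : T) (h : ∀ z ∈ s, z ∈ t) : s →+* t :=
  (SubringClass.subtype s).codRestrict t fun z => h z z.2

lemma lamInc_coe {S T : Type} [SetLike S E] [SubringClass S E] [SetLike T E] [SubringClass T E]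
    (s : S) (t : T) (h : ∀ z ∈ s, z ∈ t) (z : s) : (lamInc s t h z : E) = z := rfl

lemma lamInc_inj {S T : Type} [SetLike S E] [SubringClass S E] [SetLike T E] [SubringClass T E]
    (s : S) (t : T) (h : ∀ z ∈ s, z ∈ t) : Function.Injective (lamInc s t h) :=
  fun a b e => Subtype.ext (by rw [← lamInc_coe s t h a, e, lamInc_coe])

/-- Clearing denominators. -/
lemma lam_denom {F ι S : Type} [Field F] [Algebra F E] [Fintype ι] (D : Dat F E ι) [SetLike S E]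
    [SubringClass S E] (A : S) (N : Submonoid E) (hN : ∀ m ∈ N, m ∈ A)
    (hF : ∀ a : F, ∃ m ∈ N, m * algebraMap F E a ∈ A) (hs : D.s ∈ A) (hy : ∀ i, D.y i ∈ A) {z : E}
    (hz : z ∈ D.R) : ∃ m ∈ N, m * z ∈ A := by
  induction hz using Algebra.adjoin_induction with
  | mem z hz =>
    refine ⟨1, N.one_mem, ?_⟩
    rw [one_mul]
    rcases hz with rfl | ⟨i, rfl⟩
    exacts [hs, hy i]
  | algebraMap a => exact hF a
  | add z w _ _ hz hw =>
    obtain ⟨m, hm, hz⟩ := hz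
    obtain ⟨n, hn, hw⟩ := hw
    refine ⟨m * n, N.mul_mem hm hn, ?_⟩
    rw [show m * n * (z + w) = n * (m * z) + m * (n * w) by ring]
    exact add_mem (mul_mem (hN n hn) hz) (mul_mem (hN m hm) hw)
  | mul z w _ _ hz hw =>
    obtain ⟨m, hm, hz⟩ := hz
    obtain ⟨n, hn, hw⟩ := hw
    refine ⟨m * n, N.mul_mem hm hn, ?_⟩
    rw [show m * n * (z * w) = (m * z) * (n * w) by ring]
    exact mul_mem hz hw

lemma lam_le {F ι S : Type} [Field F] [Algebra F E] [Fintype ι] (D : Dat F E ι) [SetLike S E]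
    [SubringClass S E] (A : S) (hF : ∀ a : F, algebraMap F E a ∈ A) (hs : D.s ∈ A)
    (hy : ∀ i, D.y i ∈ A) {z : E} (hz : z ∈ D.R) : z ∈ A := by
  obtain ⟨m, hm, h⟩ := lam_denom D A ⊥ (fun m hm => by rw [Submonoid.mem_bot.1 hm]; exact one_mem _)
    (fun a => ⟨1, Submonoid.one_mem _, by rw [one_mul]; exact hF a⟩) hs hy hz
  rwa [Submonoid.mem_bot.1 hm, one_mul] at h

lemma lam_eval₂ {S P : Type} [SetLike S E] [SubringClass S E] (A : S) [CommRing P] (φ : P →+* A)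
    (ψ : P →+* E) (h : ∀ a, (φ a : E) = ψ a) (g : P[X]) (z : A) :
    ((g.eval₂ φ z : A) : E) = g.eval₂ ψ z := by
  have e : (SubringClass.subtype A).comp φ = ψ := RingHom.ext h
  rw [← e]
  exact hom_eval₂ g φ (SubringClass.subtype A) z

/-- The nonzero elements of `A` that lie in `T`. -/
def lamN {S T : Type} [SetLike S E] [SubringClass S E] [SetLike T E] [SubringClass T E] (A : S)
    (t : T) : Submonoid E where
  carrier := {m | m ∈ A ∧ m ∈ t ∧ m ≠ 0}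
  one_mem' := ⟨one_mem _, one_mem _, one_ne_zero⟩
  mul_mem' := fun ha hb => ⟨mul_mem ha.1 hb.1, mul_mem ha.2.1 hb.2.1, mul_ne_zero ha.2.2 hb.2.2⟩

/-- The same set, inside `A`. -/
def lamM {P T : Type} [CommRing P] [Algebra P E] [SetLike T E] [SubringClass T E]
    (A : Subalgebra P E) (t : T) : Submonoid A where
  carrier := {m | (m : E) ∈ lamN A t}
  one_mem' := (lamN A t).one_mem
  mul_mem' := fun ha hb => (lamN A t).mul_mem ha hb

lemma lam_unit {F ι : Type} [Field F] [Algebra F E] [Fintype ι] (D : Dat F E ι) {z : D.R} {a : F}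
    (h : (z : E) = algebraMap F E a) (h0 : (z : E) ≠ 0) : IsUnit z := by
  have e : z = algebraMap F D.R a := Subtype.ext h
  rw [e]
  refine (IsUnit.mk0 a ?_).map _
  rintro rfl
  exact h0 (h.trans (map_zero _))

end Aux

section Step

variable {K E : Type} [Field K] [CharZero K] [Field E] [Algebra K E] {x : W → K} {D : Dat K E I10}

omit [CharZero K] in
lemma lam_y_sq (hq : ∀ p, D.q p = qx x p) (j : Fin 5) (i : Fin 2) {F : Type} [Field F] (φ : F →+* E)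
    {p v : F} (hp : φ p = algebraMap K E (x (j, 0)))
    (hv : φ v = algebraMap K E (x (j, 2))) :
    D.y (j, i) ^ 2 = (qq p 0 v i).eval₂ φ (D.s - algebraMap K E (x (j, 1))) := by
  rw [D.sq, hq, qx, qq_comp, aeval_comp, eval₂_eq_eval_map, qq_map, hp, hv, map_zero, aeval_def,
    eval₂_eq_eval_map, qq_map, map_zero]
  simp

lemma lam_ne_of (hx : AlgebraicIndependent ℚ x) (j : Fin 5) {F : Type} [Field F] (φ : F →+* E)
    {p v : F} (hp : φ p = algebraMap K E (x (j, 0)))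
    (hv : φ v = algebraMap K E (x (j, 2))) : p ^ 3 - p ≠ 0 ∧ v ≠ 0 ∧ v ^ 2 + 4 ≠ 0 := by
  obtain ⟨h1, h2, h3⟩ := x_ne hx j
  refine ⟨fun e => h1 ?_, fun e => h2 ?_, fun e => h3 ?_⟩ <;>
    apply (algebraMap K E).injective <;> have := congrArg φ e
  · simpa [hp] using this
  · simpa [hv] using this
  · simpa [hv, map_ofNat] using this

omit [CharZero K] in
lemma lam_pt {P P' : Type} [CommRing P] [CommRing P'] [Algebra P E] [Algebra P' E]
    (S : Subalgebra P E) (T : Subalgebra P' E) (h : ∀ z ∈ S, z ∈ T) {I : Ideal S}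
    (hI : I ∈ D.Pt S.val.toRingHom) : I.map (lamInc S T h) ∈ D.Pt T.val.toRingHom :=
  D.Pt_map (j := S.val.toRingHom) (j' := T.val.toRingHom) (lamInc S T h) (fun _ => rfl) hI

omit [CharZero K] in
lemma lam_good {P P' : Type} [CommRing P] [CommRing P'] [Algebra P E] [Algebra P' E]
    (S : Subalgebra P E) (T : Subalgebra P' E) (h : ∀ z ∈ S, z ∈ T) {I : Ideal S}
    (hI : Good (D.Pt S.val.toRingHom) I) : Good (D.Pt T.val.toRingHom) (I.map (lamInc S T h)) := by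
  have h1 := lamInc_inj S T h
  have h2 : ∀ I ∈ D.Pt S.val.toRingHom, I.map (lamInc S T h) ∈ D.Pt T.val.toRingHom :=
    fun I hI => lam_pt _ _ _ hI
  exact hI.map _ h1 h2

omit [CharZero K] in
lemma lam_two {P L F : Type} [CommRing P] [Field L] [Field F] [Algebra P E] [Algebra L E]
    [Algebra F E] (A : Subalgebra P E) (B : Subalgebra L E) (R : Subalgebra F E)
    [IsDedekindDomain R] (hAB : ∀ z ∈ A, z ∈ B) (hAR : ∀ z ∈ A, z ∈ R) (M : Submonoid A)
    (hM : ∀ m ∈ M, IsUnit (lamInc A B hAB m))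
    (hB : ∀ b : B, ∃ m ∈ M, ∃ a, lamInc A B hAB m * b = lamInc A B hAB a)
    (hR : ∀ r : R, ∃ m a, IsUnit (lamInc A R hAR m) ∧ lamInc A R hAR m * r = lamInc A R hAR a)
    (gB : ∀ I : Ideal B, I ≠ ⊥ → Good (Ideal.map (lamInc A B hAB) '' D.Pt A.val.toRingHom) I)
    (gR : ∀ 𝔪 : Ideal R, 𝔪.IsMaximal → (∃ m ∈ M, lamInc A R hAR m ∈ 𝔪) →
      Good (D.Pt R.val.toRingHom) 𝔪) (I : Ideal R) (hI : I ≠ ⊥) :
    Good (D.Pt R.val.toRingHom) I := by
  have h1 := lamInc_inj A B hAB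
  have h2 := lamInc_inj A R hAR
  have h3 : ∀ I ∈ D.Pt A.val.toRingHom, I ≠ ⊥ := fun I hI => D.Pt_ne_bot hI
  have h4 : ∀ I ∈ D.Pt A.val.toRingHom, I.map (lamInc A R hAR) ∈ D.Pt R.val.toRingHom :=
    fun I hI => lam_pt _ _ _ hI
  exact good_step _ _ h1 h2 M hM hB hR _ h3 _ h4 gB gR I hI

lemma WJ_insert (J : Finset (Fin 5)) (j : Fin 5) : WJ (insert j J) ⊆ insert (j, 1) (WJ J) := by
  rintro ⟨σ, i⟩ hw
  by_cases hi : i = 1
  · rcases hw with hw | hw
    · exact absurd hi hw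
    · rcases Finset.mem_insert.1 hw with e | e
      · exact Or.inl (Prod.ext e hi)
      · exact Or.inr (Or.inr e)
  · exact Or.inr (Or.inl hi)

lemma WJ_mono (J : Finset (Fin 5)) (j : Fin 5) : WJ J ⊆ WJ (insert j J) :=
  fun _ hw => hw.imp id Finset.mem_insert_of_mem

theorem lam_step (hx : AlgebraicIndependent ℚ x) (hq : ∀ p, D.q p = qx x p) {J : Finset (Fin 5)} {j : Fin 5} (hj : j ∉ J)
    (D₀ : Dat (KT x (WJ J)) E (J × Fin 2)) (hs₀ : D₀.s = D.s)
    (hy₀ : ∀ p, D₀.y p = D.y (p.1, p.2))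
    (htr₀ : Transcendental (Subfield.closure (D₀.R : Set E)) (algebraMap K E (x (j, 1))))
    (hrig : ∀ {c : E} {a : Fin 2 → E}, c ∈ Subfield.closure (D₀.R : Set E) →
      (∀ i, a i ∈ Subfield.closure (D₀.R : Set E)) →
      (∀ i, a i ^ 2 = (qq (algebraMap K E (x (j, 0))) 0 (algebraMap K E (x (j, 2))) i).eval c) →
      ∃ (c₀ : KT x (WJ J)) (a₀ : Fin 2 → KT x (WJ J)), c = algebraMap K E c₀ ∧
        ∀ i, a i = algebraMap K E (a₀ i))
    (ih : ∀ I : Ideal D₀.R, I ≠ ⊥ → Good (D.Pt D₀.R.val.toRingHom) I)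
    (D₁ : Dat (KT x (WJ (insert j J))) E (↥(insert j J) × Fin 2))
    (hs₁ : D₁.s = D.s) (hy₁ : ∀ p, D₁.y p = D.y (p.1, p.2)) (I : Ideal D₁.R) (hI : I ≠ ⊥) :
    Good (D.Pt D₁.R.val.toRingHom) I := by
  classical
  have : CharZero E := charZero_of_injective_algebraMap (algebraMap K E).injective
  have hK₀ : ∀ z ∈ KT x (WJ J), algebraMap K E z ∈ D₀.R := fun z hz =>
    D₀.R.algebraMap_mem ⟨z, hz⟩
  have hK₁ : ∀ z ∈ KT x (WJ (insert j J)), algebraMap K E z ∈ D₁.R := fun z hz =>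
    D₁.R.algebraMap_mem ⟨z, hz⟩
  have hp : x (j, 0) ∈ KT x (WJ J) := x_mem_KT (Or.inl (by simp))
  have hv : x (j, 2) ∈ KT x (WJ J) := x_mem_KT (Or.inl (by simp))
  have hu : x (j, 1) ∈ KT x (WJ (insert j J)) := x_mem_KT (Or.inr (Finset.mem_insert_self _ _))
  obtain ⟨u, hud⟩ : ∃ u, u = algebraMap K E (x (j, 1)) := ⟨_, rfl⟩
  obtain ⟨L, hL⟩ : ∃ L, L = Subfield.closure (D₀.R : Set E) := ⟨_, rfl⟩
  have hRL : ∀ z ∈ D₀.R, z ∈ L := fun z hz => hL ▸ Subfield.subset_closure hz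
  let pL : L := ⟨_, hRL _ (hK₀ _ hp)⟩
  let vL : L := ⟨_, hRL _ (hK₀ _ hv)⟩
  obtain ⟨n1, n2, n3⟩ := lam_ne_of hx j (algebraMap L E) (p := pL) (v := vL) rfl rfl
  have htr : Transcendental L (D.s - u) := by
    intro ha
    have h1 : IsAlgebraic L D.s := isAlgebraic_algebraMap (⟨D.s, hRL _ (hs₀ ▸ D₀.s_mem)⟩ : L)
    have h2 := h1.sub ha
    rw [sub_sub_cancel, hud] at h2
    subst hL
    exact htr₀ h2
  obtain ⟨DB, hBs, hBy, hBq⟩ : ∃ DB : Dat L E (Fin 2), DB.s = D.s - u ∧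
      (∀ i, DB.y i = D.y (j, i)) ∧ ∀ i, DB.q i = qq pL 0 vL i :=
    ⟨⟨D.s - u, fun i => D.y (j, i), qq pL 0 vL,
      fun i => hud ▸ lam_y_sq hq j i (algebraMap L E) rfl rfl, htr, qq_sep 0 n1 n2 n3,
      qq_natDegree 0 n1 n2 n3⟩, rfl, fun _ => rfl, fun _ => rfl⟩
  obtain ⟨A, hA⟩ : ∃ A, A = Algebra.adjoin D₀.R (insert (D.s - u) (Set.range fun i => D.y (j, i))) :=
    ⟨_, rfl⟩
  have hAf : D.s - u ∈ A := hA ▸ Algebra.subset_adjoin (Set.mem_insert _ _)
  have hAy : ∀ i, D.y (j, i) ∈ A := fun i =>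
    hA ▸ Algebra.subset_adjoin (Set.mem_insert_of_mem _ ⟨i, rfl⟩)
  have hRA : ∀ z ∈ D₀.R, z ∈ A := fun z hz => A.algebraMap_mem ⟨z, hz⟩
  have hAu : u ∈ A := by
    have := sub_mem (hRA _ (hs₀ ▸ D₀.s_mem)) hAf
    rwa [sub_sub_cancel] at this
  have hAle : ∀ {S : Type} [SetLike S E] [SubringClass S E] (T : S),
      (∀ z ∈ D₀.R, z ∈ T) → D.s - u ∈ T → (∀ i, D.y (j, i) ∈ T) → ∀ z ∈ A, z ∈ T := by
    intro S _ _ T h1 h2 h3 z hz
    rw [hA] at hz
    induction hz using Algebra.adjoin_induction with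
    | mem z hz =>
      rcases hz with rfl | ⟨i, rfl⟩
      exacts [h2, h3 i]
    | algebraMap a => exact h1 _ a.2
    | add z w _ _ hz hw => exact add_mem hz hw
    | mul z w _ _ hz hw => exact mul_mem hz hw
  have hy₁' : ∀ i, D₁.y (⟨j, Finset.mem_insert_self _ _⟩, i) = D.y (j, i) := fun i => hy₁ _
  have h01 : ∀ z ∈ D₀.R, z ∈ D₁.R := fun z hz =>
    lam_le D₀ D₁.R (fun a => hK₁ _ (KT_mono (WJ_mono J j) a.2)) (hs₀ ▸ hs₁ ▸ D₁.s_mem)
      (fun p => by
        rw [hy₀, ← hy₁ (⟨p.1, Finset.mem_insert_of_mem p.1.2⟩, p.2)]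
        exact D₁.y_mem _) hz
  have hu₁ : u ∈ D₁.R := hud ▸ hK₁ _ hu
  have hA₁ : ∀ z ∈ A, z ∈ D₁.R :=
    hAle D₁.R h01 (sub_mem (hs₁ ▸ D₁.s_mem) hu₁) fun i => hy₁' i ▸ D₁.y_mem _
  have hAB : ∀ z ∈ A, z ∈ DB.R :=
    hAle DB.R (fun z hz => DB.R.algebraMap_mem ⟨z, hRL z hz⟩) (hBs ▸ DB.s_mem)
      fun i => hBy i ▸ DB.y_mem i
  have hpoly : ∀ g : (KT x (WJ J))[X], algebraMap K E (aeval (x (j, 1)) g) ∈ A := by
    intro g
    rw [← aeval_algebraMap_apply, ← hud, aeval_eq_sum_range]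
    refine sum_mem fun i _ => ?_
    rw [Algebra.smul_def]
    exact mul_mem (hRA _ (D₀.R.algebraMap_mem _)) (pow_mem hAu _)
  have hpoly' : ∀ g : (KT x (WJ J))[X], aeval (x (j, 1)) g ∈ KT x (WJ (insert j J)) := by
    intro g
    rw [aeval_eq_sum_range]
    refine sum_mem fun i _ => ?_
    rw [Algebra.smul_def]
    exact mul_mem (KT_mono (WJ_mono J j) (g.coeff i).2) (pow_mem hu _)
  have hden : ∀ z ∈ D₁.R, ∃ m ∈ lamN A (algebraMap (KT x (WJ (insert j J))) E).range,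
      m * z ∈ A := by
    intro z hz
    refine lam_denom D₁ A (lamN A (algebraMap (KT x (WJ (insert j J))) E).range) (fun m hm => hm.1) (fun a => ?_) (hs₁ ▸ hRA _ (hs₀ ▸ D₀.s_mem))
      (fun p => ?_) hz
    · obtain ⟨r, t, e⟩ := (mem_adjoin_simple_iff _ _).1
        (KT_insert (KT_mono (WJ_insert J j) a.2))
      by_cases ht : aeval (x (j, 1)) t = 0
      · refine ⟨1, Submonoid.one_mem _, ?_⟩
        rw [ht, div_zero] at e
        rw [one_mul, show algebraMap _ E a = algebraMap K E a from rfl, e, map_zero]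
        exact zero_mem _
      · refine ⟨_, ⟨hpoly t, ⟨⟨_, hpoly' t⟩, rfl⟩, (_root_.map_ne_zero _).2 ht⟩, ?_⟩
        rw [show algebraMap _ E a = algebraMap K E a from rfl, e, ← map_mul,
          mul_div_cancel₀ _ ht]
        exact hpoly r
    · rw [hy₁]
      rcases Finset.mem_insert.1 p.1.2 with e | e
      · rw [e]
        exact hAy _
      · rw [← hy₀ (⟨p.1, e⟩, p.2)]
        exact hRA _ (D₀.y_mem _)
  have := D₁.dedekind
  refine lam_two A DB.R D₁.R hAB hA₁ (lamM A D₀.R) (fun m hm => ?_) (fun b => ?_) (fun r => ?_)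
    (fun I hI => DB.good_two _ (fun c a hc => ?_) ?_ I hI) (fun 𝔪 h𝔪 hm => ?_) I hI
  · exact lam_unit DB (a := ⟨m, hRL _ hm.2.1⟩) rfl hm.2.2
  · obtain ⟨m, hm, hb⟩ := lam_denom DB A (lamN A D₀.R) (fun m hm => hm.1) (fun a => by
      have ha := a.2
      subst hL
      obtain ⟨r, hr, t, ht, e⟩ := Subfield.mem_closure_iff.1 ha
      have e1 : Subring.closure (D₀.R : Set E) = D₀.R.toSubring :=
        Subring.closure_eq D₀.R.toSubring
      rw [e1] at hr ht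
      by_cases h0 : t = 0
      · refine ⟨1, Submonoid.one_mem _, ?_⟩
        rw [h0, div_zero] at e
        rw [one_mul, show algebraMap _ E a = (a : E) from rfl, ← e]
        exact zero_mem _
      · refine ⟨t, ⟨hRA _ ht, ht, h0⟩, ?_⟩
        rw [show algebraMap _ E a = (a : E) from rfl, ← e, mul_div_cancel₀ _ h0]
        exact hRA _ hr) (hBs ▸ hAf) (fun i => hBy i ▸ hAy i) b.2
    exact ⟨⟨m, hm.1⟩, hm, ⟨_, hb⟩, Subtype.ext rfl⟩
  · obtain ⟨m, hm, hb⟩ := hden r r.2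
    obtain ⟨a, ha⟩ := hm.2.1
    exact ⟨⟨m, hm.1⟩, ⟨_, hb⟩, lam_unit D₁ ha.symm hm.2.2, Subtype.ext rfl⟩
  · have e : ∀ i, (a i : E) ^ 2 = (qq (algebraMap K E (x (j, 0))) 0
        (algebraMap K E (x (j, 2))) i).eval (c : E) := by
      intro i
      have := congrArg (algebraMap L E) (hc i)
      rw [map_pow, hBq, ← eval₂_hom, eval₂_eq_eval_map, qq_map, map_zero] at this
      exact this
    obtain ⟨c₀, a₀, e1, e2⟩ := hrig (hL ▸ c.2) (fun i => hL ▸ (a i).2) e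
    have m1 : D.s - u - c ∈ A := sub_mem hAf (e1 ▸ hRA _ (hK₀ _ c₀.2))
    have m2 : ∀ i, D.y (j, i) - a i ∈ A := fun i => sub_mem (hAy i) (e2 i ▸ hRA _ (hK₀ _ (a₀ i).2))
    refine ⟨Ideal.span (insert ⟨_, m1⟩ (Set.range fun i => ⟨_, m2 i⟩)),
      ⟨j, x (j, 1) + c₀, fun i => a₀ i, fun i => ?_, ⟨_, m1⟩, fun i => ⟨_, m2 i⟩, ?_, fun i => ?_,
        rfl⟩, ?_⟩
    · apply (algebraMap K E).injective
      have e3 : (D.res (emb j)).q i = qq (x (j, 0)) (x (j, 1)) (x (j, 2)) i := hq (j, i)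
      rw [map_pow, ← e2, e, e3, qq_comp (x (j, 0)) (x (j, 1)), eval_comp, ← eval₂_hom,
        eval₂_eq_eval_map, qq_map, map_zero, e1]
      simp
    · change D.s - u - c = _
      rw [map_add, ← hud, ← e1, sub_sub]
    · change D.y (j, i) - a i = _
      rw [e2]
    · have e4 : lamInc A DB.R hAB ⟨_, m1⟩ = DB.sR - algebraMap L DB.R c :=
        Subtype.ext (congrArg (· - (c : E)) hBs.symm)
      have e5 : (lamInc A DB.R hAB ∘ fun i => ⟨_, m2 i⟩) =
          fun i => DB.yR i - algebraMap L DB.R (a i) := by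
        funext i
        exact Subtype.ext (congrArg (· - (a i : E)) (hBy i).symm)
      rw [Ideal.map_span, Set.image_insert_eq, ← Set.range_comp, e4, e5, Dat.pt]
  · refine ⟨0, ![0, 1], fun i => ?_⟩
    rw [hBq]
    fin_cases i
    · simp [qq_eval_zero]
    · simp [qq_eval_one]
  · obtain ⟨m, hm, hm'⟩ := hm
    have h0 : 𝔪.comap (lamInc D₀.R D₁.R h01) ≠ ⊥ := fun e => by
      have e1 : lamInc A D₁.R hA₁ m = lamInc D₀.R D₁.R h01 ⟨m, hm.2.1⟩ :=
        Subtype.ext ((lamInc_coe _ _ _ _).trans (lamInc_coe D₀.R D₁.R h01 ⟨m, hm.2.1⟩).symm)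
      rw [e1] at hm'
      have := Ideal.mem_comap.2 hm'
      rw [e, Ideal.mem_bot] at this
      exact hm.2.2 (congrArg Subtype.val this)
    obtain ⟨o1, o2, o3⟩ := lam_ne_of hx j (algebraMap (KT x (WJ J)) E) (p := ⟨_, hp⟩)
      (v := ⟨_, hv⟩) rfl rfl
    have ev : ∀ (g : (KT x (WJ J))[X]) (z : D₁.R),
        ((g.eval₂ ((lamInc D₀.R D₁.R h01).comp (algebraMap _ D₀.R)) z : D₁.R) : E) =
          g.eval₂ (algebraMap _ E) z := fun g z =>
      lam_eval₂ D₁.R _ _ (fun _ => rfl) g z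
    have ef : ((lamInc D₀.R D₁.R h01 D₀.sR - ⟨u, hu₁⟩ : D₁.R) : E) = D.s - u := by
      rw [AddSubgroupClass.coe_sub, lamInc_coe, ← hs₀]
      rfl
    have key := D₀.case_one (lamInc D₀.R D₁.R h01) ⟨u, hu₁⟩ (fun g hg => ?_)
      (qq ⟨_, hp⟩ 0 ⟨_, hv⟩) (qq_sep 0 o1 o2 o3)
      (fun i => by rw [qq_natDegree 0 o1 o2 o3]; norm_num)
      (fun i => D₁.yR (⟨j, Finset.mem_insert_self _ _⟩, i)) (fun i => Subtype.ext ?_) (fun z => ?_)
      𝔪 h𝔪 h0
    · rw [key]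
      exact lam_good _ _ h01 (ih _ h0)
    · have e : ((g.eval₂ ((lamInc D₀.R D₁.R h01).comp (algebraMap _ D₀.R)) ⟨u, hu₁⟩ : D₁.R) :
          E) = algebraMap K E (aeval (x (j, 1)) g) := by
        rw [ev, ← aeval_algebraMap_apply, ← hud, aeval_def]
      refine lam_unit D₁ (a := ⟨_, hpoly' g⟩) e ?_
      rw [e, _root_.map_ne_zero]
      exact fun e0 => KT_tr hx (T := WJ J) (w := (j, 1)) (by simp [WJ, hj]) ⟨g, hg, e0⟩
    · rw [ev, ef, SubmonoidClass.coe_pow, hud]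
      exact (congrArg (· ^ 2) (hy₁' i)).trans (lam_y_sq hq j i _ rfl rfl)
    · obtain ⟨m, hm, hb⟩ := hden z z.2
      obtain ⟨a, ha⟩ := hm.2.1
      refine ⟨⟨m, hA₁ _ hm.1⟩, lam_unit D₁ ha.symm hm.2.2, ?_⟩
      rw [hA] at hb
      obtain ⟨c, hc⟩ := mq_mem_poly (P := D₀.R)
        (q := fun i => (qq ⟨_, hp⟩ 0 ⟨_, hv⟩ i).map (algebraMap (KT x (WJ J)) D₀.R)) (fun i => by
          rw [aeval_map_algebraMap, aeval_def, hud]
          exact lam_y_sq hq j i _ rfl rfl) hb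
      refine ⟨c, Subtype.ext ?_⟩
      rw [MulMemClass.coe_mul, hc, AddSubmonoidClass.coe_finsetSum]
      refine Finset.sum_congr rfl fun S _ => ?_
      rw [MulMemClass.coe_mul, SubmonoidClass.coe_finsetProd]
      congr 1
      · rw [lam_eval₂ D₁.R _ (algebraMap D₀.R E) (fun _ => rfl), ef, aeval_def]
      · exact Finset.prod_congr rfl fun i _ => (hy₁' i).symm

end Step

variable {K Ω : Type} [Field K] [CharZero K] [Field Ω] [CharZero Ω] [Algebra K Ω]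
  [Algebra K (LS Ω)] [IsScalarTower K Ω (LS Ω)] {x : W → K} {D : Dat K (LS Ω) I10} {η : I10 → Ω}

theorem Main.good_sub (h : Main x D η) (J : Finset (Fin 5)) :
    ∀ D' : Dat (KT x (WJ J)) (LS Ω) (J × Fin 2), D'.s = D.s → (∀ p, D'.y p = D.y (p.1, p.2)) →
      ∀ I : Ideal D'.R, I ≠ ⊥ → Good (D.Pt D'.R.val.toRingHom) I := by
  classical
  induction J using Finset.induction_on with
  | empty =>
    intro D' _ _ I hI
    obtain ⟨a, rfl⟩ := D'.isPrincipal_of_isEmpty I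
    refine Good.prin a ?_
    rintro rfl
    exact hI (Ideal.span_singleton_eq_bot.2 rfl)
  | insert j J hj ih =>
    obtain ⟨D₀, hs₀, hy₀⟩ := h.exists_sub J
    exact fun D₁ hs₁ hy₁ => lam_step h.ind h.hq hj D₀ hs₀ hy₀ (h.lam_tr hj D₀ hs₀ hy₀)
      (h.lam_rigid hj D₀ hs₀ hy₀) (ih D₀ hs₀ hy₀) D₁ hs₁ hy₁

theorem Main.good (h : Main x D η) (I : Ideal D.R) (hI : I ≠ ⊥) :
    Good (D.Pt D.R.val.toRingHom) I := by
  obtain ⟨D', hs, hy⟩ := h.exists_sub Finset.univ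
  have h1 : ∀ z ∈ D'.R, z ∈ D.R := fun z hz =>
    lam_le D' D.R (fun a => D.R.algebraMap_mem (a : K)) (hs ▸ D.s_mem)
      (fun p => hy p ▸ D.y_mem _) hz
  have h2 : ∀ z ∈ D.R, z ∈ D'.R := fun z hz =>
    lam_le D D'.R (fun a => by
      have ha : a ∈ KT x (WJ Finset.univ) := by
        have e : WJ Finset.univ = Set.univ := Set.eq_univ_of_forall fun w => Or.inr (by simp)
        rw [e, KT, Set.image_univ, h.top]
        trivial
      exact D'.R.algebraMap_mem ⟨a, ha⟩) (hs ▸ D'.s_mem)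
      (fun p => by
        rw [← hy (⟨p.1, Finset.mem_univ _⟩, p.2)]
        exact D'.y_mem _) hz
  have h3 : Function.Surjective (lamInc D'.R D.R h1) := fun z => ⟨⟨z, h2 z z.2⟩, Subtype.ext rfl⟩
  have h4 := Ideal.map_comap_of_surjective _ h3 I
  rw [← h4]
  refine lam_good _ _ h1 (h.good_sub _ D' hs hy _ fun e => hI ?_)
  rw [← h4, e, Ideal.map_bot]

end Pool.Agent.MP_e6b751_nt
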