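import Pool.Agent.MP_e6b751_nt.IDefs

namespace Pool.Agent.MP_e6b751_nt

open Polynomial IntermediateField

lemma rigid_unit {L : Type} [Field L] [CharZero L] (n : ℕ) [n.AtLeastTwo] :
    IsUnit (OfNat.ofNat n : L[X]) := by
  rw [← map_ofNat (C : L →+* L[X]) n]
  exact isUnit_C.2 (IsUnit.mk0 _ (OfNat.ofNat_ne_zero n))

lemma rigid_sqfree {L : Type} [Field L] [CharZero L] : Squarefree (X ^ 3 - X : L[X]) := by
  refine Separable.squarefree ?_
  obtain ⟨u, hu⟩ := (rigid_unit (L := L) 2).exists_left_inv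
  refine ⟨u * (-9 * X), u * (3 * X ^ 2 - 2), ?_⟩
  rw [← hu]
  simp only [derivative_sub, derivative_X_pow, derivative_X, map_natCast]
  push_cast
  ring

lemma rigid_deg {L : Type} [Field L] : (X ^ 3 - X : L[X]).natDegree = 3 := by
  compute_degree!

lemma rigid_poly {L : Type} [Field L] [CharZero L] {a b g h a' b' g' h' : L[X]}
    (hab : IsCoprime a b) (ha : a ≠ 0) (hb : b ≠ 0) (e₁ : (X ^ 3 - X) * g ^ 2 = a * b)
    (e₂ : h ^ 2 = a ^ 2 + 4 * b ^ 2) (d₁ : a' * b + a * b' = 2 * ((X ^ 3 - X) * g) * g')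
    (d₂ : h * h' = a * a' + 4 * b * b') (da : a'.natDegree ≤ a.natDegree)
    (db : b'.natDegree ≤ b.natDegree) : b * a' - a * b' = 0 := by
  set δ : L[X] := X ^ 3 - X with hδ
  have c₁ : IsCoprime a h := by
    have h₁ : IsCoprime a (4 * b ^ 2) :=
      (isCoprime_mul_unit_left_right (rigid_unit 4) _ _).2 hab.pow_right
    have h₂ := h₁.add_mul_left_right a
    rw [show 4 * b ^ 2 + a * a = h ^ 2 by rw [e₂]; ring] at h₂
    exact (IsCoprime.pow_right_iff (by norm_num)).1 h₂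
  have c₂ : IsCoprime b h := by
    have h₂ := (hab.symm.pow_right (n := 2)).add_mul_left_right (4 * b)
    rw [show a ^ 2 + b * (4 * b) = h ^ 2 by rw [e₂]; ring] at h₂
    exact (IsCoprime.pow_right_iff (by norm_num)).1 h₂
  have v₁ : h ∣ b * a' - a * b' := by
    refine c₁.symm.dvd_of_dvd_mul_left ⟨b * h' - h * b', ?_⟩
    linear_combination b' * e₂ - b * d₂
  have hg : δ * g ∣ a * b := ⟨g, by rw [← e₁]; ring⟩
  have v₂ : δ * g ∣ a' * b := by
    obtain ⟨p, q, hp, hq, e⟩ := exists_dvd_and_dvd_of_dvd_mul hg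
    have h₁ : δ * g ∣ a' * b + a * b' := ⟨2 * g', by rw [d₁]; ring⟩
    rw [e] at h₁ ⊢
    refine ((hab.of_isCoprime_of_dvd_left hp).of_isCoprime_of_dvd_right hq).mul_dvd ?_
      (hq.mul_left _)
    exact (dvd_add_left (hp.mul_right _)).1 ((Dvd.intro _ rfl).trans h₁)
  have v₃ : δ * g ∣ b * a' - a * b' := by
    obtain ⟨w, hw⟩ := v₂
    exact ⟨2 * w - 2 * g', by linear_combination 2 * hw - d₁⟩
  have v₄ := ((c₁.mul_left c₂).of_isCoprime_of_dvd_left hg).mul_dvd v₃ v₁
  by_contra hW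
  have n₁ := natDegree_le_of_dvd v₄ hW
  have hab0 : δ * g ^ 2 ≠ 0 := by rw [e₁]; exact mul_ne_zero ha hb
  have δ0 : δ ≠ 0 := left_ne_zero_of_mul hab0
  have g0 : g ≠ 0 := fun e => hab0 (by rw [e]; ring)
  have h0 : h ≠ 0 := fun e => hW (by rw [e] at v₁; exact zero_dvd_iff.1 v₁)
  have n₂ : (b * a' - a * b').natDegree ≤ a.natDegree + b.natDegree := by
    refine (natDegree_sub_le _ _).trans (max_le (natDegree_mul_le.trans ?_)
      (natDegree_mul_le.trans ?_)) <;> omega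
  have n₃ := congrArg natDegree e₁
  have n₄ := congrArg natDegree e₂
  have n₅ : δ.natDegree = 3 := rigid_deg
  have n₆ : (4 * b ^ 2).natDegree = 2 * b.natDegree := by
    rw [natDegree_mul (rigid_unit 4).ne_zero (pow_ne_zero _ hb), natDegree_pow,
      natDegree_eq_zero_of_isUnit (rigid_unit 4), zero_add]
  rw [natDegree_mul δ0 (pow_ne_zero _ g0), natDegree_mul ha hb, natDegree_pow] at n₃
  rw [natDegree_mul (mul_ne_zero δ0 g0) h0, natDegree_mul δ0 g0] at n₁
  rcases lt_trichotomy a.natDegree b.natDegree with q | q | q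
  · rw [natDegree_add_eq_right_of_natDegree_lt (by rw [n₆, natDegree_pow]; omega), n₆,
      natDegree_pow] at n₄
    omega
  · omega
  · rw [natDegree_add_eq_left_of_natDegree_lt (by rw [n₆, natDegree_pow]; omega), natDegree_pow,
      natDegree_pow] at n₄
    omega

lemma rigid_frac {L E : Type} [Field L] [Field E] [Algebra L E] {x u : E} (hu : u ∈ L⟮x⟯) :
    ∃ r s : L[X], IsCoprime r s ∧ aeval x s ≠ 0 ∧ u * aeval x s = aeval x r := by
  obtain ⟨r, s, e⟩ := (mem_adjoin_simple_iff _ _).1 hu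
  by_cases hs : aeval x s = 0
  · exact ⟨0, 1, isCoprime_one_right, by simp, by simp [e, hs]⟩
  have hs0 : s ≠ 0 := fun h => hs (by simp [h])
  obtain ⟨s', r', c, h₁, rfl, rfl⟩ := UniqueFactorizationMonoid.exists_reduced_factors s hs0 r
  rw [map_mul] at hs
  refine ⟨r', s', h₁.isCoprime.symm, right_ne_zero_of_mul hs, ?_⟩
  have h₂ := left_ne_zero_of_mul hs
  have h₃ := right_ne_zero_of_mul hs
  rw [e, map_mul, map_mul]
  field_simp

lemma rigid_int {L E : Type} [Field L] [Field E] [Algebra L E] {x u : E}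
    (hx : Transcendental L x) (hu : u ∈ L⟮x⟯) {p : L[X]} (h : u ^ 2 = aeval x p) :
    ∃ g : L[X], u = aeval x g := by
  obtain ⟨r, s, h₁, h₂, h₃⟩ := rigid_frac hu
  have h₄ : r ^ 2 = s * (s * p) := by
    apply transcendental_iff_injective.1 hx
    simp only [map_pow, map_mul]
    rw [← h₃, ← h]
    ring
  have h₅ : IsUnit s := (h₁.symm.pow_right (n := 2)).isUnit_of_dvd ⟨_, h₄⟩
  obtain ⟨t, ht⟩ := h₅.exists_right_inv
  refine ⟨r * t, ?_⟩
  rw [map_mul, ← h₃, mul_assoc, ← map_mul, ht, map_one, mul_one]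

lemma rigid_der {L E : Type} [Field L] [Field E] [Algebra L E] (D : E →+ E)
    (hD : ∀ x z, D (x * z) = x * D z + z * D x)
    (hL : ∀ a : L, ∃ b : L, D (algebraMap L E a) = algebraMap L E b) {x : E} (hDx : D x = 0)
    (g : L[X]) : ∃ g' : L[X], D (aeval x g) = aeval x g' ∧ g'.natDegree ≤ g.natDegree := by
  choose d hd using hL
  have h₁ : D 1 = 0 := by simpa using hD 1 1
  have h₂ : ∀ i : ℕ, D (x ^ i) = 0 := by
    intro i
    induction i with
    | zero => simpa using h₁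
    | succ i ih => rw [pow_succ, hD, ih, hDx]; simp
  refine ⟨∑ i ∈ Finset.range (g.natDegree + 1), monomial i (d (g.coeff i)), ?_, ?_⟩
  · rw [aeval_eq_sum_range, map_sum, map_sum]
    refine Finset.sum_congr rfl fun i _ => ?_
    rw [Algebra.smul_def, hD, h₂, hd, aeval_monomial]
    ring
  · refine natDegree_sum_le_of_forall_le _ _ fun i hi => (natDegree_monomial_le _).trans ?_
    rw [Finset.mem_range] at hi
    omega

/-- Points of the twisted curve over `L(X)` are constant for every derivation that kills `X`. -/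
theorem rigid {L E : Type} [Field L] [CharZero L] [Field E] [Algebra L E] (D : E →+ E)
    (hD : ∀ x z, D (x * z) = x * D z + z * D x)
    (hL : ∀ a : L, ∃ b : L, D (algebraMap L E a) = algebraMap L E b) {x : E}
    (hx : Transcendental L x) (hDx : D x = 0) {γ Y₁ Y₂ : E} (hγ : γ ∈ L⟮x⟯) (h₁ : Y₁ ∈ L⟮x⟯)
    (h₂ : Y₂ ∈ L⟮x⟯) (e₁ : (x ^ 3 - x) * Y₁ ^ 2 = γ) (e₂ : Y₂ ^ 2 = γ ^ 2 + 4) : D γ = 0 := by
  by_cases h0 : γ = 0
  · rw [h0, map_zero]
  have inj := transcendental_iff_injective.1 hx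
  have : CharZero E := charZero_of_injective_algebraMap (algebraMap L E).injective
  have mem : ∀ p : L[X], aeval x p ∈ L⟮x⟯ := fun p =>
    (mem_adjoin_simple_iff _ _).2 ⟨p, 1, by simp⟩
  obtain ⟨a, b, hab, hb, e⟩ := rigid_frac hγ
  have ha0 : a ≠ 0 := fun h => mul_ne_zero h0 hb (by rw [e, h, map_zero])
  have hb0 : b ≠ 0 := fun h => hb (by rw [h, map_zero])
  have eδ : aeval x (X ^ 3 - X : L[X]) = x ^ 3 - x := by simp
  obtain ⟨g₁, hg₁⟩ := rigid_int hx (mul_mem (mul_mem (mem (X ^ 3 - X)) h₁) (mem b))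
    (p := (X ^ 3 - X) * (a * b)) (by
      rw [map_mul, map_mul, eδ, ← e, ← e₁]; ring)
  obtain ⟨h, hh⟩ := rigid_int hx (mul_mem h₂ (mem b)) (p := a ^ 2 + 4 * b ^ 2) (by
      rw [map_add, map_mul, map_pow, map_pow, map_ofNat, ← e, mul_pow, e₂]; ring)
  have q₁ : g₁ ^ 2 = (X ^ 3 - X) * (a * b) := by
    apply inj
    rw [map_pow, ← hg₁, map_mul, map_mul, eδ, ← e, ← e₁]; ring
  have q₂ : h ^ 2 = a ^ 2 + 4 * b ^ 2 := by
    apply inj
    rw [map_pow, ← hh, map_add, map_mul, map_pow, map_pow, map_ofNat, ← e, mul_pow, e₂]; ring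
  obtain ⟨g, rfl⟩ := (rigid_sqfree.dvd_pow_iff_dvd (by norm_num)).1 ⟨_, q₁⟩
  have q₃ : (X ^ 3 - X) * g ^ 2 = a * b :=
    mul_left_cancel₀ rigid_sqfree.ne_zero (by rw [← q₁]; ring)
  obtain ⟨a', ha', da⟩ := rigid_der D hD hL hDx a
  obtain ⟨b', hb', db⟩ := rigid_der D hD hL hDx b
  obtain ⟨g', hg', -⟩ := rigid_der D hD hL hDx g
  obtain ⟨h', hh', -⟩ := rigid_der D hD hL hDx h
  have Dδ : D (x ^ 3 - x) = 0 := by
    rw [map_sub, pow_three, hD, hD, hDx]; ring
  have W := rigid_poly (a' := a') (b' := b') (g' := g') (h' := h') hab ha0 hb0 q₃ q₂ (by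
      apply inj
      have t := congrArg (fun p => D (aeval x p)) q₃
      simp only [map_mul, eδ, sq, hD, Dδ, ha', hb', hg'] at t
      simp only [map_mul, map_add, map_ofNat, eδ]
      linear_combination -t) (by
      apply inj
      have t := congrArg (fun p => D (aeval x p))
        (q₂.trans (show _ = a * a + (b * b + b * b + b * b + b * b) by ring))
      simp only [map_mul, map_add, sq, hD, ha', hb', hh'] at t
      simp only [map_mul, map_add, map_ofNat]
      linear_combination t / 2) da db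
  have t₁ := congrArg (aeval x) W
  have t₂ := congrArg D e
  rw [map_sub, map_mul, map_mul, map_zero, ← e] at t₁
  rw [hD, ha', hb'] at t₂
  refine mul_left_cancel₀ (mul_ne_zero hb hb) ?_
  linear_combination aeval x b * t₂ + t₁

end Pool.Agent.MP_e6b751_nt
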