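import Pool.Agent.MP_e6b751_nt.Setup
import Pool.Agent.MP_e6b751_nt.Rigid
import Pool.Agent.MP_e6b751_nt.DatA2

namespace Pool.Agent.MP_e6b751_nt

open Polynomial IntermediateField

/-- The variables without the `u σ`, `σ ∉ J`. -/
def WJ (J : Finset (Fin 5)) : Set W := {w | w.2 ≠ 1 ∨ w.1 ∈ J}

variable {K Ω : Type} [Field K] [CharZero K] [Field Ω] [CharZero Ω] [Algebra K Ω]
  [Algebra K (LS Ω)] [IsScalarTower K Ω (LS Ω)] {x : W → K} {D : Dat K (LS Ω) I10} {η : I10 → Ω}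

omit [CharZero Ω] in
theorem Main.exists_sub (h : Main x D η) (J : Finset (Fin 5)) :
    ∃ D' : Dat (KT x (WJ J)) (LS Ω) (J × Fin 2), D'.s = D.s ∧ ∀ p, D'.y p = D.y (p.1, p.2) := by
  have hm : ∀ (σ : J) (i : Fin 3), x (σ, i) ∈ KT x (WJ J) := fun σ i => x_mem_KT (Or.inr σ.2)
  let q : J × Fin 2 → (KT x (WJ J))[X] := fun p =>
    qq ⟨_, hm p.1 0⟩ ⟨_, hm p.1 1⟩ ⟨_, hm p.1 2⟩ p.2
  have hq : ∀ p, (q p).map (algebraMap (KT x (WJ J)) K) = D.q (p.1, p.2) := fun p => by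
    rw [h.hq, qq_map]
    rfl
  let e : J × Fin 2 ↪ I10 := ⟨fun p => (p.1, p.2), fun p p' hp =>
    Prod.ext (Subtype.ext (Prod.mk.inj hp).1) (Prod.mk.inj hp).2⟩
  refine ⟨⟨D.s, fun p => D.y (p.1, p.2), q, fun p => ?_, D.tr.of_tower_top _, ?_, fun p => ?_⟩,
    rfl, fun _ => rfl⟩
  · rw [D.sq, ← hq, aeval_map_algebraMap]
  · rw [← separable_map (algebraMap (KT x (WJ J)) K), Polynomial.map_prod]
    simp only [hq]
    exact (D.res e).sep
  · rw [← natDegree_map (algebraMap (KT x (WJ J)) K), hq, D.deg]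

omit [CharZero K] [CharZero Ω] in
theorem lamA_cst (z : K) : algebraMap K (LS Ω) z = cst (algebraMap K Ω z) :=
  IsScalarTower.algebraMap_apply K Ω (LS Ω) z

theorem lamA_closure {F E ι : Type} [Field F] [Field E] [Algebra F E] [Fintype ι] (D : Dat F E ι)
    {L : Subfield E} (h0 : ∀ z, algebraMap F E z ∈ L) (h1 : D.s ∈ L) (h2 : ∀ i, D.y i ∈ L) :
    Subfield.closure (D.R : Set E) ≤ L := by
  have : D.R ≤ (L.toIntermediateField h0).toSubalgebra := by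
    refine Algebra.adjoin_le (Set.insert_subset h1 ?_)
    rintro _ ⟨i, rfl⟩
    exact h2 i
  exact Subfield.closure_le.2 this

theorem lamA_KT {E : Type} [Field E] [Algebra K E] {T : Set W} {L : Subfield E}
    (h : ∀ w ∈ T, algebraMap K E (x w) ∈ L) {z : K} (hz : z ∈ KT x T) : algebraMap K E z ∈ L := by
  have : KT x T ≤ (L.comap (algebraMap K E)).toIntermediateField fun r => by
      rw [eq_ratCast]
      exact SubfieldClass.ratCast_mem _ r := by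
    refine adjoin_le_iff.2 ?_
    rintro _ ⟨w, hw, rfl⟩
    exact h w hw
  exact this hz

omit [CharZero Ω] in
theorem Main.lamA_le (h : Main x D η) {J : Finset (Fin 5)} {j : Fin 5} (hj : j ∉ J) (k : Fin 3)
    (D' : Dat (KT x (WJ J)) (LS Ω) (J × Fin 2)) (hs : D'.s = D.s)
    (hy : ∀ p, D'.y p = D.y (p.1, p.2)) {L : Subfield (LS Ω)}
    (hL : Coef (Acl x Ω {(j, k)}ᶜ) ≤ L)
    (hk : (j, k) ∈ WJ J → algebraMap K (LS Ω) (x (j, k)) ∈ L) :
    Subfield.closure (D'.R : Set (LS Ω)) ≤ L := by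
  refine lamA_closure D' (fun z => lamA_KT (x := x) (T := WJ J) (fun w hw => ?_) z.2) ?_
    fun p => ?_
  · by_cases e : w = (j, k)
    · subst e
      exact hk hw
    · rw [lamA_cst]
      exact hL (cst_mem_Coef (mem_Acl_of_mem (x_mem_KT e)))
  · rw [hs, h.inf.hs]
    exact hL (sT_mem_Coef _)
  · rw [hy]
    exact hL (h.co _ _ fun i e => hj ((Prod.mk.inj e).1 ▸ p.1.2))

omit [CharZero Ω] in
theorem Main.lam_tr (h : Main x D η) {J : Finset (Fin 5)} {j : Fin 5} (hj : j ∉ J)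
    (D' : Dat (KT x (WJ J)) (LS Ω) (J × Fin 2)) (hs : D'.s = D.s)
    (hy : ∀ p, D'.y p = D.y (p.1, p.2)) :
    Transcendental (Subfield.closure (D'.R : Set (LS Ω))) (algebraMap K (LS Ω) (x (j, 1))) := by
  have h1 := h.lamA_le hj 1 D' hs hy le_rfl fun e => (e.elim (fun e => e rfl) hj).elim
  have h2 := transcendental_cst (Acl_tr (Ω := Ω) h.ind (T := {(j, 1)}ᶜ) (w := (j, 1))
    fun e => e rfl)
  rw [lamA_cst]
  exact Transcendental.of_ringHom_of_comp_eq (Subfield.inclusion h1) (RingHom.id _) h2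
    (Subfield.inclusion h1).injective rfl

/-- A constant that is a quotient of two functions. -/
theorem lamA_const {F ι : Type} [Field F] [Fintype ι] [Algebra F Ω] [Algebra F (LS Ω)]
    [IsScalarTower F Ω (LS Ω)] (D : Dat F (LS Ω) ι) (hs : D.s = sT) {z : LS Ω}
    (hz : z ∈ Subfield.closure (D.R : Set (LS Ω))) (hc : z ∈ (cst (Ω := Ω)).fieldRange) :
    ∃ z₀ : F, z = algebraMap F (LS Ω) z₀ := by
  obtain ⟨w, rfl⟩ := hc
  let D' : Dat Ω (LS Ω) ι := ⟨D.s, D.y, fun i => (D.q i).map (algebraMap F Ω),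
    fun i => by rw [D.sq, aeval_map_algebraMap], hs ▸ transcendental_sT,
    by rw [← Polynomial.map_prod, separable_map]; exact D.sep,
    fun i => by rw [natDegree_map, D.deg]⟩
  obtain ⟨α, hα, β, hβ, e⟩ := Subfield.mem_closure_iff.1 hz
  have hR : Subring.closure (D.R : Set (LS Ω)) ≤ D.R.toSubring := Subring.closure_le.2 le_rfl
  by_cases h0 : β = 0
  · exact ⟨0, by rw [← e, h0, div_zero, map_zero]⟩
  obtain ⟨z₀, rfl⟩ := D.const_mem (F' := Ω) D'.ind (z := w) (hR hα) (hR hβ) h0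
    (by rw [algebraMap_LS, ← e, div_mul_cancel₀ _ h0])
  exact ⟨z₀, (IsScalarTower.algebraMap_apply F Ω (LS Ω) z₀).symm⟩

theorem lamA_der {δ : LS Ω →+ LS Ω} (h : ∀ z n, co (δ z) n = n * co z n) (z : LS Ω) :
    δ z = 0 ↔ z ∈ (cst (Ω := Ω)).fieldRange := by
  constructor
  · refine fun h0 => ⟨co z 0, ls_ext fun n => ?_⟩
    change co (cst (co z 0)) n = _
    rw [co_cst]
    split_ifs with e
    · rw [e]
    · have := h z n
      rw [h0, co_zero] at this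
      exact ((mul_eq_zero.1 this.symm).resolve_left (Int.cast_ne_zero.2 e)).symm
  · rintro ⟨w, rfl⟩
    refine ls_ext fun n => ?_
    change co (δ (cst w)) n = _
    rw [h, co_cst, co_zero]
    split_ifs with e
    · rw [e, Int.cast_zero, zero_mul]
    · rw [mul_zero]

theorem Main.lam_rigid (h : Main x D η) {J : Finset (Fin 5)} {j : Fin 5} (hj : j ∉ J)
    (D' : Dat (KT x (WJ J)) (LS Ω) (J × Fin 2)) (hs : D'.s = D.s)
    (hy : ∀ p, D'.y p = D.y (p.1, p.2)) {c : LS Ω} {a : Fin 2 → LS Ω}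
    (hc : c ∈ Subfield.closure (D'.R : Set (LS Ω)))
    (ha : ∀ i, a i ∈ Subfield.closure (D'.R : Set (LS Ω)))
    (e : ∀ i, a i ^ 2 =
      (qq (algebraMap K (LS Ω) (x (j, 0))) 0 (algebraMap K (LS Ω) (x (j, 2))) i).eval c) :
    ∃ (c₀ : KT x (WJ J)) (a₀ : Fin 2 → KT x (WJ J)), c = algebraMap K (LS Ω) c₀ ∧
      ∀ i, a i = algebraMap K (LS Ω) (a₀ i) := by
  obtain ⟨δ, hδ, hm⟩ := exists_der (Ω := Ω)
  have e0 := e 0
  have e1 := e 1
  rw [qq_eval_zero, sub_zero] at e0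
  rw [qq_eval_one, sub_zero] at e1
  have hp : algebraMap K (LS Ω) (x (j, 0)) ∈ (cst (Ω := Ω)).fieldRange := ⟨_, (lamA_cst _).symm⟩
  have hv : algebraMap K (LS Ω) (x (j, 2)) ∈ (cst (Ω := Ω)).fieldRange := ⟨_, (lamA_cst _).symm⟩
  have hv' : algebraMap K (LS Ω) (x (j, 2)) ∈ Coef (Acl x Ω {(j, 0)}ᶜ) := by
    rw [lamA_cst]
    exact cst_mem_Coef (mem_Acl_of_mem (x_mem_KT fun e => by simpa using (Prod.mk.inj e).2))
  have hp0 : algebraMap K (LS Ω) (x (j, 0)) ^ 3 - algebraMap K (LS Ω) (x (j, 0)) ≠ 0 := by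
    rw [← map_pow, ← map_sub]
    exact (_root_.map_ne_zero _).2 (x_ne h.ind j).1
  have ht : Transcendental (Coef (Acl x Ω {(j, 0)}ᶜ)) (algebraMap K (LS Ω) (x (j, 0))) := by
    rw [lamA_cst]
    exact transcendental_cst (Acl_tr h.ind fun e => e rfl)
  have hL : ∀ z ∈ Coef (Acl x Ω {(j, 0)}ᶜ),
      z ∈ (Coef (Acl x Ω {(j, 0)}ᶜ))⟮algebraMap K (LS Ω) (x (j, 0))⟯ := fun z hz =>
    IntermediateField.algebraMap_mem _ (⟨z, hz⟩ : Coef (Acl x Ω {(j, 0)}ᶜ))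
  have hle := h.lamA_le hj 0 D' hs hy
    (L := (Coef (Acl x Ω {(j, 0)}ᶜ))⟮algebraMap K (LS Ω) (x (j, 0))⟯.toSubfield) hL
    fun _ => mem_adjoin_simple_self _ _
  have hv'' := hL _ hv'
  have hst : ∀ z : Coef (Acl x Ω {(j, 0)}ᶜ), ∃ b : Coef (Acl x Ω {(j, 0)}ᶜ),
      δ (algebraMap _ (LS Ω) z) = algebraMap _ (LS Ω) b := fun z =>
    ⟨⟨δ z, fun n => by rw [hδ]; exact mul_mem (intCast_mem _ n) (z.2 n)⟩, rfl⟩
  generalize algebraMap K (LS Ω) (x (j, 0)) = p at e0 hp hp0 ht hle hv''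
  generalize algebraMap K (LS Ω) (x (j, 2)) = v at e0 e1 hv hv''
  have hc' : c ∈ (cst (Ω := Ω)).fieldRange := by
    by_cases c0 : c = 0
    · exact c0 ▸ zero_mem _
    have h1 := rigid δ hm hst ht ((lamA_der hδ p).2 hp) (γ := v + c⁻¹) (Y₁ := a 0 / c)
      (Y₂ := a 1 / c) (add_mem hv'' (inv_mem (hle hc))) (div_mem (hle (ha 0)) (hle hc))
      (div_mem (hle (ha 1)) (hle hc)) (by
        rw [div_pow, e0, ← mul_div_assoc, mul_inv_cancel_left₀ hp0]
        field_simp)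
      (by rw [div_pow, e1]; field_simp)
    have h2 := inv_mem (sub_mem ((lamA_der hδ _).1 h1) hv)
    rwa [add_sub_cancel_left, inv_inv] at h2
  have hsq : ∀ z : LS Ω, z ^ 2 ∈ (cst (Ω := Ω)).fieldRange → z ∈ (cst (Ω := Ω)).fieldRange := by
    intro z hz
    by_cases z0 : z = 0
    · exact z0 ▸ zero_mem _
    have h1 := (lamA_der hδ _).2 hz
    rw [sq, hm, ← two_mul] at h1
    exact (lamA_der hδ _).1
      ((mul_eq_zero.1 ((mul_eq_zero.1 h1).resolve_left two_ne_zero)).resolve_left z0)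
  have ha' : ∀ i, a i ∈ (cst (Ω := Ω)).fieldRange := by
    refine Fin.forall_fin_two.2 ⟨hsq _ ?_, hsq _ ?_⟩
    · rw [e0]
      exact mul_mem (inv_mem (sub_mem (pow_mem hp 3) hp))
        (mul_mem hc' (add_mem (mul_mem hv hc') (one_mem _)))
    · rw [e1]
      exact add_mem (pow_mem (add_mem (mul_mem hv hc') (one_mem _)) 2)
        (mul_mem (ofNat_mem _ 4) (pow_mem hc' 2))
  have hs' : D'.s = sT := hs.trans h.inf.hs
  obtain ⟨c₀, h0⟩ := lamA_const D' hs' hc hc'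
  choose a₀ h1 using fun i => lamA_const D' hs' (ha i) (ha' i)
  exact ⟨c₀, a₀, h0, h1⟩

end Pool.Agent.MP_e6b751_nt
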