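import Pool.Agent.MP_e6b751_nt.IDefs

namespace Pool.Agent.MP_e6b751_nt

open Polynomial

variable {Ω : Type} [Field Ω]

theorem ls_ext {x z : LS Ω} (h : ∀ n, co x n = co z n) : x = z := by
  refine HahnSeries.ext (Γ := ℤ) (R := Ω) (funext fun n => ?_)
  have := h (-n)
  simpa only [co, neg_neg] using this

theorem co_zero (n : ℤ) : co (0 : LS Ω) n = 0 := rfl

theorem co_add (x z : LS Ω) (n : ℤ) : co (x + z) n = co x n + co z n := rfl

theorem co_neg (x : LS Ω) (n : ℤ) : co (-x) n = -co x n := rfl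

theorem co_sub (x z : LS Ω) (n : ℤ) : co (x - z) n = co x n - co z n := rfl

theorem co_sum {α : Type} (t : Finset α) (x : α → LS Ω) (n : ℤ) :
    co (∑ a ∈ t, x a) n = ∑ a ∈ t, co (x a) n := by
  classical
  induction t using Finset.induction_on with
  | empty => simp [co_zero]
  | insert a t ha ih => rw [Finset.sum_insert ha, Finset.sum_insert ha, co_add, ih]

theorem co_cst_mul (a : Ω) (x : LS Ω) (n : ℤ) : co (cst a * x) n = a * co x n :=
  HahnSeries.coeff_single_zero_mul (Γ := ℤ) (R := Ω) (r := a) (x := x) (a := -n)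

theorem co_cst (a : Ω) (n : ℤ) : co (cst a) n = if n = 0 then a else 0 := by
  have : co (cst a) n = (HahnSeries.single (0 : ℤ) a).coeff (-n) := rfl
  rw [this, HahnSeries.coeff_single]
  simp

theorem co_sT_mul (x : LS Ω) (n : ℤ) : co (sT * x) (n + 1) = co x n := by
  have := HahnSeries.coeff_single_mul_add (Γ := ℤ) (R := Ω) (r := 1) (x := x) (a := -n) (b := -1)
  rw [one_mul, ← neg_add] at this
  exact this

theorem co_sT (n : ℤ) : co (sT : LS Ω) n = if n = 1 then 1 else 0 := by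
  have : co (sT : LS Ω) n = (HahnSeries.single (-1 : ℤ) (1 : Ω)).coeff (-n) := rfl
  rw [this, HahnSeries.coeff_single]
  simp

theorem algebraMap_LS (a : Ω) : algebraMap Ω (LS Ω) a = cst a := rfl

theorem lau_algebraMap {K : Type} [Field K] [Algebra K Ω] [Algebra K (LS Ω)]
    [IsScalarTower K Ω (LS Ω)] (a : K) : algebraMap K (LS Ω) a = cst (algebraMap K Ω a) := by
  rw [IsScalarTower.algebraMap_apply K Ω (LS Ω), algebraMap_LS]

theorem co_smul {K : Type} [Field K] [Algebra K Ω] [Algebra K (LS Ω)] [IsScalarTower K Ω (LS Ω)]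
    (a : K) (x : LS Ω) (n : ℤ) : co (a • x) n = a • co x n := by
  rw [Algebra.smul_def, lau_algebraMap, co_cst_mul, Algebra.smul_def]

theorem lau_co_sT_pow (k : ℕ) (n : ℤ) : co ((sT : LS Ω) ^ k) n = if n = k then 1 else 0 := by
  induction k generalizing n with
  | zero =>
    rw [pow_zero, ← map_one (cst (Ω := Ω)), co_cst]
    simp
  | succ k ih =>
    obtain ⟨m, rfl⟩ : ∃ m, n = m + 1 := ⟨n - 1, by ring⟩
    rw [pow_succ', co_sT_mul, ih]
    simp

theorem co_aeval {K : Type} [Field K] [Algebra K Ω] [Algebra K (LS Ω)] [IsScalarTower K Ω (LS Ω)]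
    (g : K[X]) (n : ℤ) :
    co (aeval (sT : LS Ω) g) n = if 0 ≤ n then algebraMap K Ω (g.coeff n.toNat) else 0 := by
  induction g using Polynomial.induction_on' with
  | add p q hp hq =>
    rw [map_add, co_add, hp, hq]
    split_ifs <;> simp
  | monomial k a =>
    rw [aeval_monomial, lau_algebraMap, co_cst_mul, lau_co_sT_pow, coeff_monomial]
    by_cases h : n = k
    · subst h
      simp
    · rw [if_neg h, mul_zero]
      split_ifs with h₁ h₂
      · exact absurd (by omega) h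
      · simp
      · rfl

theorem Le.zero (N : ℤ) : Le N (0 : LS Ω) := fun n _ => co_zero n

theorem Le.mono {N M : ℤ} {x : LS Ω} (h : Le N x) (hN : N ≤ M) : Le M x :=
  fun n hn => h n (hN.trans_lt hn)

theorem Le.add {N : ℤ} {x z : LS Ω} (hx : Le N x) (hz : Le N z) : Le N (x + z) :=
  fun n hn => by rw [co_add, hx n hn, hz n hn, add_zero]

theorem Le.sub {N : ℤ} {x z : LS Ω} (hx : Le N x) (hz : Le N z) : Le N (x - z) :=
  fun n hn => by rw [co_sub, hx n hn, hz n hn, sub_zero]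

theorem Le.sum {α : Type} {t : Finset α} {N : ℤ} {x : α → LS Ω} (h : ∀ a ∈ t, Le N (x a)) :
    Le N (∑ a ∈ t, x a) :=
  fun n hn => by rw [co_sum]; exact Finset.sum_eq_zero fun a ha => h a ha n hn

theorem lau_le_dg (x : LS Ω) : Le (dg x) x := fun n hn =>
  HahnSeries.coeff_eq_zero_of_lt_order (Γ := ℤ) (R := Ω) (x := x) (i := -n)
    (by unfold dg at hn; omega)

theorem lau_co_dg {x : LS Ω} (hx : x ≠ 0) : co x (dg x) ≠ 0 := by
  unfold co dg
  rw [neg_neg]
  exact fun h => hx ((HahnSeries.coeff_order_eq_zero (Γ := ℤ) (R := Ω)).1 h)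

theorem lau_le_iff_dg {x : LS Ω} (hx : x ≠ 0) {N : ℤ} : Le N x ↔ dg x ≤ N :=
  ⟨fun h => not_lt.1 fun h' => lau_co_dg hx (h _ h'), fun h => (lau_le_dg x).mono h⟩

theorem lau_dg_mul {x z : LS Ω} (hx : x ≠ 0) (hz : z ≠ 0) : dg (x * z) = dg x + dg z := by
  have := HahnSeries.order_mul (Γ := ℤ) (R := Ω) (x := x) (y := z) hx hz
  unfold dg
  rw [← neg_add]
  exact congrArg Neg.neg this

theorem lau_co_mul (x z : LS Ω) : co (x * z) (dg x + dg z) = co x (dg x) * co z (dg z) := by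
  have := HahnSeries.coeff_mul_order_add_order (Γ := ℤ) (R := Ω) x z
  rw [HahnSeries.leadingCoeff_eq, HahnSeries.leadingCoeff_eq] at this
  unfold co dg
  rw [← neg_add, neg_neg, neg_neg, neg_neg]
  exact this

theorem Le.mul {N M : ℤ} {x z : LS Ω} (hx : Le N x) (hz : Le M z) : Le (N + M) (x * z) := by
  rcases eq_or_ne x 0 with rfl | h₁
  · rw [zero_mul]; exact Le.zero _
  rcases eq_or_ne z 0 with rfl | h₂
  · rw [mul_zero]; exact Le.zero _
  rw [lau_le_iff_dg h₁] at hx
  rw [lau_le_iff_dg h₂] at hz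
  rw [lau_le_iff_dg (mul_ne_zero h₁ h₂), lau_dg_mul h₁ h₂]
  omega

theorem Le.co_mul {N M : ℤ} {x z : LS Ω} (hx : Le N x) (hz : Le M z) :
    co (x * z) (N + M) = co x N * co z M := by
  rcases eq_or_ne x 0 with rfl | h₁
  · rw [zero_mul, co_zero, co_zero, zero_mul]
  rcases eq_or_ne z 0 with rfl | h₂
  · rw [mul_zero, co_zero, co_zero, mul_zero]
  rw [lau_le_iff_dg h₁] at hx
  rw [lau_le_iff_dg h₂] at hz
  have h := (lau_le_dg x).mul (lau_le_dg z)
  rcases hx.eq_or_lt with rfl | hx'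
  · rcases hz.eq_or_lt with rfl | hz'
    · exact lau_co_mul x z
    · rw [h _ (by omega), lau_le_dg z _ hz', mul_zero]
  · rw [h _ (by omega), lau_le_dg x _ hx', zero_mul]

theorem lau_le_cst (a : Ω) : Le 0 (cst a) := fun n hn => by rw [co_cst, if_neg hn.ne']

theorem Le.prod {α : Type} {t : Finset α} {N : α → ℤ} {x : α → LS Ω}
    (h : ∀ a ∈ t, Le (N a) (x a)) : Le (∑ a ∈ t, N a) (∏ a ∈ t, x a) ∧
      co (∏ a ∈ t, x a) (∑ a ∈ t, N a) = ∏ a ∈ t, co (x a) (N a) := by
  classical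
  induction t using Finset.induction_on with
  | empty =>
    simp only [Finset.sum_empty, Finset.prod_empty]
    rw [← map_one (cst (Ω := Ω))]
    exact ⟨lau_le_cst _, by rw [co_cst, if_pos rfl]⟩
  | insert a t ha ih =>
    obtain ⟨h₁, h₂⟩ := ih fun b hb => h b (Finset.mem_insert_of_mem hb)
    have h₃ := h a (Finset.mem_insert_self _ _)
    rw [Finset.sum_insert ha, Finset.prod_insert ha, Finset.prod_insert ha]
    exact ⟨h₃.mul h₁, by rw [h₃.co_mul h₁, h₂]⟩

theorem Le.pred {N : ℤ} {x : LS Ω} (h : Le N x) (h0 : co x N = 0) : Le (N - 1) x := fun n hn => by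
  rcases (show N ≤ n by omega).eq_or_lt with rfl | h'
  exacts [h0, h n h']

theorem le_cst (a : Ω) : Le 0 (cst a) := lau_le_cst a

theorem le_sT : Le 1 (sT : LS Ω) := fun n hn => by rw [co_sT, if_neg hn.ne']

theorem le_dg (x : LS Ω) : Le (dg x) x := lau_le_dg x

theorem co_dg {x : LS Ω} (hx : x ≠ 0) : co x (dg x) ≠ 0 := lau_co_dg hx

theorem le_iff_dg {x : LS Ω} (hx : x ≠ 0) {N : ℤ} : Le N x ↔ dg x ≤ N := lau_le_iff_dg hx

theorem dg_eq {x : LS Ω} {N : ℤ} (h : Le N x) (h0 : co x N ≠ 0) : dg x = N := by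
  have hx : x ≠ 0 := by
    rintro rfl
    exact h0 (co_zero _)
  exact le_antisymm ((le_iff_dg hx).1 h) (not_lt.1 fun h' => h0 (le_dg x _ h'))

theorem dg_mul {x z : LS Ω} (hx : x ≠ 0) (hz : z ≠ 0) : dg (x * z) = dg x + dg z :=
  lau_dg_mul hx hz

theorem dg_prod {α : Type} {t : Finset α} {x : α → LS Ω} (h : ∀ a ∈ t, x a ≠ 0) :
    dg (∏ a ∈ t, x a) = ∑ a ∈ t, dg (x a) := by
  obtain ⟨h₁, h₂⟩ := Le.prod (t := t) (N := fun a => dg (x a)) (x := x) fun a _ => le_dg _
  refine dg_eq h₁ ?_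
  rw [h₂]
  exact Finset.prod_ne_zero_iff.2 fun a ha => co_dg (h a ha)

theorem Le.of_mul {N : ℤ} {x z : LS Ω} (hx : x ≠ 0) (h : Le (N + dg x) (x * z)) : Le N z := by
  rcases eq_or_ne z 0 with rfl | hz
  · exact Le.zero _
  rw [le_iff_dg (mul_ne_zero hx hz), dg_mul hx hz] at h
  rw [le_iff_dg hz]
  omega

theorem transcendental_sT {K : Type} [Field K] [Algebra K Ω] [Algebra K (LS Ω)]
    [IsScalarTower K Ω (LS Ω)] : Transcendental K (sT : LS Ω) := by
  rintro ⟨g, hg, h⟩
  refine hg (Polynomial.ext fun n => ?_)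
  have := co_aeval (Ω := Ω) g n
  rw [h, co_zero, if_pos (Int.natCast_nonneg n), Int.toNat_natCast] at this
  rw [coeff_zero]
  exact (map_eq_zero (algebraMap K Ω)).1 this.symm

/-- No cancellation of leading terms. -/
theorem le_of_sum {H : Subfield Ω} {α : Type} [Fintype α] {e : α → LS Ω} {d : α → ℤ}
    (he : ∀ a, Le (d a) (e a)) (ind : LinearIndependent H fun a => co (e a) (d a))
    {x : α → LS Ω} (hx : ∀ a, InCo H (x a)) {N : ℤ} (h : Le N (∑ a, x a * e a)) (a : α) :
    Le (N - d a) (x a) := by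
  classical
  rcases eq_or_ne (x a) 0 with h0 | h0
  · rw [h0]; exact Le.zero _
  obtain ⟨b, hb, hm⟩ := Finset.exists_max_image (Finset.univ.filter fun b => x b ≠ 0)
    (fun b => dg (x b) + d b) ⟨a, by simpa using h0⟩
  simp only [Finset.mem_filter, Finset.mem_univ, true_and] at hb hm
  have hle : ∀ c, Le (dg (x b) + d b - d c) (x c) := fun c => by
    rcases eq_or_ne (x c) 0 with h₁ | h₁
    · rw [h₁]; exact Le.zero _
    · have := hm c h₁
      rw [le_iff_dg h₁]
      omega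
  refine (hle a).mono (sub_le_sub_right (not_lt.1 fun hN => ?_) _)
  have h₁ := h _ hN
  rw [co_sum] at h₁
  have h₂ : ∀ c, co (x c * e c) (dg (x b) + d b) =
      (⟨co (x c) (dg (x b) + d b - d c), hx c _⟩ : H) • co (e c) (d c) := fun c => by
    have := (hle c).co_mul (he c)
    rw [sub_add_cancel] at this
    rw [this]
    rfl
  simp only [h₂] at h₁
  have h₃ := congrArg Subtype.val (Fintype.linearIndependent_iff.1 ind _ h₁ b)
  simp only [add_sub_cancel_right] at h₃
  exact co_dg hb h₃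

end Pool.Agent.MP_e6b751_nt
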