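import Pool.Agent.MP_e6b751_nt.Lau

namespace Pool.Agent.MP_e6b751_nt

open Polynomial

variable {Ω : Type} [Field Ω]

/-- The coefficientwise inclusion of Hahn series. -/
noncomputable def lau2_map (H : Subfield Ω) : HahnSeries ℤ H →+* HahnSeries ℤ Ω where
  toFun x := x.map H.subtype
  map_one' := HahnSeries.map_C (1 : H) H.subtype
  map_mul' _ _ := HahnSeries.map_mul (H.subtype : H →ₙ+* Ω)
  map_zero' := by ext; simp
  map_add' _ _ := HahnSeries.map_add (H.subtype : H →+ Ω)

/-- The coefficientwise inclusion of Laurent series. -/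
noncomputable def lau2_lift (H : Subfield Ω) : LS H →+* LS Ω := lau2_map H

theorem lau2_co_lift (H : Subfield Ω) (x : LS H) (n : ℤ) :
    co (lau2_lift H x) n = (co x n : H) := rfl

theorem lau2_inCo_iff {H : Subfield Ω} {x : LS Ω} : InCo H x ↔ ∃ z, lau2_lift H z = x := by
  constructor
  · intro hx
    have hx' : ∀ n : ℤ, HahnSeries.coeff (Γ := ℤ) (R := Ω) x n ∈ H := fun n => by
      simpa [co] using hx (-n)
    refine ⟨(⟨fun n => ⟨_, hx' n⟩, (HahnSeries.isPWO_support (Γ := ℤ) (R := Ω) x).mono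
      fun n hn h => hn (Subtype.ext h)⟩ : HahnSeries ℤ H), ls_ext fun n => rfl⟩
  · rintro ⟨z, rfl⟩ n
    exact (co z n).2

theorem InCo.mul {H : Subfield Ω} {x z : LS Ω} (hx : InCo H x) (hz : InCo H z) :
    InCo H (x * z) := by
  obtain ⟨a, rfl⟩ := lau2_inCo_iff.1 hx
  obtain ⟨b, rfl⟩ := lau2_inCo_iff.1 hz
  exact lau2_inCo_iff.2 ⟨a * b, map_mul _ _ _⟩

theorem InCo.inv {H : Subfield Ω} {x : LS Ω} (hx : InCo H x) : InCo H x⁻¹ := by
  obtain ⟨a, rfl⟩ := lau2_inCo_iff.1 hx
  exact lau2_inCo_iff.2 ⟨a⁻¹, map_inv₀ _ _⟩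

/-- The field of the series with coefficients in `H`. -/
def Coef (H : Subfield Ω) : Subfield (LS Ω) where
  carrier := {x | InCo H x}
  mul_mem' := InCo.mul
  one_mem' := fun n => by
    rw [← map_one cst, co_cst]
    split_ifs
    exacts [H.one_mem, H.zero_mem]
  add_mem' := fun hx hz n => by
    rw [co_add]
    exact H.add_mem (hx n) (hz n)
  zero_mem' := fun n => by
    rw [co_zero]
    exact H.zero_mem
  neg_mem' := fun hx n => by
    rw [co_neg]
    exact H.neg_mem (hx n)
  inv_mem' := fun _ hx => hx.inv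

theorem mem_Coef {H : Subfield Ω} {x : LS Ω} : x ∈ Coef H ↔ InCo H x := Iff.rfl

theorem Coef_mono {H H' : Subfield Ω} (h : H ≤ H') : Coef H ≤ Coef H' := fun _ hx n => h (hx n)

theorem cst_mem_Coef {H : Subfield Ω} {a : Ω} (h : a ∈ H) : cst a ∈ Coef H := fun n => by
  rw [co_cst]
  split_ifs
  exacts [h, H.zero_mem]

theorem sT_mem_Coef (H : Subfield Ω) : sT ∈ Coef H := fun n => by
  rw [co_sT]
  split_ifs
  exacts [H.one_mem, H.zero_mem]

theorem transcendental_cst {H : Subfield Ω} {u : Ω} (hu : Transcendental H u) :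
    Transcendental (Coef H) (cst u) := by
  rw [transcendental_iff] at hu ⊢
  intro p hp
  ext i
  refine ls_ext fun n => ?_
  set q : H[X] := ∑ j ∈ Finset.range (p.natDegree + 1),
    monomial j (⟨co (p.coeff j : LS Ω) n, (p.coeff j).2 n⟩ : H) with hq
  have h1 : aeval u q = 0 := by
    have h2 := congrArg (fun x => co x n) hp
    simp only [aeval_eq_sum_range, co_sum, co_zero] at h2
    rw [hq, map_sum, ← h2]
    refine Finset.sum_congr rfl fun j _ => ?_
    rw [aeval_monomial, ← map_pow, Algebra.smul_def, mul_comm _ (cst _), co_cst_mul, mul_comm]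
    rfl
  have h3 := congrArg (fun r : H[X] => (r.coeff i : Ω)) (hu q h1)
  simp only [hq, finsetSum_coeff, coeff_monomial, Finset.sum_ite_eq', Finset.mem_range,
    coeff_zero] at h3
  split_ifs at h3 with hi
  · rw [coeff_zero, ZeroMemClass.coe_zero, co_zero]
    exact h3
  · rw [coeff_eq_zero_of_natDegree_lt (by omega), coeff_zero]

theorem lau2_ps_sqrt {K : Type} [Field K] [CharZero K] (u : PowerSeries K)
    (hu : PowerSeries.constantCoeff u = 0) :
    ∃ r : PowerSeries K, r ^ 2 = 1 + u ∧ PowerSeries.constantCoeff r = 1 := by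
  have hs := PowerSeries.HasSubst.of_constantCoeff_zero' hu
  have h1 : PowerSeries.binomialSeries K (1 / 2 : K) ^ 2 = 1 + PowerSeries.X := by
    rw [sq, ← PowerSeries.binomialSeries_add, add_halves]
    simpa using PowerSeries.binomialSeries_nat (R := K) (A := K) 1
  have h2 := congrArg (PowerSeries.substAlgHom (R := K) hs) h1
  rw [map_pow, map_add, map_one, PowerSeries.substAlgHom_X] at h2
  obtain ⟨r, hr⟩ : ∃ r : PowerSeries K, r ^ 2 = 1 + u := ⟨_, h2⟩
  have h3 := congrArg PowerSeries.constantCoeff hr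
  rw [map_pow, map_add, map_one, hu, add_zero, sq_eq_one_iff] at h3
  rcases h3 with h3 | h3
  · exact ⟨r, hr, h3⟩
  · exact ⟨-r, by rw [neg_sq, hr], by rw [map_neg, h3, neg_neg]⟩

/-- Power series in `1 / s`. -/
noncomputable def lau2_ps (K : Type) [Field K] : PowerSeries K →+* LS K :=
  HahnSeries.ofPowerSeries ℤ K

theorem lau2_sqrt {K : Type} [Field K] [CharZero K] {a η : K} (b c : K) (ha : a ≠ 0)
    (h : η ^ 2 = a) :
    ∃ y : LS K, y ^ 2 = cst a * sT ^ 2 + cst b * sT + cst c ∧ Le 1 y ∧ co y 1 = η := by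
  obtain ⟨r, hr, h1⟩ := lau2_ps_sqrt
    (PowerSeries.C (b / a) * PowerSeries.X + PowerSeries.C (c / a) * PowerSeries.X ^ 2) (by simp)
  have hC : ∀ t : K, lau2_ps K (PowerSeries.C t) = cst t := HahnSeries.ofPowerSeries_C
  have hX : sT * lau2_ps K PowerSeries.X = 1 := by
    have e : lau2_ps K PowerSeries.X = HahnSeries.single (Γ := ℤ) (R := K) 1 1 :=
      HahnSeries.ofPowerSeries_X
    rw [e]
    exact (HahnSeries.single_mul_single (Γ := ℤ) (R := K) (a := -1) (b := 1) (r := 1)
      (s := 1)).trans (by simp; rfl)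
  have hco : ∀ n : ℤ, co (lau2_ps K r) n =
      if -n < 0 then 0 else PowerSeries.coeff (-n).natAbs r := fun n =>
    PowerSeries.coeff_coe r (-n)
  have hy : ∀ n : ℤ, co (cst η * (sT * lau2_ps K r)) (n + 1) = η * co (lau2_ps K r) n :=
    fun n => by rw [co_cst_mul, co_sT_mul]
  refine ⟨cst η * (sT * lau2_ps K r), ?_, fun n hn => ?_, ?_⟩
  · have h2 := congrArg (lau2_ps K) hr
    simp only [map_pow, map_add, map_one, map_mul, hC] at h2
    have hb : cst a * cst (b / a) = cst b := by rw [← map_mul, mul_div_cancel₀ _ ha]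
    have hc : cst a * cst (c / a) = cst c := by rw [← map_mul, mul_div_cancel₀ _ ha]
    rw [mul_pow, mul_pow, h2, ← map_pow, h, ← hb, ← hc]
    linear_combination (cst a * cst (b / a) * sT +
      cst a * cst (c / a) * (sT * lau2_ps K PowerSeries.X + 1)) * hX
  · obtain ⟨m, rfl⟩ : ∃ m, n = m + 1 := ⟨n - 1, by ring⟩
    rw [hy, hco, if_pos (by omega), mul_zero]
  · have := hy 0
    rw [zero_add] at this
    rw [this, hco, if_neg (by omega)]
    simp [h1]

theorem lau2_lift_cst (H : Subfield Ω) (a : H) : lau2_lift H (cst a) = cst (a : Ω) :=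
  ls_ext fun n => by
    rw [lau2_co_lift, co_cst, co_cst]
    split_ifs <;> rfl

theorem lau2_lift_sT (H : Subfield Ω) : lau2_lift H sT = sT :=
  ls_ext fun n => by
    rw [lau2_co_lift, co_sT, co_sT]
    split_ifs <;> rfl

theorem exists_sqrt [CharZero Ω] (H : Subfield Ω) (g : Polynomial Ω) (hg : g.natDegree = 2)
    (hH : ∀ n, g.coeff n ∈ H) {η : Ω} (hη : η ∈ H) (h : η ^ 2 = g.leadingCoeff) :
    ∃ y ∈ Coef H, y ^ 2 = aeval sT g ∧ Le 1 y ∧ co y 1 = η := by
  have hl : g.leadingCoeff = g.coeff 2 := by rw [leadingCoeff, hg]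
  have h0 : g.coeff 2 ≠ 0 := by
    rw [← hl, leadingCoeff_ne_zero]
    rintro rfl
    simp at hg
  obtain ⟨y, h1, h2, h3⟩ := lau2_sqrt (K := H) (a := ⟨_, hH 2⟩) (η := ⟨η, hη⟩) ⟨_, hH 1⟩ ⟨_, hH 0⟩
    (fun e => h0 (congrArg Subtype.val e)) (Subtype.ext (h.trans hl))
  refine ⟨lau2_lift H y, lau2_inCo_iff.2 ⟨y, rfl⟩, ?_, fun n hn => ?_, ?_⟩
  · rw [← map_pow, h1, aeval_eq_sum_range, hg]
    simp only [map_add, map_mul, map_pow, lau2_lift_cst, lau2_lift_sT, Finset.sum_range_succ,
      Finset.sum_range_zero, Algebra.smul_def, algebraMap_LS]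
    ring
  · rw [lau2_co_lift, h2 n hn]
    rfl
  · rw [lau2_co_lift, h3]

/-- The derivation on Hahn series. -/
noncomputable def lau2_der (x : HahnSeries ℤ Ω) : HahnSeries ℤ Ω where
  coeff n := -(n : Ω) * x.coeff n
  isPWO_support' := x.isPWO_support.mono fun _ hn h => hn (by simp only [h, mul_zero])

theorem lau2_der_supp (x : HahnSeries ℤ Ω) : (lau2_der x).support ⊆ x.support :=
  fun n hn h => hn (by simp only [lau2_der, h, mul_zero])

theorem lau2_der_mul (x z : HahnSeries ℤ Ω) :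
    lau2_der (x * z) = x * lau2_der z + lau2_der x * z := by
  ext n
  rw [HahnSeries.coeff_add, HahnSeries.coeff_mul_right' z.isPWO_support (lau2_der_supp z),
    HahnSeries.coeff_mul_left' x.isPWO_support (lau2_der_supp x), ← Finset.sum_add_distrib]
  simp only [lau2_der]
  rw [HahnSeries.coeff_mul, Finset.mul_sum]
  refine Finset.sum_congr rfl fun ij hij => ?_
  rw [← (Finset.mem_antidiagonal.1 hij).2.2]
  push_cast
  ring

/-- The derivation `s d/ds`. -/
theorem exists_der : ∃ D : LS Ω →+ LS Ω, (∀ x n, co (D x) n = n * co x n) ∧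
    ∀ x z, D (x * z) = x * D z + z * D x := by
  have hco : ∀ (x : LS Ω) (n : ℤ), co (lau2_der x : LS Ω) n = n * co x n := fun x n => by
    simp [co, lau2_der]
  refine ⟨AddMonoidHom.mk' (fun x : LS Ω => (lau2_der x : LS Ω)) fun x z => ls_ext fun n => ?_,
    hco, fun x z => ?_⟩
  · simp only [hco, co_add, mul_add]
  · rw [mul_comm z]
    exact lau2_der_mul x z

end Pool.Agent.MP_e6b751_nt
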