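import Pool.Agent.MP_e6b751_nt.IDefs

namespace Pool.Agent.MP_e6b751_nt

open Polynomial IntermediateField

variable {ι : Type} [Fintype ι]

theorem mqx_mul {κ P E : Type} [DecidableEq κ] [CommRing P] [CommRing E] [Algebra P E] {y : κ → E}
    {q : κ → P} (h : ∀ i, y i ^ 2 = algebraMap P E (q i)) (S T : Finset κ) :
    (∏ i ∈ S, y i) * ∏ i ∈ T, y i =
      algebraMap P E (∏ i ∈ S ∩ T, q i) * ∏ i ∈ symmDiff S T, y i := by
  rw [← Finset.prod_inter_mul_prod_sdiff S T, ← Finset.prod_inter_mul_prod_sdiff T S,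
    Finset.inter_comm T S, symmDiff_def, Finset.sup_eq_union,
    Finset.prod_union disjoint_sdiff_sdiff, map_prod]
  simp only [← h, Finset.prod_pow]
  ring

theorem mqx_span {κ P E : Type} [CommRing P] [CommRing E] [Algebra P E] {y : κ → E}
    {q : κ → P} (h : ∀ i, y i ^ 2 = algebraMap P E (q i)) (T : Set κ) {x : E}
    (hx : x ∈ Algebra.adjoin P (y '' T)) :
    x ∈ Submodule.span P ((fun S : Finset κ => ∏ i ∈ S, y i) '' {S | ↑S ⊆ T}) := by
  classical
  induction hx using Algebra.adjoin_induction with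
  | mem x hx =>
    obtain ⟨i, hi, rfl⟩ := hx
    exact Submodule.subset_span ⟨{i}, by simpa using hi, by simp⟩
  | algebraMap r =>
    rw [Algebra.algebraMap_eq_smul_one]
    exact Submodule.smul_mem _ _ (Submodule.subset_span ⟨∅, by simp, by simp⟩)
  | add _ _ _ _ h1 h2 => exact add_mem h1 h2
  | mul _ _ _ _ h1 h2 =>
    have h3 := Submodule.mul_mem_mul h1 h2
    rw [Submodule.span_mul_span] at h3
    refine Submodule.span_le.2 ?_ h3
    rintro _ ⟨_, ⟨S, hS, rfl⟩, _, ⟨S', hS', rfl⟩, rfl⟩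
    simp only [mqx_mul h, ← Algebra.smul_def]
    refine Submodule.smul_mem _ _ (Submodule.subset_span ⟨_, fun i hi => ?_, rfl⟩)
    rcases Finset.mem_symmDiff.1 hi with h4 | h4
    exacts [hS h4.1, hS' h4.1]

theorem mqx_gal {P A : Type} [Field P] [Field A] [Algebra P A] [IsGalois P A] {y : ι → A}
    {q : ι → P} (h : ∀ i, y i ^ 2 = algebraMap P A (q i))
    (hq : ∀ S : Finset ι, S.Nonempty → ¬IsSquare (∏ i ∈ S, q i)) :
    LinearIndependent P fun S : Finset ι => ∏ i ∈ S, y i := by
  classical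
  have q0 : ∀ i, q i ≠ 0 := fun i e => hq {i} (by simp) (by simp [e])
  have y0 : ∀ S : Finset ι, ∏ i ∈ S, y i ≠ 0 := fun S => Finset.prod_ne_zero_iff.2 fun i _ e =>
    q0 i ((map_eq_zero (algebraMap P A)).1 (by rw [← h, e, zero_pow two_ne_zero]))
  have sq : ∀ S : Finset ι, (∏ i ∈ S, y i) ^ 2 = algebraMap P A (∏ i ∈ S, q i) := fun S => by
    simp only [map_prod, ← h, Finset.prod_pow]
  have pm : ∀ (S : Finset ι) (g : A ≃ₐ[P] A), g (∏ i ∈ S, y i) = ∏ i ∈ S, y i ∨
      g (∏ i ∈ S, y i) = -∏ i ∈ S, y i := fun S g =>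
    sq_eq_sq_iff_eq_or_eq_neg.1 (by rw [← map_pow, sq, AlgEquiv.commutes])
  let χ : Finset ι → (A ≃ₐ[P] A) →* A := fun S =>
    { toFun := fun g => g (∏ i ∈ S, y i) / ∏ i ∈ S, y i
      map_one' := div_self (y0 S)
      map_mul' := fun g g' => by
        rw [AlgEquiv.mul_apply]
        rcases pm S g' with e | e
        · rw [e, div_self (y0 S), mul_one]
        · rw [e, map_neg, neg_div, neg_div, div_self (y0 S), mul_neg, mul_one] }
  have hχ : ∀ S g, g (∏ i ∈ S, y i) = χ S g * ∏ i ∈ S, y i := fun S g =>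
    (div_mul_cancel₀ _ (y0 S)).symm
  have inj : Function.Injective χ := fun S T e => by
    by_contra hne
    obtain ⟨r, hr⟩ := (InfiniteGalois.mem_range_algebraMap_iff_fixed (k := P)
      ((∏ i ∈ S, y i) * ∏ i ∈ T, y i)).2 fun g => by
        have h1 : χ T g * χ T g * (∏ i ∈ T, y i) ^ 2 = 1 * (∏ i ∈ T, y i) ^ 2 := by
          rw [one_mul, ← pow_two, ← mul_pow, ← hχ, ← map_pow, sq, AlgEquiv.commutes]
        rw [map_mul, hχ, hχ, e, mul_mul_mul_comm,
          mul_right_cancel₀ (pow_ne_zero 2 (y0 T)) h1, one_mul]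
    have h2 : ∏ i ∈ S ∩ T, q i ≠ 0 := Finset.prod_ne_zero_iff.2 fun i _ => q0 i
    refine hq (symmDiff S T) (Finset.nonempty_iff_ne_empty.2 fun e' => hne (symmDiff_eq_bot.1 e'))
      ⟨r / ∏ i ∈ S ∩ T, q i, (algebraMap P A).injective ?_⟩
    rw [← sq, map_mul, map_div₀, hr, mqx_mul h,
      mul_div_cancel_left₀ _ ((map_ne_zero (algebraMap P A)).2 h2), pow_two]
  refine Fintype.linearIndependent_iff.2 fun c hc S => ?_
  have h3 := Fintype.linearIndependent_iff.1 ((linearIndependent_monoidHom _ A).comp χ inj)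
    (fun S => c S • ∏ i ∈ S, y i) (funext fun g => by
      have := congrArg g hc
      simp only [map_sum, map_smul, hχ, map_zero] at this
      simpa only [Finset.sum_apply, Pi.smul_apply, Function.comp_apply, smul_eq_mul, Pi.zero_apply,
        smul_mul_assoc, mul_comm (χ _ g)] using this) S
  exact (smul_eq_zero.1 h3).resolve_right (y0 S)

theorem mqx_int {κ P E : Type} [CommRing P] [CommRing E] [Algebra P E] {y : κ → E}
    {q : κ → P} (h : ∀ i, y i ^ 2 = algebraMap P E (q i)) (i : κ) : IsIntegral P (y i) :=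
  IsIntegral.of_pow two_pos (h i ▸ isIntegral_algebraMap)

theorem mq_mem {P E : Type} [CommRing P] [CommRing E] [Algebra P E] {y : ι → E} {q : ι → P}
    (h : ∀ i, y i ^ 2 = algebraMap P E (q i)) {x : E} (hx : x ∈ Algebra.adjoin P (Set.range y)) :
    ∃ c : Finset ι → P, x = ∑ S, algebraMap P E (c S) * ∏ i ∈ S, y i := by
  have := mqx_span h Set.univ (by rwa [Set.image_univ])
  simp only [Set.subset_univ, Set.ofPred_true, Set.image_univ] at this
  obtain ⟨c, hc⟩ := (Submodule.mem_span_range_iff_exists_fun P).1 this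
  exact ⟨c, by simp only [← hc, Algebra.smul_def]⟩

theorem mq_mem_poly {P E : Type} [CommRing P] [CommRing E] [Algebra P E] {f : E} {y : ι → E}
    {q : ι → P[X]} (h : ∀ i, y i ^ 2 = aeval f (q i)) {x : E}
    (hx : x ∈ Algebra.adjoin P (insert f (Set.range y))) :
    ∃ c : Finset ι → P[X], x = ∑ S, aeval f (c S) * ∏ i ∈ S, y i := by
  let : Algebra P[X] E := (aeval f : P[X] →ₐ[P] E).toRingHom.toAlgebra
  refine mq_mem (P := P[X]) h ?_
  induction hx using Algebra.adjoin_induction with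
  | mem x hx =>
    rcases hx with rfl | hx
    · exact (aeval_X (R := P) x) ▸ Subalgebra.algebraMap_mem _ (X : P[X])
    · exact Algebra.subset_adjoin hx
  | algebraMap r => exact (aeval_C f r) ▸ Subalgebra.algebraMap_mem _ (C r : P[X])
  | add _ _ _ _ h1 h2 => exact add_mem h1 h2
  | mul _ _ _ _ h1 h2 => exact mul_mem h1 h2

theorem mq_indep {P E : Type} [Field P] [CharZero P] [Field E] [Algebra P E] {y : ι → E}
    {q : ι → P} (h : ∀ i, y i ^ 2 = algebraMap P E (q i))
    (hq : ∀ S : Finset ι, S.Nonempty → ¬IsSquare (∏ i ∈ S, q i)) :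
    LinearIndependent P fun S : Finset ι => ∏ i ∈ S, y i := by
  let z : ι → algebraicClosure P E := fun i => ⟨y i, mqx_int h i⟩
  let φ : algebraicClosure P E →ₐ[P] AlgebraicClosure P := IsAlgClosed.lift
  have h1 := mqx_gal (y := fun i => φ (z i)) (fun i => by
    rw [← map_pow, ← φ.commutes]
    exact congrArg φ (Subtype.ext (h i))) hq
  have h2 : LinearIndependent P fun S : Finset ι => ∏ i ∈ S, z i :=
    LinearIndependent.of_comp φ.toLinearMap (by
      simp only [← map_prod] at h1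
      exact h1)
  have h3 := h2.map' (algebraicClosure P E).val.toLinearMap
    (LinearMap.ker_eq_bot.2 Subtype.val_injective)
  simp only [Function.comp_def, AlgHom.toLinearMap_apply, map_prod] at h3
  exact h3

theorem not_sq_aeval {F E : Type} [Field F] [Field E] [Algebra F E] {x : E}
    (hx : Transcendental F x) {g : F[X]} (hg : Squarefree g) (hd : 0 < g.natDegree) {z : E}
    (hz : z ∈ F⟮x⟯) : z ^ 2 ≠ aeval x g := by
  intro e
  obtain ⟨a, b, rfl⟩ := (mem_adjoin_simple_iff F z).1 hz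
  have inj := transcendental_iff_injective.1 hx
  by_cases hb : b = 0
  · rw [hb, map_zero, div_zero, zero_pow two_ne_zero] at e
    exact hg.ne_zero ((map_eq_zero_iff _ inj).1 e.symm)
  rw [div_pow, div_eq_iff (pow_ne_zero 2 ((map_ne_zero_iff _ inj).2 hb)), ← map_pow, ← map_pow,
    ← map_mul] at e
  have e1 := inj e
  obtain ⟨c, rfl⟩ := (IsIntegrallyClosed.pow_dvd_pow_iff two_ne_zero).1 (Dvd.intro_left _ e1.symm)
  have e2 : c * c = g := mul_right_cancel₀ (pow_ne_zero 2 hb) (by rw [← e1]; ring)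
  have u := hg c e2.dvd
  exact hd.ne' (natDegree_eq_zero_of_isUnit (e2 ▸ u.mul u))

theorem mq_indep_poly {F E : Type} [Field F] [CharZero F] [Field E] [Algebra F E] {x : E}
    (hx : Transcendental F x) {y : ι → E} {q : ι → F[X]} (h : ∀ i, y i ^ 2 = aeval x (q i))
    (hs : (∏ i, q i).Separable) (hd : ∀ i, 0 < (q i).natDegree) {c : Finset ι → F[X]}
    (hc : ∑ S, aeval x (c S) * ∏ i ∈ S, y i = 0) (S : Finset ι) : c S = 0 := by
  classical
  have mem : ∀ p : F[X], aeval x p ∈ F⟮x⟯ := fun p =>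
    algebra_adjoin_le_adjoin F _ (Polynomial.aeval_mem_adjoin_singleton F x)
  have : CharZero F⟮x⟯ := charZero_of_injective_algebraMap (algebraMap F F⟮x⟯).injective
  have h1 := mq_indep (P := F⟮x⟯) (q := fun i => ⟨_, mem (q i)⟩) h fun T hT ⟨z, hz⟩ => by
    obtain ⟨j, hj⟩ := hT
    refine not_sq_aeval hx (g := ∏ i ∈ T, q i) (hs.of_dvd
      (Finset.prod_dvd_prod_of_subset _ _ _ (Finset.subset_univ _))).squarefree ?_ z.2 ?_
    · rw [natDegree_prod _ _ fun i _ e => (hd i).ne' (by rw [e, natDegree_zero])]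
      exact (hd j).trans_le (Finset.single_le_sum (f := fun i => (q i).natDegree)
        (fun _ _ => Nat.zero_le _) hj)
    · have := congrArg (algebraMap F⟮x⟯ E) hz
      rw [map_prod, map_mul] at this
      rw [map_prod, pow_two]
      exact this.symm
  have h2 := Fintype.linearIndependent_iff.1 h1 (fun S => ⟨_, mem (c S)⟩) hc S
  exact (map_eq_zero_iff _ (transcendental_iff_injective.1 hx)).1 (congrArg Subtype.val h2)

theorem mq_finrank {P E : Type} [Field P] [Field E] [Algebra P E] {y : ι → E} {q : ι → P}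
    (h : ∀ i, y i ^ 2 = algebraMap P E (q i))
    (ind : LinearIndependent P fun S : Finset ι => ∏ i ∈ S, y i) (T : Finset ι) :
    Module.finrank P (adjoin P (y '' T)) = 2 ^ T.card := by
  have h1 := finrank_span_eq_card (ind.comp (Subtype.val : T.powerset → Finset ι)
    Subtype.val_injective)
  rw [Fintype.card_coe, Finset.card_powerset] at h1
  rw [← h1]
  change Module.finrank P (Subalgebra.toSubmodule (adjoin P (y '' T)).toSubalgebra) = _
  rw [adjoin_toSubalgebra_of_isAlgebraic (by rintro _ ⟨i, -, rfl⟩; exact (mqx_int h i).isAlgebraic)]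
  refine congrArg (fun M : Submodule P E => Module.finrank P M) ?_
  refine le_antisymm (fun x hx => Submodule.span_mono ?_ (mqx_span h T hx)) (Submodule.span_le.2 ?_)
  · rintro _ ⟨S, hS, rfl⟩
    exact ⟨⟨S, Finset.mem_powerset.2 hS⟩, rfl⟩
  · rintro _ ⟨S, rfl⟩
    exact Subalgebra.prod_mem _ fun i hi =>
      Algebra.subset_adjoin ⟨i, Finset.mem_powerset.1 S.2 hi, rfl⟩

theorem mq_disjoint {P E : Type} [Field P] [Field E] [Algebra P E] {y : ι → E} {q : ι → P}
    (h : ∀ i, y i ^ 2 = algebraMap P E (q i))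
    (ind : LinearIndependent P fun S : Finset ι => ∏ i ∈ S, y i) {T T' : Finset ι}
    (hT : Disjoint T T') : (adjoin P (y '' T)).LinearDisjoint (adjoin P (y '' T')) := by
  classical
  have fd : ∀ T : Finset ι, FiniteDimensional P (adjoin P (y '' T)) := fun T =>
    Module.finite_of_finrank_pos (by rw [mq_finrank h ind]; positivity)
  have := fd T
  have := fd T'
  refine LinearDisjoint.of_finrank_sup ?_
  rw [← adjoin_union, ← Set.image_union, ← Finset.coe_union, mq_finrank h ind, mq_finrank h ind,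
    mq_finrank h ind, Finset.card_union_of_disjoint hT, pow_add]

end Pool.Agent.MP_e6b751_nt
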