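import Pool.Agent.MP_e6b751_nt.MQ

namespace Pool.Agent.MP_e6b751_nt

open Polynomial IntermediateField

section QQ

variable {F F' : Type} [Field F] [Field F']

theorem qq_map (f : F →+* F') (p u v : F) (i : Fin 2) :
    (qq p u v i).map f = qq (f p) (f u) (f v) i := by
  unfold qq
  split_ifs <;> simp

theorem qq_comp (p u v : F) (i : Fin 2) : qq p u v i = (qq p 0 v i).comp (X - C u) := by
  unfold qq
  split_ifs <;> simp

theorem qq_eval_zero (p u v c : F) : (qq p u v 0).eval c =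
    (p ^ 3 - p)⁻¹ * ((c - u) * (v * (c - u) + 1)) := by
  simp [qq]

theorem qq_eval_one (p u v c : F) : (qq p u v 1).eval c =
    (v * (c - u) + 1) ^ 2 + 4 * (c - u) ^ 2 := by
  simp [qq]

lemma qq_quad (p u v : F) (i : Fin 2) : ∃ b c : F, qq p u v i =
    C (if i = 0 then (p ^ 3 - p)⁻¹ * v else v ^ 2 + 4) * X ^ 2 + C b * X + C c := by
  unfold qq
  split_ifs
  · refine ⟨(p ^ 3 - p)⁻¹ * (1 - 2 * u * v), (p ^ 3 - p)⁻¹ * (v * u ^ 2 - u), ?_⟩
    generalize (p ^ 3 - p)⁻¹ = k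
    simp only [map_mul, map_sub, map_pow, map_one, map_ofNat]
    ring
  · refine ⟨2 * v - 2 * u * (v ^ 2 + 4), (v ^ 2 + 4) * u ^ 2 - 2 * v * u + 1, ?_⟩
    simp only [map_mul, map_sub, map_add, map_pow, map_one, map_ofNat]
    ring

lemma qq_lead_ne {p v : F} (hp : p ^ 3 - p ≠ 0) (hv : v ≠ 0) (hv' : v ^ 2 + 4 ≠ 0) (i : Fin 2) :
    (if i = 0 then (p ^ 3 - p)⁻¹ * v else v ^ 2 + 4) ≠ 0 := by
  split_ifs
  exacts [mul_ne_zero (inv_ne_zero hp) hv, hv']

theorem qq_natDegree {p v : F} (u : F) (hp : p ^ 3 - p ≠ 0) (hv : v ≠ 0) (hv' : v ^ 2 + 4 ≠ 0)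
    (i : Fin 2) : (qq p u v i).natDegree = 2 := by
  obtain ⟨b, c, h⟩ := qq_quad p u v i
  rw [h, natDegree_quadratic (qq_lead_ne hp hv hv' i)]

theorem qq_lead {p v : F} (u : F) (hp : p ^ 3 - p ≠ 0) (hv : v ≠ 0) (hv' : v ^ 2 + 4 ≠ 0)
    (i : Fin 2) :
    (qq p u v i).leadingCoeff = if i = 0 then (p ^ 3 - p)⁻¹ * v else v ^ 2 + 4 := by
  obtain ⟨b, c, h⟩ := qq_quad p u v i
  rw [h, leadingCoeff_quadratic (qq_lead_ne hp hv hv' i)]

lemma qq_cop {a b : F[X]} (r s : F[X]) {c : F} (hc : c ≠ 0) (h : r * a + s * b = C c) :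
    IsCoprime a b :=
  ⟨C c⁻¹ * r, C c⁻¹ * s, by rw [mul_assoc, mul_assoc, ← mul_add, h, ← map_mul,
    inv_mul_cancel₀ hc, map_one]⟩

theorem qq_sep [CharZero F] {p v : F} (u : F) (hp : p ^ 3 - p ≠ 0) (hv : v ≠ 0)
    (hv' : v ^ 2 + 4 ≠ 0) : (∏ i, qq p u v i).Separable := by
  have e : ∏ i, qq p u v i = C (p ^ 3 - p)⁻¹ * ((X - C u) * (C v * (X - C u) + 1) *
      ((C v * (X - C u) + 1) ^ 2 + 4 * (X - C u) ^ 2)) := by
    rw [Fin.prod_univ_two]
    simp only [qq, if_true, one_ne_zero, if_false, mul_assoc]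
  rw [e]
  refine Separable.unit_mul (isUnit_C.2 (inv_ne_zero hp).isUnit) ?_
  refine Separable.mul (Separable.mul (separable_X_sub_C) ?_ ?_) ?_ (IsCoprime.mul_left ?_ ?_)
  · exact qq_cop 0 1 hv (by simp)
  · exact ⟨-C v, 1, by ring⟩
  · refine qq_cop (2 * (C v ^ 2 + 4)) (-((C v ^ 2 + 4) * (X - C u) + C v)) (c := 8)
      (by norm_num) ?_
    simp only [derivative_add, derivative_mul, derivative_sq, derivative_sub, derivative_X,
      derivative_C, derivative_one, derivative_ofNat, map_ofNat]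
    ring
  · exact ⟨-((C v ^ 2 + 4) * (X - C u) + 2 * C v), 1, by ring⟩
  · refine qq_cop (8 - (C v ^ 2 + 4) * (C v * (X - C u) + 1)) (C v ^ 2) (c := 4) (by norm_num) ?_
    simp only [map_ofNat]
    ring

theorem qq_coeff_mem (H : Subfield F) {p u v : F} (hp : p ∈ H) (hu : u ∈ H) (hv : v ∈ H)
    (i : Fin 2) (n : ℕ) : (qq p u v i).coeff n ∈ H := by
  have := qq_map H.subtype ⟨p, hp⟩ ⟨u, hu⟩ ⟨v, hv⟩ i
  simp only [Subfield.coe_subtype] at this
  rw [← this, coeff_map]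
  exact Subtype.prop _

end QQ

variable {K : Type} [Field K] [CharZero K]

/-- The field generated by some of the variables. -/
def KT (x : W → K) (T : Set W) : IntermediateField ℚ K := adjoin ℚ (x '' T)

/-- Its algebraic closure in `Ω`. -/
noncomputable def Acl (x : W → K) (Ω : Type) [Field Ω] [Algebra K Ω] (T : Set W) : Subfield Ω :=
  (algebraicClosure (KT x T) Ω).toSubfield

/-- The polynomials of the ten equations. -/
noncomputable def qx (x : W → K) (p : I10) : K[X] := qq (x (p.1, 0)) (x (p.1, 1)) (x (p.1, 2)) p.2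

variable {x : W → K}

theorem x_mem_KT {T : Set W} {w : W} (h : w ∈ T) : x w ∈ KT x T := subset_adjoin _ _ ⟨w, h, rfl⟩

end Pool.Agent.MP_e6b751_nt
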