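import Pool.Agent.MP_e6b751_nt.QQ

namespace Pool.Agent.MP_e6b751_nt

open Polynomial IntermediateField

variable {K : Type} [Field K] [CharZero K] {x : W → K}

theorem KT_mono {T T' : Set W} (h : T ⊆ T') : KT x T ≤ KT x T' :=
  adjoin.mono _ _ _ (Set.image_mono h)

theorem KT_tr (hx : AlgebraicIndependent ℚ x) {T : Set W} {w : W} (h : w ∉ T) :
    Transcendental (KT x T) (x w) := fun hh =>
  hx.transcendental_adjoin (s := T) h (isAlgebraic_adjoin_iff.mp hh)

theorem KT_insert {T : Set W} {w : W} {z : K} (hz : z ∈ KT x (insert w T)) :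
    z ∈ (KT x T)⟮x w⟯ := by
  have h := adjoin_adjoin_left ℚ (x '' T) {x w}
  have e : x '' T ∪ {x w} = x '' insert w T := by
    rw [Set.image_insert_eq, Set.union_singleton]
  rw [e] at h
  have h2 : z ∈ (adjoin (adjoin ℚ (x '' T)) {x w}).restrictScalars ℚ := h ▸ hz
  exact h2

theorem mem_Acl {Ω : Type} [Field Ω] [Algebra K Ω] {T : Set W} {z : Ω} :
    z ∈ Acl x Ω T ↔ IsAlgebraic (KT x T) z := mem_algebraicClosure_iff

theorem mem_Acl_of_mem {Ω : Type} [Field Ω] [Algebra K Ω] {T : Set W} {z : K} (h : z ∈ KT x T) :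
    algebraMap K Ω z ∈ Acl x Ω T :=
  mem_Acl.2 (isAlgebraic_algebraMap (R := KT x T) (A := Ω) ⟨z, h⟩)

theorem mem_Acl_of_sq {Ω : Type} [Field Ω] [Algebra K Ω] {T : Set W} {z : Ω}
    (h : z ^ 2 ∈ Acl x Ω T) : z ∈ Acl x Ω T :=
  mem_Acl.2 (IsAlgebraic.of_pow two_pos (mem_Acl.1 h))

theorem Acl_tr (hx : AlgebraicIndependent ℚ x) {Ω : Type} [Field Ω] [Algebra K Ω] {T : Set W}
    {w : W} (h : w ∉ T) : Transcendental (Acl x Ω T) (algebraMap K Ω (x w)) := by
  have h1 : Transcendental (KT x T) (algebraMap K Ω (x w)) :=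
    (transcendental_algebraMap_iff (algebraMap K Ω).injective).2 (KT_tr hx h)
  exact h1.algebraicClosure

theorem qq2_ne (hx : AlgebraicIndependent ℚ x) (w : W) {g : ℚ[X]} (hg : g ≠ 0) :
    aeval (x w) g ≠ 0 := fun h => hx.transcendental w ⟨g, hg, h⟩

theorem x_ne (hx : AlgebraicIndependent ℚ x) (σ : Fin 5) :
    x (σ, 0) ^ 3 - x (σ, 0) ≠ 0 ∧ x (σ, 2) ≠ 0 ∧ x (σ, 2) ^ 2 + 4 ≠ 0 := by
  refine ⟨?_, ?_, ?_⟩
  · have := qq2_ne hx (σ, 0) (g := X ^ 3 - X) (fun h => by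
      have := congrArg (eval 2) h
      norm_num at this)
    simpa using this
  · have := qq2_ne hx (σ, 2) (g := X) X_ne_zero
    simpa using this
  · have := qq2_ne hx (σ, 2) (g := X ^ 2 + C 4) (fun h => by
      have := congrArg (eval 0) h
      norm_num at this)
    simpa using this

theorem qq2_root (hx : AlgebraicIndependent ℚ x) {Ω : Type} [Field Ω] [Algebra K Ω] {T : Set W}
    {p : I10} (h0 : (p.1, 0) ∈ T) (h2 : (p.1, 2) ∈ T) {z : Ω} (hz : aeval z (qx x p) = 0) :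
    z - algebraMap K Ω (x (p.1, 1)) ∈ Acl x Ω T := by
  obtain ⟨a1, a2, a3⟩ := x_ne hx p.1
  rw [mem_Acl]
  have e : (qq (⟨x (p.1, 0), x_mem_KT h0⟩ : KT x T) 0 ⟨x (p.1, 2), x_mem_KT h2⟩ p.2).map
      (algebraMap (KT x T) K) = qq (x (p.1, 0)) 0 (x (p.1, 2)) p.2 := by
    rw [qq_map, map_zero]; rfl
  refine ⟨qq ⟨x (p.1, 0), x_mem_KT h0⟩ 0 ⟨x (p.1, 2), x_mem_KT h2⟩ p.2, ?_, ?_⟩
  · intro h
    rw [h, Polynomial.map_zero] at e
    have := qq_natDegree (0 : K) a1 a2 a3 p.2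
    rw [← e] at this
    simp at this
  · rw [← aeval_map_algebraMap K, e]
    rw [qx, qq_comp, aeval_comp] at hz
    simpa using hz

theorem qx_sep (hx : AlgebraicIndependent ℚ x) : (∏ p, qx x p).Separable := by
  classical
  have hs : ∀ σ : Fin 5, (qx x (σ, 0) * qx x (σ, 1)).Separable := fun σ => by
    obtain ⟨a1, a2, a3⟩ := x_ne hx σ
    have := qq_sep (x (σ, 1)) a1 a2 a3
    rwa [Fin.prod_univ_two] at this
  refine separable_prod' ?_ ?_
  · rintro ⟨σ, i⟩ - ⟨τ, j⟩ - hne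
    by_cases hστ : σ = τ
    · subst hστ
      have hij : i ≠ j := fun h => hne (by rw [h])
      fin_cases i <;> fin_cases j
      · exact absurd rfl hij
      · exact (hs σ).isCoprime
      · exact (hs σ).isCoprime.symm
      · exact absurd rfl hij
    · rw [Polynomial.isCoprime_iff_aeval_ne_zero_of_isAlgClosed (k := K) (AlgebraicClosure K)]
      intro z
      by_contra hc
      push Not at hc
      have m1 := qq2_root hx (T := {(σ, 1)}ᶜ) (p := (σ, i)) (by simp) (by simp) hc.1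
      have m2 := qq2_root hx (T := {(σ, 1)}ᶜ) (p := (τ, j)) (by simp) (by simp) hc.2
      have m3 : algebraMap K (AlgebraicClosure K) (x (τ, 1)) ∈
          Acl x (AlgebraicClosure K) {(σ, 1)}ᶜ :=
        mem_Acl_of_mem (x_mem_KT (by simpa using fun h => hστ h.symm))
      have m4 := sub_mem (add_mem m2 m3) m1
      have e : z - algebraMap K (AlgebraicClosure K) (x (τ, 1)) +
          algebraMap K (AlgebraicClosure K) (x (τ, 1)) -
          (z - algebraMap K (AlgebraicClosure K) (x (σ, 1))) =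
          algebraMap K (AlgebraicClosure K) (x (σ, 1)) := by ring
      rw [e] at m4
      exact Acl_tr hx (Ω := AlgebraicClosure K) (T := {(σ, 1)}ᶜ) (w := (σ, 1)) (by simp)
        (isAlgebraic_algebraMap (R := Acl x (AlgebraicClosure K) {(σ, 1)}ᶜ)
          (A := AlgebraicClosure K) ⟨_, m4⟩)
  · rintro ⟨σ, i⟩ -
    fin_cases i
    · exact (hs σ).of_mul_left
    · exact (hs σ).of_mul_right

theorem qq2_poly {F : Type} [Field F] [CharZero F] {c : F} (hc : c ≠ 0) :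
    (C c * X : F[X]).Separable ∧ (X ^ 2 + 4 : F[X]).Separable ∧
      IsCoprime (C c * X : F[X]) (X ^ 2 + 4) ∧ 0 < (C c * X : F[X]).natDegree ∧
      0 < (X ^ 2 + 4 : F[X]).natDegree := by
  have e : (X ^ 2 + 4 : F[X]) = X ^ 2 - C (-4) := by
    rw [map_neg, sub_neg_eq_add]; rfl
  refine ⟨separable_X.unit_mul (isUnit_C.2 hc.isUnit), ?_, ?_, ?_, ?_⟩
  · rw [e]
    exact separable_X_pow_sub_C _ (by norm_num) (by norm_num)
  · refine ⟨-(C (4 * c)⁻¹ * X), C 4⁻¹, ?_⟩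
    have h1 : (C (4 * c)⁻¹ * C c : F[X]) = C 4⁻¹ := by
      rw [← C_mul]; congr 1; field_simp
    have h2 : (C (4 : F)⁻¹ * 4 : F[X]) = 1 := by
      have : (4 : F[X]) = C 4 := rfl
      rw [this, ← C_mul, inv_mul_cancel₀ (by norm_num), C_1]
    linear_combination (-X ^ 2) * h1 + h2
  · rw [natDegree_C_mul_X _ hc]; exact one_pos
  · rw [e, natDegree_X_pow_sub_C]; exact two_pos

theorem qx_nonsq (hx : AlgebraicIndependent ℚ x) (ht : adjoin ℚ (Set.range x) = ⊤)
    (S : Finset I10) (hS : S.Nonempty) : ¬IsSquare (∏ p ∈ S, (qx x p).leadingCoeff) := by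
  classical
  obtain ⟨⟨σ, i0⟩, hp0⟩ := hS
  rintro ⟨z, hz⟩
  set T : Set W := {(σ, 2)}ᶜ with hT
  have hm0 : ∀ ρ : Fin 5, ((ρ, 0) : W) ∈ T := fun ρ => by simp [hT]
  have hm2 : ∀ ρ : Fin 5, ρ ≠ σ → ((ρ, 2) : W) ∈ T := fun ρ h => by simpa [hT] using h
  let a : Fin 5 → KT x T := fun ρ => ⟨x (ρ, 0), x_mem_KT (hm0 ρ)⟩
  have ha : ∀ ρ, (a ρ ^ 3 - a ρ)⁻¹ ≠ 0 := fun ρ => by
    refine inv_ne_zero fun h => (x_ne hx ρ).1 ?_
    simpa [a] using congrArg (algebraMap (KT x T) K) h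
  let b : Fin 5 → (KT x T)[X] := fun ρ =>
    if h : ρ = σ then X else C ⟨x (ρ, 2), x_mem_KT (hm2 ρ h)⟩
  have hb : ∀ ρ, aeval (x (σ, 2)) (b ρ) = x (ρ, 2) := fun ρ => by
    by_cases h : ρ = σ
    · simp [b, h]
    · simp only [b, dif_neg h, aeval_C]; rfl
  let g : I10 → (KT x T)[X] := fun p =>
    if p.2 = 0 then C (a p.1 ^ 3 - a p.1)⁻¹ * b p.1 else b p.1 ^ 2 + 4
  have hg : ∀ p, aeval (x (σ, 2)) (g p) = (qx x p).leadingCoeff := fun p => by
    obtain ⟨a1, a2, a3⟩ := x_ne hx p.1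
    rw [qx, qq_lead _ a1 a2 a3]
    by_cases h : p.2 = 0
    · simp only [g, if_pos h, map_mul, aeval_C, hb, map_inv₀, map_sub, map_pow]; rfl
    · simp only [g, if_neg h, map_add, map_pow, hb, map_ofNat]
  have hne : ∀ p, g p ≠ 0 := fun p h => by
    have h1 := hg p
    obtain ⟨a1, a2, a3⟩ := x_ne hx p.1
    rw [h, map_zero, eq_comm, leadingCoeff_eq_zero] at h1
    have := qq_natDegree (x (p.1, 1)) a1 a2 a3 p.2
    rw [qx] at h1
    rw [h1] at this
    simp at this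
  have hu : ∀ p : I10, p.1 ≠ σ → IsUnit (g p) := fun p h => by
    have h1 : ∃ c, g p = C c := by
      by_cases h2 : p.2 = 0
      · exact ⟨_, by simp only [g, if_pos h2, b, dif_neg h]; rw [← C_mul]⟩
      · refine ⟨⟨x (p.1, 2), x_mem_KT (hm2 _ h)⟩ ^ 2 + 4, ?_⟩
        simp only [g, if_neg h2, b, dif_neg h, map_add, map_pow, map_ofNat]
    obtain ⟨c, hc⟩ := h1
    rw [hc]
    refine isUnit_C.2 (Ne.isUnit fun h0 => hne p ?_)
    rw [hc, h0, C_0]
  have g0 : g (σ, 0) = C (a σ ^ 3 - a σ)⁻¹ * X := by simp [g, b]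
  have g1 : g (σ, 1) = X ^ 2 + 4 := by simp [g, b]
  obtain ⟨s0, s1, s2, s3, s4⟩ := qq2_poly (ha σ)
  rw [← g0] at s0 s2 s3
  rw [← g1] at s1 s2 s4
  have hsep : (∏ p ∈ S, g p).Separable := by
    refine separable_prod' ?_ ?_
    · rintro ⟨ρ, i⟩ - ⟨τ, j⟩ - hpq
      by_cases h1 : ρ = σ
      · by_cases h2 : τ = σ
        · subst h1 h2
          have hij : i ≠ j := fun h => hpq (by rw [h])
          fin_cases i <;> fin_cases j
          · exact absurd rfl hij
          · exact s2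
          · exact s2.symm
          · exact absurd rfl hij
        · obtain ⟨u, hu'⟩ := hu (τ, j) h2
          exact ⟨0, ↑u⁻¹, by rw [← hu']; simp⟩
      · obtain ⟨u, hu'⟩ := hu (ρ, i) h1
        exact ⟨↑u⁻¹, 0, by rw [← hu']; simp⟩
    · rintro ⟨ρ, i⟩ -
      by_cases h1 : ρ = σ
      · subst h1
        fin_cases i
        · exact s0
        · exact s1
      · simpa using separable_one.unit_mul (hu (ρ, i) h1)
  have hdeg : 0 < (∏ p ∈ S, g p).natDegree := by
    rw [natDegree_prod _ _ fun p _ => hne p]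
    refine lt_of_lt_of_le ?_ (Finset.single_le_sum (f := fun p => (g p).natDegree)
      (fun _ _ => Nat.zero_le _) hp0)
    fin_cases i0
    · exact s3
    · exact s4
  have hzm : z ∈ (KT x T)⟮x (σ, 2)⟯ := by
    refine KT_insert ?_
    have : insert ((σ, 2) : W) T = Set.univ := by
      rw [hT, Set.insert_eq, Set.union_compl_self]
    rw [this, KT, Set.image_univ, ht]
    exact mem_top
  refine not_sq_aeval (KT_tr hx (T := T) (w := (σ, 2)) (by simp [hT])) hsep.squarefree hdeg hzm ?_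
  rw [map_prod, sq, ← hz]
  exact Finset.prod_congr rfl fun p _ => (hg p).symm

end Pool.Agent.MP_e6b751_nt
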