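import Pool.Agent.MP_e6b751_nt.QQ2
import Pool.Agent.MP_e6b751_nt.Lau2
import Pool.Agent.MP_e6b751_nt.DatA

namespace Pool.Agent.MP_e6b751_nt

open Polynomial IntermediateField

/-- Permuting the five groups of variables. -/
noncomputable def setupPerm : Equiv.Perm (Fin 5) →* RingAut (MvPolynomial W ℚ) where
  toFun h := (MvPolynomial.renameEquiv ℚ (Equiv.prodCongr h (Equiv.refl (Fin 3)))).toRingEquiv
  map_one' := by
    refine RingEquiv.toRingHom_injective (MvPolynomial.ringHom_ext (fun r => ?_) fun w => ?_)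
    · simp
    · simp
  map_mul' g h := by
    refine RingEquiv.toRingHom_injective (MvPolynomial.ringHom_ext (fun r => ?_) fun w => ?_)
    · simp [RingAut.mul_apply]
    · obtain ⟨σ, i⟩ := w
      simp [RingAut.mul_apply]

theorem setup_perm_X (h : Equiv.Perm (Fin 5)) (σ : Fin 5) (i : Fin 3) :
    setupPerm h (MvPolynomial.X (σ, i)) = MvPolynomial.X (h σ, i) := by
  simp [setupPerm]

theorem setup_frac (K : Type) [Field K] [CharZero K] [Algebra (MvPolynomial W ℚ) K]
    [IsFractionRing (MvPolynomial W ℚ) K] :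
    AlgebraicIndependent ℚ (fun w : W => algebraMap (MvPolynomial W ℚ) K (MvPolynomial.X w)) ∧
      adjoin ℚ (Set.range fun w : W => algebraMap (MvPolynomial W ℚ) K (MvPolynomial.X w)) = ⊤ := by
  have e : ∀ p, MvPolynomial.aeval (R := ℚ)
      (fun w : W => algebraMap (MvPolynomial W ℚ) K (MvPolynomial.X w)) p =
        algebraMap (MvPolynomial W ℚ) K p := fun p => by
    have : (MvPolynomial.aeval (R := ℚ)
        (fun w : W => algebraMap (MvPolynomial W ℚ) K (MvPolynomial.X w))).toRingHom =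
          algebraMap (MvPolynomial W ℚ) K :=
      MvPolynomial.ringHom_ext' (Subsingleton.elim _ _) fun w => by simp
    exact RingHom.congr_fun this p
  refine ⟨fun p q hpq => IsFractionRing.injective (MvPolynomial W ℚ) K ?_, ?_⟩
  · rw [← e, ← e]
    exact hpq
  · have hm : ∀ p, algebraMap (MvPolynomial W ℚ) K p ∈ adjoin ℚ
        (Set.range fun w : W => algebraMap (MvPolynomial W ℚ) K (MvPolynomial.X w)) := fun p => by
      refine algebra_adjoin_le_adjoin ℚ _ ?_
      rw [Algebra.adjoin_range_eq_range_aeval]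
      exact ⟨p, e p⟩
    refine eq_top_iff.2 fun z _ => ?_
    obtain ⟨a, b, -, rfl⟩ := IsFractionRing.div_surjective (A := MvPolynomial W ℚ) z
    exact div_mem (hm a) (hm b)

theorem exists_gen : ∃ (K : Type) (_ : Field K) (_ : CharZero K) (x : W → K)
    (ρ : Equiv.Perm (Fin 5) →* RingAut K), AlgebraicIndependent ℚ x ∧
      adjoin ℚ (Set.range x) = ⊤ ∧ ∀ h σ i, ρ h (x (σ, i)) = x (h σ, i) := by
  have hc : CharZero (FractionRing (MvPolynomial W ℚ)) :=
    charZero_of_injective_algebraMap (IsFractionRing.injective (MvPolynomial W ℚ) _)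
  obtain ⟨h1, h2⟩ := setup_frac (FractionRing (MvPolynomial W ℚ))
  refine ⟨FractionRing (MvPolynomial W ℚ), inferInstance, hc, _,
    (IsFractionRing.ringEquivOfRingEquivHom (MvPolynomial W ℚ) _).comp setupPerm, h1, h2,
    fun h σ i => ?_⟩
  rw [MonoidHom.comp_apply, IsFractionRing.ringEquivOfRingEquivHom_apply,
    IsFractionRing.ringEquivOfRingEquiv_algebraMap, setup_perm_X]

variable {K Ω : Type} [Field K] [CharZero K] [Field Ω] [CharZero Ω] [Algebra K Ω]
  [Algebra K (LS Ω)] [IsScalarTower K Ω (LS Ω)]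

/-- The generic fibre product of the five curves. -/
structure Main (x : W → K) (D : Dat K (LS Ω) I10) (η : I10 → Ω) : Prop where
  ind : AlgebraicIndependent ℚ x
  top : adjoin ℚ (Set.range x) = ⊤
  inf : D.Inf η
  hq : ∀ p, D.q p = qx x p
  co : ∀ (p : I10) (T : Set W), (∀ i, (p.1, i) ∈ T) → InCo (Acl x Ω T) (D.y p)

theorem exists_main [IsAlgClosed Ω] {x : W → K} (hx : AlgebraicIndependent ℚ x)
    (ht : adjoin ℚ (Set.range x) = ⊤) :
    ∃ (D : Dat K (LS Ω) I10) (η : I10 → Ω), Main x D η := by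
  have h1 : ∀ p : I10, ∃ z : Ω, z ^ 2 = algebraMap K Ω (qx x p).leadingCoeff := fun p =>
    IsAlgClosed.exists_pow_nat_eq _ two_pos
  choose η hη using h1
  have hd : ∀ p : I10, (qx x p).natDegree = 2 := fun p =>
    qq_natDegree _ (x_ne hx p.1).1 (x_ne hx p.1).2.1 (x_ne hx p.1).2.2 _
  have h2 : ∀ p : I10, ∃ y ∈ Coef (Subfield.closure
      (insert (η p) (Set.range fun i => algebraMap K Ω (x (p.1, i))))),
      y ^ 2 = aeval sT (qx x p) ∧ Le 1 y ∧ co y 1 = η p := fun p => by
    rw [← aeval_map_algebraMap Ω]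
    refine exists_sqrt _ _ (by rw [natDegree_map, hd]) (fun n => ?_)
      (Subfield.subset_closure (Set.mem_insert _ _)) (by rw [leadingCoeff_map, hη])
    rw [qx, qq_map]
    refine qq_coeff_mem _ ?_ ?_ ?_ _ _ <;>
      exact Subfield.subset_closure (Set.mem_insert_of_mem _ (Set.mem_range_self _))
  choose y hy hy2 hy3 hy4 using h2
  refine ⟨⟨sT, y, qx x, hy2, transcendental_sT, qx_sep hx, hd⟩, η, hx, ht,
    ⟨rfl, hy3, hy4, hη, mq_indep hη (qx_nonsq hx ht), fun p => Coef_mono ?_ (hy p)⟩,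
    fun _ => rfl, fun p T hT => Coef_mono ?_ (hy p)⟩
  · refine Subfield.closure_le.2 (Set.insert_subset (mem_adjoin_simple_self K (η p)) ?_)
    rintro _ ⟨i, rfl⟩
    exact (adjoin K {η p}).algebraMap_mem _
  · refine Subfield.closure_le.2 (Set.insert_subset (mem_Acl_of_sq ?_) ?_)
    · rw [hη]
      exact mem_Acl_of_mem (qq_coeff_mem (KT x T).toSubfield (x_mem_KT (hT 0)) (x_mem_KT (hT 1))
        (x_mem_KT (hT 2)) _ _)
    · rintro _ ⟨i, rfl⟩
      exact mem_Acl_of_mem (x_mem_KT (hT i))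

end Pool.Agent.MP_e6b751_nt
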