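import Pool.Agent.MP_e6b751_nt.IDefs

namespace Pool.Agent.MP_e6b751_nt

open Polynomial

section Good

variable {R R' : Type} [CommRing R] [CommRing R']

theorem Good.top [Nontrivial R] (P : Set (Ideal R)) : Good P ⊤ := by
  rw [← Ideal.span_singleton_one]
  exact Good.prin 1 one_ne_zero

theorem Good.ne_bot [IsDomain R] {P : Set (Ideal R)} (hP : ∀ I ∈ P, I ≠ ⊥) {I : Ideal R}
    (h : Good P I) : I ≠ ⊥ := by
  induction h with
  | prin a ha => exact fun e => ha (Ideal.span_singleton_eq_bot.1 e)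
  | pt I h => exact hP I h
  | mul I J _ _ hI hJ => exact fun e => (Ideal.mul_eq_bot.1 e).elim hI hJ
  | cancel I J _ _ h _ => exact fun e => h (by rw [e, Ideal.bot_mul])

theorem Good.map {P : Set (Ideal R)} {P' : Set (Ideal R')} (f : R →+* R')
    (hf : Function.Injective f) (hP : ∀ I ∈ P, I.map f ∈ P') {I : Ideal R} (h : Good P I) :
    Good P' (I.map f) := by
  induction h with
  | prin a ha =>
    rw [Ideal.map_span, Set.image_singleton]
    exact Good.prin _ fun e => ha (hf (by rw [e, map_zero]))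
  | pt I h => exact Good.pt _ (hP I h)
  | mul I J _ _ hI hJ =>
    rw [Ideal.map_mul]
    exact Good.mul _ _ hI hJ
  | cancel I J _ _ h hJ =>
    rw [Ideal.map_mul] at h
    exact Good.cancel _ _ h hJ

theorem good_of_primes [IsDedekindDomain R] {P : Set (Ideal R)} {I : Ideal R} (hI : I ≠ ⊥)
    (h : ∀ 𝔪 : Ideal R, 𝔪.IsMaximal → I ≤ 𝔪 → Good P 𝔪) : Good P I := by
  induction I using UniqueFactorizationMonoid.induction_on_prime with
  | h₁ => exact absurd rfl hI
  | h₂ x hx =>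
    rw [Ideal.isUnit_iff.1 hx]
    exact Good.top P
  | h₃ a p ha hp ih =>
    have hm : p.IsMaximal := (Ideal.isPrime_of_prime hp).isMaximal hp.ne_zero
    exact Good.mul _ _ (h p hm Ideal.mul_le_left)
      (ih ha fun 𝔪 h𝔪 hle => h 𝔪 h𝔪 (Ideal.mul_le_right.trans hle))

theorem step_map_comap {A B : Type} [CommRing A] [CommRing B] (f : A →+* B)
    (h : ∀ r : B, ∃ m a, IsUnit (f m) ∧ f m * r = f a) (I : Ideal B) :
    (I.comap f).map f = I := by
  refine le_antisymm Ideal.map_comap_le fun b hb => ?_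
  obtain ⟨m, a, hu, e⟩ := h b
  have ha : f a ∈ (I.comap f).map f :=
    Ideal.mem_map_of_mem f (Ideal.mem_comap.2 (e ▸ I.mul_mem_left _ hb))
  rw [← e] at ha
  exact (Ideal.unit_mul_mem_iff_mem _ hu).1 ha

theorem step_mem_map {A B : Type} [CommRing A] [CommRing B] (f : A →+* B) (M : Submonoid A)
    (hB : ∀ b : B, ∃ m ∈ M, ∃ a, f m * b = f a) (I : Ideal A) {b : B} (hb : b ∈ I.map f) :
    ∃ m ∈ M, ∃ a ∈ I, f m * b = f a := by
  induction hb using Submodule.span_induction with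
  | mem x hx =>
    obtain ⟨a, ha, rfl⟩ := hx
    exact ⟨1, M.one_mem, a, ha, by simp⟩
  | zero => exact ⟨1, M.one_mem, 0, I.zero_mem, by simp⟩
  | add x y _ _ hx hy =>
    obtain ⟨m, hm, a, ha, e⟩ := hx
    obtain ⟨m', hm', a', ha', e'⟩ := hy
    refine ⟨m * m', M.mul_mem hm hm', m' * a + m * a',
      I.add_mem (I.mul_mem_left _ ha) (I.mul_mem_left _ ha'), ?_⟩
    simp only [map_mul, map_add, ← e, ← e']
    ring
  | smul c x _ hx =>
    obtain ⟨m, hm, a, ha, e⟩ := hx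
    obtain ⟨m', hm', a', e'⟩ := hB c
    refine ⟨m * m', M.mul_mem hm hm', a' * a, I.mul_mem_left _ ha, ?_⟩
    simp only [map_mul, ← e, ← e', smul_eq_mul]
    ring

theorem step_unif {A : Type} [CommRing A] [IsNoetherianRing R] (f : A →+* R) (M : Submonoid A)
    (I I' : Ideal A) (h : ∀ x ∈ I, ∃ m ∈ M, m * x ∈ I') :
    ∃ r ∈ M, Ideal.span {f r} * I.map f ≤ I'.map f := by
  classical
  have h1 : ∀ y ∈ I.map f, ∃ r ∈ M, f r * y ∈ I'.map f := by
    intro y hy
    induction hy using Submodule.span_induction with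
    | mem x hx =>
      obtain ⟨a, ha, rfl⟩ := hx
      obtain ⟨m, hm, e⟩ := h a ha
      exact ⟨m, hm, by rw [← map_mul]; exact Ideal.mem_map_of_mem f e⟩
    | zero => exact ⟨1, M.one_mem, by simp⟩
    | add x y _ _ hx hy =>
      obtain ⟨m, hm, e⟩ := hx
      obtain ⟨m', hm', e'⟩ := hy
      refine ⟨m * m', M.mul_mem hm hm', ?_⟩
      have : f (m * m') * (x + y) = f m' * (f m * x) + f m * (f m' * y) := by
        rw [map_mul]; ring
      rw [this]
      exact Ideal.add_mem _ (Ideal.mul_mem_left _ _ e) (Ideal.mul_mem_left _ _ e')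
    | smul c x _ hx =>
      obtain ⟨m, hm, e⟩ := hx
      refine ⟨m, hm, ?_⟩
      rw [smul_eq_mul, mul_left_comm]
      exact Ideal.mul_mem_left _ _ e
  obtain ⟨s, hs⟩ := IsNoetherian.noetherian (I.map f)
  have h2 : ∀ y : s, ∃ r ∈ M, f r * y ∈ I'.map f := fun y =>
    h1 y (hs ▸ Submodule.subset_span y.2)
  choose r hr hr' using h2
  refine ⟨∏ y, r y, M.prod_mem fun y _ => hr y, ?_⟩
  rw [Ideal.span_singleton_mul_le_iff]
  intro z hz
  rw [← hs] at hz
  induction hz using Submodule.span_induction with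
  | mem x hx =>
    rw [← Finset.prod_erase_mul Finset.univ r (Finset.mem_univ ⟨x, hx⟩), map_mul, mul_assoc]
    exact Ideal.mul_mem_left _ _ (hr' ⟨x, hx⟩)
  | zero => simp
  | add x y _ _ hx hy =>
    rw [mul_add]
    exact Ideal.add_mem _ hx hy
  | smul c x _ hx =>
    rw [smul_eq_mul, mul_left_comm]
    exact Ideal.mul_mem_left _ _ hx

/-- Two localisations `B` and `R` of a ring `A`. -/
theorem good_step {A B : Type} [CommRing A] [CommRing B] [IsDomain B] [IsDedekindDomain R]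
    (f₀ : A →+* B) (f₁ : A →+* R) (h₀ : Function.Injective f₀) (h₁ : Function.Injective f₁)
    (M : Submonoid A) (hM : ∀ m ∈ M, IsUnit (f₀ m))
    (hB : ∀ b : B, ∃ m ∈ M, ∃ a, f₀ m * b = f₀ a)
    (hR : ∀ r : R, ∃ m a, IsUnit (f₁ m) ∧ f₁ m * r = f₁ a)
    (PA : Set (Ideal A)) (hPA : ∀ I ∈ PA, I ≠ ⊥) (P : Set (Ideal R))
    (hP : ∀ I ∈ PA, I.map f₁ ∈ P)
    (gB : ∀ I : Ideal B, I ≠ ⊥ → Good ((Ideal.map f₀) '' PA) I)
    (gR : ∀ 𝔪 : Ideal R, 𝔪.IsMaximal → (∃ m ∈ M, f₁ m ∈ 𝔪) → Good P 𝔪) (I : Ideal R)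
    (hI : I ≠ ⊥) : Good P I := by
  have hcB : ∀ J : Ideal B, (J.comap f₀).map f₀ = J := step_map_comap f₀ fun b => by
    obtain ⟨m, hm, a, e⟩ := hB b
    exact ⟨m, a, hM m hm, e⟩
  have hne : ∀ m ∈ M, f₁ m ≠ 0 := fun m hm e => by
    have : m = 0 := h₁ (by rw [e, map_zero])
    exact (hM m hm).ne_zero (by rw [this, map_zero])
  have hle : ∀ J J' : Ideal A, J.map f₀ = J'.map f₀ →
      ∃ r ∈ M, Ideal.span {f₁ r} * J.map f₁ ≤ J'.map f₁ := fun J J' e =>
    step_unif f₁ M J J' fun x hx => by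
      obtain ⟨m, hm, a, ha, e'⟩ := step_mem_map f₀ M hB J' (e ▸ Ideal.mem_map_of_mem f₀ hx)
      exact ⟨m, hm, by rw [h₀ (show f₀ (m * x) = f₀ a by rw [map_mul, e'])]; exact ha⟩
  have key : ∀ J J' : Ideal A, J.map f₀ = J'.map f₀ → J' ≠ ⊥ → Good P (J'.map f₁) →
      Good P (J.map f₁) := by
    intro J J' e hJ' hg
    obtain ⟨r, hr, h1⟩ := hle J J' e
    obtain ⟨r', hr', h2⟩ := hle J' J e.symm
    obtain ⟨C, hC⟩ := Ideal.dvd_iff_le.2 h1
    have hb : J'.map f₁ ≠ 0 := fun e' => hJ' ((Ideal.map_eq_bot_iff_of_injective h₁).1 e')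
    have h3 : J'.map f₁ * Ideal.span {f₁ (r * r')} ≤ J'.map f₁ * C := by
      rw [← hC, map_mul, ← Ideal.span_singleton_mul_span_singleton, mul_comm, mul_assoc]
      exact Ideal.mul_mono_right h2
    have h4 : f₁ (r * r') ∈ C := by
      have := Ideal.dvd_iff_le.1 ((mul_dvd_mul_iff_left hb).1 (Ideal.dvd_iff_le.2 h3))
      exact this (Ideal.mem_span_singleton_self _)
    have hrr := M.mul_mem hr hr'
    have hC0 : C ≠ ⊥ := fun e' => hne _ hrr (by rwa [e', Ideal.mem_bot] at h4)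
    have gC : Good P C := good_of_primes hC0 fun 𝔪 h𝔪 hl => gR 𝔪 h𝔪 ⟨_, hrr, hl h4⟩
    refine Good.cancel _ _ ?_ (Good.prin _ (hne r hr))
    rw [mul_comm, hC]
    exact Good.mul _ _ hg gC
  have hP0 : ∀ J ∈ (Ideal.map f₀) '' PA, J ≠ ⊥ := by
    rintro _ ⟨J, hJ, rfl⟩ e
    exact hPA J hJ ((Ideal.map_eq_bot_iff_of_injective h₀).1 e)
  have main : ∀ a : Ideal B, Good ((Ideal.map f₀) '' PA) a →
      ∀ J : Ideal A, J.map f₀ = a → Good P (J.map f₁) := by
    intro a ha
    induction ha with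
    | prin b hb =>
      intro J e
      obtain ⟨m, hm, a, e'⟩ := hB b
      have ha : a ≠ 0 := fun e0 => by
        rw [e0, map_zero] at e'
        exact hb ((mul_eq_zero.1 e').resolve_left (hM m hm).ne_zero)
      refine key J (Ideal.span {a}) ?_ (fun e0 => ha (Ideal.span_singleton_eq_bot.1 e0)) ?_
      · rw [e, Ideal.map_span, Set.image_singleton, ← e',
          Ideal.span_singleton_mul_left_unit (hM m hm)]
      · rw [Ideal.map_span, Set.image_singleton]
        exact Good.prin _ fun e0 => ha (h₁ (by rw [e0, map_zero]))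
    | pt a h =>
      intro J e
      obtain ⟨J', hJ', rfl⟩ := h
      exact key J J' e (hPA J' hJ') (Good.pt _ (hP J' hJ'))
    | mul a b ga gb ha hb =>
      intro J e
      have e' : (a.comap f₀ * b.comap f₀).map f₀ = a * b := by rw [Ideal.map_mul, hcB, hcB]
      refine key J (a.comap f₀ * b.comap f₀) (e.trans e'.symm) (fun e0 => ?_) ?_
      · rw [e0, Ideal.map_bot] at e'
        exact (Good.mul _ _ ga gb).ne_bot hP0 e'.symm
      · rw [Ideal.map_mul]
        exact Good.mul _ _ (ha _ (hcB a)) (hb _ (hcB b))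
    | cancel a b _ _ hab hb =>
      intro J e
      have := hab (J * b.comap f₀) (by rw [Ideal.map_mul, hcB, e])
      rw [Ideal.map_mul] at this
      exact Good.cancel _ _ this (hb _ (hcB b))
  have hc := step_map_comap f₁ hR I
  rw [← hc]
  refine main _ (gB _ fun e => hI ?_) _ rfl
  rw [← hc, (Ideal.map_eq_bot_iff_of_injective h₀).1 e, Ideal.map_bot]

end Good

end Pool.Agent.MP_e6b751_nt
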