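import Pool.Agent.MP_e6b751_nt.Step
import Pool.Agent.MP_e6b751_nt.Filt

namespace Pool.Agent.MP_e6b751_nt

open Polynomial

theorem stepB_cancel {R : Type} [CommRing R] {P : Set (Ideal R)} {I o : Ideal R} (ho : Good P o)
    (i : ℕ) (h : Good P (I * o ^ i)) : Good P I := by
  induction i with
  | zero => simpa using h
  | succ i ih =>
    rw [pow_succ, ← mul_assoc] at h
    exact ih (Good.cancel _ _ h ho)

/-- Riemann-Roch on the curve of genus one. -/
theorem Dat.good_two {F E : Type} [Field F] [CharZero F] [Field E] [Algebra F E]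
    (D : Dat F E (Fin 2)) (P : Set (Ideal D.R)) (hP : ∀ c a, D.IsPt c a → D.pt c a ∈ P)
    (h0 : ∃ c a, D.IsPt c a) (I : Ideal D.R) (hI : I ≠ ⊥) : Good P I := by
  obtain ⟨c, a, hca⟩ := h0
  have := D.dedekind
  have fin : ∀ J : Ideal D.R, J ≠ ⊥ → Module.Finite F (D.R ⧸ J) := fun J hJ => D.finite_quot hJ
  have o0 := D.pt_ne_bot c a
  have h1 : ∀ i : ℕ, I * D.pt c a ^ i ≠ ⊥ := fun i => mul_ne_zero hI (pow_ne_zero i o0)
  have h2 : ∀ i : ℕ, codim F (I * D.pt c a ^ i) = codim F I + i := fun i => by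
    induction i with
    | zero => simp
    | succ i ih => rw [pow_succ, ← mul_assoc, codim_mul fin (h1 i) o0, ih, D.codim_pt hca, add_assoc]
  refine stepB_cancel (Good.pt _ (hP c a hca)) (3 - codim F I % 4) ?_
  have h3 := h2 (3 - codim F I % 4)
  have h4 := h1 (3 - codim F I % 4)
  generalize I * D.pt c a ^ (3 - codim F I % 4) = K at h3 h4
  obtain ⟨α, hK, hα, hV⟩ := D.exists_mem_V h4 (N := codim F I / 4 + 1) (by
    rw [D.finrank_V_two (by omega)]
    omega)
  obtain ⟨J, hJ⟩ := Ideal.dvd_iff_le.2 ((Ideal.span_singleton_le_iff_mem K).2 hK)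
  have J0 : J ≠ ⊥ := by
    rintro rfl
    rw [Ideal.mul_bot, Ideal.span_singleton_eq_bot] at hJ
    exact hα hJ
  have h5 := D.codim_span_le hα hV
  rw [hJ, codim_mul fin h4 J0, Fintype.card_fin] at h5
  refine Good.cancel K J (hJ ▸ Good.prin α hα) ?_
  rcases Nat.eq_zero_or_pos (codim F J) with e | e
  · have := fin J J0
    rw [codim_eq_zero e]
    exact Good.top P
  · obtain ⟨c', a', h6, rfl⟩ := D.eq_pt (I := J) (by omega)
    exact Good.pt _ (hP c' a' h6)

/-- A maximal ideal that meets the smaller ring is extended from it. -/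
theorem Dat.case_one {F E ι R : Type} [Field F] [CharZero F] [Field E] [Algebra F E] [Fintype ι]
    [CommRing R] (D : Dat F E ι) (j : D.R →+* R) (u : R)
    (hu : ∀ g : F[X], g ≠ 0 → IsUnit (g.eval₂ (j.comp (algebraMap F D.R)) u))
    (Q : Fin 2 → F[X]) (hs : (∏ i, Q i).Separable) (hd : ∀ i, 0 < (Q i).natDegree) (z : Fin 2 → R)
    (hz : ∀ i, z i ^ 2 = (Q i).eval₂ (j.comp (algebraMap F D.R)) (j D.sR - u))
    (hR : ∀ x : R, ∃ m, IsUnit m ∧ ∃ c : Finset (Fin 2) → D.R[X],
      m * x = ∑ S, (c S).eval₂ j (j D.sR - u) * ∏ i ∈ S, z i)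
    (𝔪 : Ideal R) (h𝔪 : 𝔪.IsMaximal) (h0 : 𝔪.comap j ≠ ⊥) : 𝔪 = (𝔪.comap j).map j := by
  refine le_antisymm (fun x hx => ?_) Ideal.map_comap_le
  let _ := Ideal.Quotient.field 𝔪
  let π := Ideal.Quotient.mk 𝔪
  let _ : Algebra F (R ⧸ 𝔪) := (π.comp (j.comp (algebraMap F D.R))).toAlgebra
  have ev : ∀ (g : F[X]) (t : R), π (g.eval₂ (j.comp (algebraMap F D.R)) t) = aeval (π t) g :=
    fun g t => Polynomial.hom_eval₂ g _ π t
  have alg : ∀ r : D.R, IsAlgebraic F (π (j r)) := fun r => by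
    have := D.finite_quot h0
    obtain ⟨p, p0, hp⟩ := (IsIntegral.of_finite F (Ideal.Quotient.mk (𝔪.comap j) r)).isAlgebraic
    refine ⟨p, p0, ?_⟩
    have h1 : aeval r p ∈ 𝔪.comap j := by
      rw [← Ideal.Quotient.eq_zero_iff_mem, ← hp]
      exact (aeval_algHom_apply (Ideal.Quotient.mkₐ F (𝔪.comap j)) r p).symm
    rw [← ev, ← Polynomial.hom_eval₂, Ideal.Quotient.eq_zero_iff_mem]
    exact h1
  have tu : Transcendental F (π u) := by
    rintro ⟨g, g0, hg⟩
    have h1 := (hu g g0).map π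
    rw [ev, hg] at h1
    exact not_isUnit_zero h1
  have tx : Transcendental F (π (j D.sR - u)) := fun h => tu (by
    have h1 := (alg D.sR).sub h
    rwa [← map_sub, sub_sub_cancel] at h1)
  let k := algebraicClosure F (R ⧸ 𝔪)
  have : CharZero k := charZero_of_injective_algebraMap (algebraMap F k).injective
  let ψ : D.R →+* k := (π.comp j).codRestrict k fun r => mem_algebraicClosure_iff.2 (alg r)
  obtain ⟨m, hm, c, hc⟩ := hR x
  have key : ∀ S, (c S).map ψ = 0 := by
    refine mq_indep_poly (tx.extendScalars k) (y := fun i => π (z i))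
      (q := fun i => (Q i).map (algebraMap F k)) (fun i => ?_) ?_ (fun i => ?_) ?_
    · rw [aeval_map_algebraMap, ← ev, ← hz, map_pow]
    · rw [← Polynomial.map_prod]
      exact hs.map
    · rw [natDegree_map]
      exact hd i
    · have h1 : π (m * x) = 0 := Ideal.Quotient.eq_zero_iff_mem.2 (𝔪.mul_mem_left m hx)
      rw [hc, map_sum] at h1
      rw [← h1]
      refine Finset.sum_congr rfl fun S _ => ?_
      rw [map_mul, map_prod, Polynomial.hom_eval₂, aeval_def, eval₂_map]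
      rfl
  rw [← Ideal.unit_mul_mem_iff_mem _ hm, hc]
  refine Ideal.sum_mem _ fun S _ => Ideal.mul_mem_right _ _ ?_
  rw [eval₂_eq_sum_range]
  refine Ideal.sum_mem _ fun n _ => Ideal.mul_mem_right _ _ (Ideal.mem_map_of_mem _ ?_)
  have h1 := congrArg (fun p : k[X] => (p.coeff n : R ⧸ 𝔪)) (key S)
  simp only [coeff_map, Polynomial.coeff_zero] at h1
  exact Ideal.mem_comap.2 (Ideal.Quotient.eq_zero_iff_mem.1 h1)

end Pool.Agent.MP_e6b751_nt
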